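import Mathlib
import Pool.Agent.H977R3.CM.Aut

/-!
# Complex numbers fixed by all automorphisms, and subspaces stable under all automorphisms
-/

set_option linter.unusedSectionVars false

namespace Pool.Agent.W437.HD

open Pool.Agent.H977R3.CM Polynomial

theorem exists_move_transc {z : ℂ} (hz : Transcendental ℚ z) : ∃ σ : ℂ ≃+* ℂ, σ z ≠ z := by
  have hinj : Function.Injective (aeval z : ℚ[X] →ₐ[ℚ] ℂ) := transcendental_iff_injective.1 hz
  let j : FractionRing ℚ[X] →+* ℂ := IsFractionRing.lift (g := (aeval z : ℚ[X] →ₐ[ℚ] ℂ).toRingHom)
    hinj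
  let e : ℚ[X] ≃+* ℚ[X] := (algEquivAevalXAddC (1 : ℚ)).toRingEquiv
  let g : FractionRing ℚ[X] ≃+* FractionRing ℚ[X] := IsFractionRing.ringEquivOfRingEquiv e
  obtain ⟨σ, hσ⟩ := exists_aut j g
  refine ⟨σ, fun h => ?_⟩
  have h1 := hσ (algebraMap ℚ[X] _ X)
  have h2 : j (algebraMap ℚ[X] _ X) = z := by
    change IsFractionRing.lift _ _ = _
    rw [IsFractionRing.lift_algebraMap]
    simp
  have h3 : g (algebraMap ℚ[X] _ X) = algebraMap ℚ[X] _ (X + C 1) := by
    change IsFractionRing.ringEquivOfRingEquiv e _ = _
    rw [IsFractionRing.ringEquivOfRingEquiv_algebraMap]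
    congr 1
    simp [e]
  have h4 : j (algebraMap ℚ[X] _ (X + C 1)) = z + 1 := by
    change IsFractionRing.lift _ _ = _
    rw [IsFractionRing.lift_algebraMap]
    simp
  rw [h2, h3, h4, h] at h1
  simp at h1

theorem exists_move_alg {z : ℂ} (hz : IsAlgebraic ℚ z) (hq : ∀ q : ℚ, z ≠ q) :
    ∃ σ : ℂ ≃+* ℂ, σ z ≠ z := by
  set p : ℚ[X] := minpoly ℚ z with hp
  have hp0 : p ≠ 0 := minpoly.ne_zero hz.isIntegral
  have hspl : (p.map (algebraMap ℚ ℂ)).Splits := IsAlgClosed.splits _
  have hsf : p.IsSplittingField ℚ (IntermediateField.adjoin ℚ (p.rootSet ℂ)) :=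
    IntermediateField.adjoin_rootSet_isSplittingField hspl
  let L := IntermediateField.adjoin ℚ (p.rootSet ℂ)
  have _ : Normal ℚ L := Normal.of_isSplittingField p
  have _ : FiniteDimensional ℚ L := Polynomial.IsSplittingField.finiteDimensional _ p
  have _ : IsGalois ℚ L := ⟨⟩
  have hzL : z ∈ L := by
    apply IntermediateField.subset_adjoin
    rw [Polynomial.mem_rootSet]
    exact ⟨hp0, minpoly.aeval ℚ z⟩
  obtain ⟨g, hg⟩ : ∃ g : L ≃ₐ[ℚ] L, g ⟨z, hzL⟩ ≠ ⟨z, hzL⟩ := by
    by_contra hcon
    push Not at hcon
    have h1 := (IsGalois.mem_bot_iff_fixed (F := ℚ) (E := L) ⟨z, hzL⟩).2 hcon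
    obtain ⟨q, hq'⟩ := IntermediateField.mem_bot.1 h1
    apply hq q
    have h2 := congrArg (fun x : L => (x : ℂ)) hq'
    simp only at h2
    rw [← h2]
    simp
  obtain ⟨σ, hσ⟩ := exists_aut (L.val : L →+* ℂ) (g : L ≃+* L)
  refine ⟨σ, fun h => hg ?_⟩
  have h1 := hσ ⟨z, hzL⟩
  apply Subtype.ext
  exact h1.symm.trans h

/-- Only rational numbers are fixed by all automorphisms of the field of complex numbers. -/
theorem exists_move {z : ℂ} (hq : ∀ q : ℚ, z ≠ q) : ∃ σ : ℂ ≃+* ℂ, σ z ≠ z := by
  by_cases hz : IsAlgebraic ℚ z
  · exact exists_move_alg hz hq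
  · exact exists_move_transc hz

/-- A subspace which is stable under all automorphisms of the field of complex numbers is spanned
by rational vectors. -/
theorem span_rational {B : Type*} [Fintype B] (C : Submodule ℂ (B → ℂ))
    (hC : ∀ (σ : ℂ ≃+* ℂ), ∀ v ∈ C, (fun i => σ (v i)) ∈ C) :
    C = Submodule.span ℂ {w | w ∈ C ∧ ∃ u : B → ℚ, w = fun i => (u i : ℂ)} := by
  classical
  apply le_antisymm
  · have key : ∀ (n : ℕ) (v : B → ℂ), v ∈ C → (Finset.univ.filter (fun i => v i ≠ 0)).card ≤ n →
        v ∈ Submodule.span ℂ {w | w ∈ C ∧ ∃ u : B → ℚ, w = fun i => (u i : ℂ)} := by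
      intro n
      induction n with
      | zero =>
        intro v _ hv
        have h1 : v = 0 := by
          funext i
          by_contra h
          have h2 : i ∈ Finset.univ.filter (fun i => v i ≠ 0) := by simpa using h
          rw [Nat.le_zero, Finset.card_eq_zero] at hv
          rw [hv] at h2
          exact absurd h2 (Finset.notMem_empty i)
        rw [h1]
        exact Submodule.zero_mem _
      | succ n ih =>
        intro v hv hcard
        by_cases hv0 : v = 0
        · rw [hv0]
          exact Submodule.zero_mem _
        · obtain ⟨i0, hi0⟩ : ∃ i, v i ≠ 0 := by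
            by_contra hcon
            push Not at hcon
            exact hv0 (funext hcon)
          -- normalise
          have hw : (v i0)⁻¹ • v ∈ C := Submodule.smul_mem _ _ hv
          set w := (v i0)⁻¹ • v with hwdef
          have hwi0 : w i0 = 1 := by
            rw [hwdef, Pi.smul_apply, smul_eq_mul, inv_mul_cancel₀ hi0]
          have hwsupp : ∀ i, w i ≠ 0 → v i ≠ 0 := by
            intro i h1 h2
            apply h1
            rw [hwdef, Pi.smul_apply, h2, smul_zero]
          have hvw : v = (v i0) • w := by
            rw [hwdef, smul_smul, mul_inv_cancel₀ hi0, one_smul]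
          -- a vector of `C` with smaller support
          by_cases hrat : ∀ i, ∃ q : ℚ, w i = q
          · choose u hu using hrat
            rw [hvw]
            exact Submodule.smul_mem _ _ (Submodule.subset_span ⟨hw, u, funext hu⟩)
          · push Not at hrat
            obtain ⟨i1, hi1⟩ := hrat
            obtain ⟨σ, hσ⟩ := exists_move hi1
            set d : B → ℂ := fun i => σ (w i) - w i with hd
            have hdC : d ∈ C := Submodule.sub_mem _ (hC σ w hw) hw
            have hd0 : d i0 = 0 := by
              rw [hd]
              simp [hwi0]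
            have hd1 : d i1 ≠ 0 := sub_ne_zero.2 hσ
            have hdsupp : ∀ i, d i ≠ 0 → v i ≠ 0 := by
              intro i h1
              apply hwsupp
              intro h2
              apply h1
              rw [hd]
              simp [h2]
            have hdcard : (Finset.univ.filter (fun i => d i ≠ 0)).card ≤ n := by
              have h1 : (Finset.univ.filter (fun i => d i ≠ 0)) ⊂
                  Finset.univ.filter (fun i => v i ≠ 0) := by
                rw [Finset.ssubset_iff_of_subset]
                · exact ⟨i0, by simpa using hi0, by simpa using hd0⟩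
                · intro i hi
                  simp only [Finset.mem_filter, Finset.mem_univ, true_and] at hi ⊢
                  exact hdsupp i hi
              have h2 := Finset.card_lt_card h1
              omega
            have h1 := ih d hdC hdcard
            -- subtract a multiple of `d`
            set v' : B → ℂ := v - (v i1 / d i1) • d with hv'
            have hv'C : v' ∈ C := Submodule.sub_mem _ hv (Submodule.smul_mem _ _ hdC)
            have hv'1 : v' i1 = 0 := by
              rw [hv', Pi.sub_apply, Pi.smul_apply, smul_eq_mul, div_mul_cancel₀ _ hd1, sub_self]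
            have hv'card : (Finset.univ.filter (fun i => v' i ≠ 0)).card ≤ n := by
              have h1 : (Finset.univ.filter (fun i => v' i ≠ 0)) ⊂
                  Finset.univ.filter (fun i => v i ≠ 0) := by
                rw [Finset.ssubset_iff_of_subset]
                · exact ⟨i1, by simpa using hdsupp i1 hd1, by simpa using hv'1⟩
                · intro i hi
                  simp only [Finset.mem_filter, Finset.mem_univ, true_and] at hi ⊢
                  intro h2
                  apply hi
                  have h3 : d i = 0 := by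
                    by_contra h4
                    exact hdsupp i h4 h2
                  rw [hv', Pi.sub_apply, Pi.smul_apply, h2, h3, smul_zero, sub_zero]
              have h2 := Finset.card_lt_card h1
              omega
            have h2 := ih v' hv'C hv'card
            have h3 : v = v' + (v i1 / d i1) • d := by
              rw [hv', sub_add_cancel]
            rw [h3]
            exact Submodule.add_mem _ h2 (Submodule.smul_mem _ _ h1)
    intro v hv
    exact key _ v hv le_rfl
  · rw [Submodule.span_le]
    rintro w ⟨hw, _⟩
    exact hw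

end Pool.Agent.W437.HD
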