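import Mathlib
import Pool.Agent.W437.HC.Assemble

/-!
# Hodge classes on powers from products of invariant bilinear forms
-/

set_option linter.unusedSectionVars false

namespace Pool.Agent.W437.HD

open Matrix Pool.Agent.H204R3.CM Pool.Agent.H204R3.SP Pool.Agent.H194R3.CM Pool.Agent.W437.HC

variable {g : ℕ} {Z : Matrix (Fin g) (Fin g) ℂ}

/-- The inverse of the real period map. -/
noncomputable def invR (Z : Matrix (Fin g) (Fin g) ℂ) : (Fin g → ℂ) →ₗ[ℝ] (Fin g ⊕ Fin g → ℝ) where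
  toFun u := Sum.elim ((fun i => (u i).re) - reM Z *ᵥ ((imM Z)⁻¹ *ᵥ (fun i => (u i).im)))
    ((imM Z)⁻¹ *ᵥ (fun i => (u i).im))
  map_add' u v := by
    have e1 : (fun i => ((u + v) i).re) = (fun i => (u i).re) + fun i => (v i).re := by
      funext i; simp
    have e2 : (fun i => ((u + v) i).im) = (fun i => (u i).im) + fun i => (v i).im := by
      funext i; simp
    rw [e1, e2]
    simp only [mulVec_add]
    funext i
    rcases i with i | i
    · simp only [Sum.elim_inl, Pi.add_apply, Pi.sub_apply]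
      ring
    · simp only [Sum.elim_inr, Pi.add_apply]
  map_smul' a u := by
    have e1 : (fun i => ((a • u) i).re) = a • (fun i => (u i).re) := by
      funext i; simp
    have e2 : (fun i => ((a • u) i).im) = a • (fun i => (u i).im) := by
      funext i; simp
    rw [e1, e2]
    simp only [mulVec_smul]
    funext i
    rcases i with i | i
    · simp only [Sum.elim_inl, Pi.smul_apply, Pi.sub_apply, smul_eq_mul, RingHom.id_apply]
      ring
    · simp only [Sum.elim_inr, Pi.smul_apply, RingHom.id_apply]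

theorem perR_invR (hY : IsUnit (imM Z).det) (u : Fin g → ℂ) : perR Z (invR Z u) = u := by
  funext i
  apply Complex.ext
  · rw [perR_re]
    change ((u i).re - (reM Z *ᵥ ((imM Z)⁻¹ *ᵥ (fun i => (u i).im))) i) +
      (reM Z *ᵥ ((imM Z)⁻¹ *ᵥ (fun i => (u i).im))) i = _
    ring
  · rw [perR_im]
    change (imM Z *ᵥ ((imM Z)⁻¹ *ᵥ (fun i => (u i).im))) i = _
    rw [mulVec_mulVec, mul_nonsing_inv _ hY, one_mulVec]

theorem invR_perR (hY : IsUnit (imM Z).det) (x : Fin g ⊕ Fin g → ℝ) : invR Z (perR Z x) = x := by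
  have h1 : (fun i => (perR Z x i).im) = imM Z *ᵥ (fun k => x (Sum.inr k)) := by
    funext i
    exact perR_im Z x i
  have h2 : (fun i => (perR Z x i).re) =
      (fun i => x (Sum.inl i)) + reM Z *ᵥ (fun k => x (Sum.inr k)) := by
    funext i
    exact perR_re Z x i
  have h3 : (imM Z)⁻¹ *ᵥ (imM Z *ᵥ (fun k => x (Sum.inr k))) = fun k => x (Sum.inr k) := by
    rw [mulVec_mulVec, nonsing_inv_mul _ hY, one_mulVec]
  change Sum.elim (_ - _ *ᵥ _) _ = _
  rw [h1, h2, h3]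
  funext i
  rcases i with i | i
  · simp
  · simp

theorem invR_rotate (hY : IsUnit (imM Z).det) (z : ℂ) (u : Fin g → ℂ) :
    invR Z (z • u) = z.re • invR Z u + z.im • (JR Z *ᵥ invR Z u) := by
  have h1 : z • u = perR Z (z.re • invR Z u + z.im • (JR Z *ᵥ invR Z u)) := by
    rw [map_add, map_smul, map_smul, perR_JR Z hY, perR_invR hY]
    funext i
    simp only [Pi.smul_apply, smul_eq_mul, Pi.add_apply, Complex.real_smul]
    conv_lhs => rw [← Complex.re_add_im z]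
    ring
  rw [h1, invR_perR hY]

/-- A rational bilinear form between two factors of a power. -/
def bF {n : ℕ} (b : (Fin 2 → Fin g ⊕ Fin g) → ℚ) (j0 j1 : Fin n) :
    (Fin n → Fin g ⊕ Fin g → ℚ) →ₗ[ℚ] (Fin n → Fin g ⊕ Fin g → ℚ) →ₗ[ℚ] ℚ :=
  LinearMap.mk₂ ℚ (fun u v => u j0 ⬝ᵥ (Matrix.of (fun i j => b ![i, j]) *ᵥ v j1))
    (fun u u' v => by rw [Pi.add_apply, add_dotProduct])
    (fun a u v => by rw [Pi.smul_apply, smul_dotProduct])
    (fun u v v' => by rw [Pi.add_apply, mulVec_add, dotProduct_add])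
    (fun a u v => by rw [Pi.smul_apply, mulVec_smul, dotProduct_smul])

theorem bF_apply {n : ℕ} (b : (Fin 2 → Fin g ⊕ Fin g) → ℚ) (j0 j1 : Fin n)
    (u v : Fin n → Fin g ⊕ Fin g → ℚ) :
    bF b j0 j1 u v = u j0 ⬝ᵥ (Matrix.of (fun i j => b ![i, j]) *ᵥ v j1) := rfl

/-- The corresponding real form on the tangent space. -/
noncomputable def bR (Z : Matrix (Fin g) (Fin g) ℂ) {n : ℕ} (b : (Fin 2 → Fin g ⊕ Fin g) → ℚ)
    (j0 j1 : Fin n) : (Fin n → Fin g → ℂ) →ₗ[ℝ] (Fin n → Fin g → ℂ) →ₗ[ℝ] ℝ :=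
  LinearMap.mk₂ ℝ (fun u v => invR Z (u j0) ⬝ᵥ
      (Matrix.of (fun i j => ((b ![i, j] : ℚ) : ℝ)) *ᵥ invR Z (v j1)))
    (fun u u' v => by rw [Pi.add_apply, map_add, add_dotProduct])
    (fun a u v => by rw [Pi.smul_apply, map_smul, smul_dotProduct])
    (fun u v v' => by rw [Pi.add_apply, map_add, mulVec_add, dotProduct_add])
    (fun a u v => by rw [Pi.smul_apply, map_smul, mulVec_smul, dotProduct_smul])

theorem bR_apply {n : ℕ} (b : (Fin 2 → Fin g ⊕ Fin g) → ℚ) (j0 j1 : Fin n)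
    (u v : Fin n → Fin g → ℂ) : bR Z b j0 j1 u v = invR Z (u j0) ⬝ᵥ
      (Matrix.of (fun i j => ((b ![i, j] : ℚ) : ℝ)) *ᵥ invR Z (v j1)) := rfl

theorem isHodge_bF (hY : IsUnit (imM Z).det) {b : (Fin 2 → Fin g ⊕ Fin g) → ℚ}
    (hb : IsH (DZ Z) b) {n : ℕ} (j0 j1 : Fin n) :
    IsHodge (perPow Z n) (MultilinearMap.alternatization (bil2 (bF b j0 j1))) := by
  refine isHodge_alt (bil2 (bR Z b j0 j1)) (fun v => ?_) (fun z hz u => ?_)
  · rw [bil2_apply, bil2_apply, bR_apply, bF_apply]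
    have h1 : ∀ (w : Fin n → Fin g ⊕ Fin g → ℚ) (j : Fin n),
        invR Z (perPow Z n w j) = fun i => ((w j i : ℚ) : ℝ) := by
      intro w j
      have h2 : perPow Z n w j = perR Z (fun i => ((w j i : ℚ) : ℝ)) := by
        funext i
        rw [perPow_apply]
        simp [perR]
      rw [h2, invR_perR hY]
    rw [h1, h1]
    simp [dotProduct, mulVec]
  · rw [bil2_apply, bil2_apply, bR_apply, bR_apply]
    set M : Matrix (Fin g ⊕ Fin g) (Fin g ⊕ Fin g) ℝ :=
      Matrix.of (fun i j => ((b ![i, j] : ℚ) : ℝ)) with hM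
    set J := JR Z with hJ
    have hJM : Jᵀ * M + M * J = 0 := by
      have h1 := lieM_kills (K := ℝ) _ (JR_mem Z) hb
      have h2 : cst ℝ b = bilc M := by
        funext I
        rw [hM]
        simp only [cst, bilc, Matrix.of_apply]
        congr 2
        funext l
        fin_cases l <;> rfl
      rw [h2] at h1
      ext i j
      have h3 := congrFun h1 ![i, j]
      rw [act_bilc] at h3
      exact h3
    have hJ2 : J * J = -1 := JR_sq hY
    have hn : z.re ^ 2 + z.im ^ 2 = 1 := by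
      have h := Complex.sq_norm z
      rw [hz, Complex.normSq_apply] at h
      nlinarith [h]
    rw [Pi.smul_apply, Pi.smul_apply, invR_rotate hY, invR_rotate hY, ← hJ]
    set x := invR Z (u 0 j0)
    set y := invR Z (u 1 j1)
    have h4 : x ⬝ᵥ (M *ᵥ (J *ᵥ y)) = -((J *ᵥ x) ⬝ᵥ (M *ᵥ y)) := by
      have h5 : (J *ᵥ x) ⬝ᵥ (M *ᵥ y) = x ⬝ᵥ ((Jᵀ * M) *ᵥ y) := by
        rw [← mulVec_mulVec, dotProduct_mulVec x, vecMul_transpose]
      rw [h5, eq_neg_of_add_eq_zero_left hJM, neg_mulVec, dotProduct_neg, neg_neg, mulVec_mulVec]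
    have h6 : (J *ᵥ x) ⬝ᵥ (M *ᵥ (J *ᵥ y)) = x ⬝ᵥ (M *ᵥ y) := by
      have h5 : (J *ᵥ x) ⬝ᵥ (M *ᵥ (J *ᵥ y)) = x ⬝ᵥ ((Jᵀ * M) *ᵥ (J *ᵥ y)) := by
        rw [← mulVec_mulVec, dotProduct_mulVec x, vecMul_transpose]
      rw [h5, eq_neg_of_add_eq_zero_left hJM, neg_mulVec, mulVec_mulVec, mul_assoc, hJ2,
        mul_neg_one, neg_mulVec, neg_neg]
    simp only [mulVec_add, mulVec_smul, dotProduct_add, add_dotProduct, smul_dotProduct,
      dotProduct_smul, smul_eq_mul, h4, h6]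
    linear_combination (x ⬝ᵥ (M *ᵥ y)) * hn

/-- The span of the products, over matchings, of rational bilinear forms killed by `D`. -/
def MS {B : Type*} [Fintype B] [DecidableEq B] (D : Matrix B B ℂ) (m : ℕ) :
    Submodule ℚ ((Fin m × Fin 2 → B) → ℚ) :=
  Submodule.span ℚ {F | ∃ (e : Equiv.Perm (Fin m × Fin 2)) (b : Fin m → (Fin 2 → B) → ℚ),
    (∀ s, IsH D (b s)) ∧ F = fun I => ∏ s, b s ![I (e (s, 0)), I (e (s, 1))]}

theorem pF_gen {n m : ℕ} (t : Fin m × Fin 2 → Fin n) (e : Equiv.Perm (Fin m × Fin 2))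
    (b : Fin m → (Fin 2 → Fin g ⊕ Fin g) → ℚ) :
    pF t (fun I => ∏ s, b s ![I (e (s, 0)), I (e (s, 1))]) =
      fun v => ∏ s, bil2 (bF (b s) (t (e (s, 0))) (t (e (s, 1)))) (fun ε => v (e (s, ε))) := by
  funext v
  rw [pF_apply]
  have h1 : ∀ I : Fin m × Fin 2 → Fin g ⊕ Fin g,
      (∏ s, b s ![I (e (s, 0)), I (e (s, 1))]) * ∏ k, v k (t k) (I k) =
      ∏ s, (b s ![I (e (s, 0)), I (e (s, 1))] * (v (e (s, 0)) (t (e (s, 0))) (I (e (s, 0))) *
        v (e (s, 1)) (t (e (s, 1))) (I (e (s, 1))))) := by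
    intro I
    rw [← Equiv.prod_comp e (fun k => v k (t k) (I k)), Fintype.prod_prod_type]
    simp only [Fin.prod_univ_two]
    rw [← Finset.prod_mul_distrib]
  rw [Finset.sum_congr rfl (fun I _ => h1 I)]
  rw [sum_match e (fun s i j => b s ![i, j] * (v (e (s, 0)) (t (e (s, 0))) i *
        v (e (s, 1)) (t (e (s, 1))) j))]
  refine Finset.prod_congr rfl fun s _ => ?_
  rw [bil2_apply, bF_apply, dotProduct]
  refine Finset.sum_congr rfl fun i _ => ?_
  rw [mulVec, dotProduct, Finset.mul_sum]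
  refine Finset.sum_congr rfl fun j _ => ?_
  rw [Matrix.of_apply]
  ring

/-- If all rational forms killed by the Hodge operator are linear combinations of products of such
bilinear forms then all Hodge classes on all powers are generated by those of degree two. -/
theorem mem_divisorial_of_MS (hY : IsUnit (imM Z).det) {n m : ℕ}
    (hk : ∀ c : (Fin m × Fin 2 → Fin g ⊕ Fin g) → ℚ, IsH (DZ Z) c → c ∈ MS (DZ Z) m)
    (f : (Fin n → Fin g ⊕ Fin g → ℚ) [⋀^Fin m × Fin 2]→ₗ[ℚ] ℚ)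
    (hf : IsHodge (perPow Z n) f) : f ∈ divisorial (perPow Z n) m := by
  have h1 := alt_span (R := ℚ) (W := Fin n → Fin g ⊕ Fin g → ℚ)
    {B | ∃ (b : (Fin 2 → Fin g ⊕ Fin g) → ℚ) (j0 j1 : Fin n), IsH (DZ Z) b ∧
      B = bil2 (bF b j0 j1)} f ?_
  · refine Submodule.span_mono ?_ h1
    rintro F ⟨b, hb, hF⟩
    refine ⟨fun s => MultilinearMap.alternatization (b s), fun s => ?_, fun v => ?_⟩
    · obtain ⟨b', j0, j1, hb', hp⟩ := hb s
      change IsHodge _ (MultilinearMap.alternatization (b s))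
      rw [hp]
      exact isHodge_bF hY hb' _ _
    · rw [hF v]
  · rw [sum_pF]
    refine Submodule.sum_mem _ fun t _ => ?_
    have h3 := hk _ (isH_coe Z hY hf t)
    have h4 : pF t (coe f t) ∈ (MS (DZ Z) m).map (pF t) := Submodule.mem_map_of_mem h3
    unfold MS at h4
    rw [Submodule.map_span] at h4
    refine Submodule.span_mono ?_ h4
    rintro _ ⟨_, ⟨e, b, hb, rfl⟩, rfl⟩
    exact ⟨e, _, fun s => ⟨b s, t (e (s, 0)), t (e (s, 1)), hb s, rfl⟩, pF_gen t e b⟩

end Pool.Agent.W437.HD
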