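import Mathlib
import Pool.Agent.H204R3.GP.FFT
import Pool.Agent.W437.HK.Fin
import Pool.Agent.W437.HD.Gen

/-!
# Forms killed by a Lie algebra which contains classical Lie algebras of blocks
-/

set_option linter.unusedSectionVars false

namespace Pool.Agent.W437.HD

open Matrix Pool.Agent.H204R3.SP Pool.Agent.H204R3.GP Pool.Agent.W437.HC

/-- A complex function lies in the complex span of its images under rational linear maps. -/
theorem mem_span_lam {A : Type*} [Finite A] (v : A → ℂ) :
    v ∈ Submodule.span ℂ (Set.range (fun (lam : ℂ →ₗ[ℚ] ℚ) (i : A) => ((lam (v i) : ℚ) : ℂ))) := by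
  classical
  have := Fintype.ofFinite A
  let b := Module.Basis.ofVectorSpace ℚ ℂ
  let s := Finset.univ.biUnion (fun i => (b.repr (v i)).support)
  have h : v = ∑ j ∈ s, (b j) • (fun i => ((b.coord j (v i) : ℚ) : ℂ)) := by
    funext i
    rw [Finset.sum_apply]
    have h1 : v i = ∑ j ∈ s, b.repr (v i) j • b j := by
      have h2 : v i = (b.repr (v i)).sum fun j a => a • b j := (b.linearCombination_repr (v i)).symm
      conv_lhs => rw [h2]
      rw [Finsupp.sum]
      refine Finset.sum_subset ?_ ?_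
      · intro j hj
        exact Finset.mem_biUnion.2 ⟨i, Finset.mem_univ _, hj⟩
      · intro j _ hj
        rw [Finsupp.notMem_support_iff.1 hj, zero_smul]
    conv_lhs => rw [h1]
    refine Finset.sum_congr rfl fun j _ => ?_
    rw [Pi.smul_apply, smul_eq_mul, Rat.smul_def, mul_comm]
    rfl
  have h2 : ∑ j ∈ s, (b j) • (fun i => ((b.coord j (v i) : ℚ) : ℂ)) ∈
      Submodule.span ℂ (Set.range (fun (lam : ℂ →ₗ[ℚ] ℚ) (i : A) => ((lam (v i) : ℚ) : ℂ))) :=
    Submodule.sum_mem _ fun j _ =>
      Submodule.smul_mem _ _ (Submodule.subset_span ⟨b.coord j, rfl⟩)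
  rwa [← h] at h2

variable {B : Type*} [Fintype B] [DecidableEq B] {D : Matrix B B ℂ}

theorem lam_act_rat {κ : Type*} [Fintype κ] [DecidableEq κ] (lam : ℂ →ₗ[ℚ] ℚ) (X : Matrix B B ℚ)
    (c : (κ → B) → ℂ) (I : κ → B) :
    lam (act (X.map (fun x : ℚ => (x : ℂ))) c I) = act X (fun J => lam (c J)) I := by
  simp only [act, map_sum]
  refine Finset.sum_congr rfl fun k _ => Finset.sum_congr rfl fun j _ => ?_
  rw [Matrix.map_apply, ← Rat.smul_def, map_smul, smul_eq_mul]

/-- Complex forms killed by the rational Lie algebra are linear combinations of rational ones. -/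
theorem mem_span_isH {κ : Type*} [Fintype κ] [DecidableEq κ] {c : (κ → B) → ℂ}
    (hc : ∀ X ∈ lieM D ℚ, act (X.map (fun x : ℚ => (x : ℂ))) c = 0) :
    c ∈ Submodule.span ℂ {w | ∃ b : (κ → B) → ℚ, IsH D b ∧ w = cst ℂ b} := by
  refine Submodule.span_mono ?_ (mem_span_lam c)
  rintro _ ⟨lam, rfl⟩
  refine ⟨fun J => lam (c J), isH_of_rat D fun X hX => ?_, rfl⟩
  funext I
  rw [← lam_act_rat, hc X hX, Pi.zero_apply, map_zero]
  rfl

/-- The rational functions which are products over a matching. -/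
def PS (D : Matrix B B ℂ) (m : ℕ) : Set ((Fin m × Fin 2 → B) → ℚ) :=
  {F | ∃ (e : Equiv.Perm (Fin m × Fin 2)) (b : Fin m → (Fin 2 → B) → ℚ),
    (∀ s, IsH D (b s)) ∧ F = fun I => ∏ s, b s ![I (e (s, 0)), I (e (s, 1))]}

theorem MS_eq (m : ℕ) : MS D m = Submodule.span ℚ (PS D m) := rfl

theorem prod_mem_prod {A ι : Type*} [CommRing A] [Algebra ℂ A] (s : Finset ι)
    (N : ι → Submodule ℂ A) (x : ι → A) (hx : ∀ i, x i ∈ N i) : ∏ i ∈ s, x i ∈ ∏ i ∈ s, N i := by
  classical
  induction s using Finset.induction_on with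
  | empty =>
    rw [Finset.prod_empty, Finset.prod_empty]
    exact Submodule.one_le.1 le_rfl
  | insert i s hi ih =>
    rw [Finset.prod_insert hi, Finset.prod_insert hi]
    exact Submodule.mul_mem_mul (hx i) ih

theorem prod_mem_span {m : ℕ} (e : Equiv.Perm (Fin m × Fin 2)) (β : Fin m → (Fin 2 → B) → ℂ)
    (hβ : ∀ s, β s ∈ Submodule.span ℂ {w | ∃ b : (Fin 2 → B) → ℚ, IsH D b ∧ w = cst ℂ b}) :
    (fun I : Fin m × Fin 2 → B => ∏ s, β s ![I (e (s, 0)), I (e (s, 1))]) ∈
      Submodule.span ℂ ((fun (f : (Fin m × Fin 2 → B) → ℚ) I => ((f I : ℚ) : ℂ)) '' PS D m) := by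
  have h1 : (fun I : Fin m × Fin 2 → B => ∏ s, β s ![I (e (s, 0)), I (e (s, 1))]) =
      ∏ s, fun I : Fin m × Fin 2 → B => β s ![I (e (s, 0)), I (e (s, 1))] := by
    funext I
    rw [Finset.prod_apply]
  rw [h1]
  have h2 : ∀ s, (fun I : Fin m × Fin 2 → B => β s ![I (e (s, 0)), I (e (s, 1))]) ∈
      Submodule.span ℂ ((LinearMap.funLeft ℂ ℂ
        (fun I : Fin m × Fin 2 → B => (![I (e (s, 0)), I (e (s, 1))] : Fin 2 → B))) ''
        {w | ∃ b : (Fin 2 → B) → ℚ, IsH D b ∧ w = cst ℂ b}) := by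
    intro s
    rw [← Submodule.map_span]
    exact Submodule.mem_map_of_mem (hβ s)
  have h3 := prod_mem_prod Finset.univ _ _ h2
  rw [Submodule.prod_span] at h3
  refine Submodule.span_mono ?_ h3
  intro F hF
  rw [Set.mem_fintype_prod] at hF
  obtain ⟨f, hf, rfl⟩ := hF
  have h4 : ∀ s, ∃ b : (Fin 2 → B) → ℚ, IsH D b ∧ f s = fun I : Fin m × Fin 2 → B =>
      ((b ![I (e (s, 0)), I (e (s, 1))] : ℚ) : ℂ) := by
    intro s
    obtain ⟨_, ⟨b, hb, rfl⟩, hb2⟩ := hf s
    exact ⟨b, hb, hb2.symm⟩
  choose b hb hb2 using h4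
  refine ⟨fun I => ∏ s, b s ![I (e (s, 0)), I (e (s, 1))], ⟨e, b, hb, rfl⟩, ?_⟩
  funext I
  change (((∏ s, b s ![I (e (s, 0)), I (e (s, 1))] : ℚ)) : ℂ) = _
  rw [Finset.prod_apply, Rat.cast_prod]
  refine Finset.prod_congr rfl fun s _ => ?_
  rw [hb2 s]

/-- A matrix of rank at most two in the symplectic Lie algebra of `Om`. -/
def SS (Om : Matrix B B ℂ) (v w : B → ℂ) : Matrix B B ℂ := (vecMulVec v w + vecMulVec w v) * Om

theorem SS_mulVec (Om : Matrix B B ℂ) (v w u : B → ℂ) :
    SS Om v w *ᵥ u = (w ⬝ᵥ (Om *ᵥ u)) • v + (v ⬝ᵥ (Om *ᵥ u)) • w := by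
  unfold SS
  rw [← mulVec_mulVec, add_mulVec]
  congr 1
  · funext i
    simp only [mulVec, dotProduct, vecMulVec_apply, Pi.smul_apply, smul_eq_mul, Finset.sum_mul]
    exact Finset.sum_congr rfl fun j _ => by ring
  · funext i
    simp only [mulVec, dotProduct, vecMulVec_apply, Pi.smul_apply, smul_eq_mul, Finset.sum_mul]
    exact Finset.sum_congr rfl fun j _ => by ring

section basis

variable {R : Type} [Fintype R] [DecidableEq R] {Q : Type*} [Fintype Q] [DecidableEq Q]
  {cls : R → Q} {inv : R → R} {jj : R → ℂ}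

/-- The part of a form of a given type. -/
def typG {κ : Type*} [Fintype κ] (cls : R → Q) (τ : κ → Q) (c : (κ → R) → ℂ) : (κ → R) → ℂ :=
  fun I => if ∀ l, cls (I l) = τ l then c I else 0

theorem sum_typG {κ : Type*} [Fintype κ] [DecidableEq κ] (cls : R → Q) (c : (κ → R) → ℂ) :
    ∑ τ : κ → Q, typG cls τ c = c := by
  funext I
  rw [Finset.sum_apply, Finset.sum_eq_single (fun l => cls (I l))]
  · unfold typG
    rw [if_pos fun _ => rfl]
  · intro τ _ hτ
    unfold typG
    rw [if_neg]
    intro h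
    exact hτ (funext fun l => (h l).symm)
  · intro h
    exact absurd (Finset.mem_univ _) h

theorem typG_mem {κ : Type*} [Fintype κ] [DecidableEq κ] {c : (κ → R) → ℂ}
    (hinv : ∀ x, inv (inv x) = x) (hcls : ∀ x y, cls x = cls y → cls (inv x) = cls (inv y))
    (h : ∀ (b d : R), cls (inv b) = cls d → ∀ I : κ → R,
      ∑ l, (JJ inv jj b (I l) * c (Function.update I l d) +
        JJ inv jj d (I l) * c (Function.update I l b)) = 0) (τ : κ → Q) :
    typG cls τ c ∈ InvG cls inv jj κ τ := by
  refine ⟨fun b d hbd I => ?_, fun I hI l => ?_⟩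
  · have key : ∀ (x y : R), cls (inv x) = cls y → ∀ l,
        JJ inv jj x (I l) * typG cls τ c (Function.update I l y) =
        if ∀ l, cls (I l) = τ l then JJ inv jj x (I l) * c (Function.update I l y) else 0 := by
      intro x y hxy l
      by_cases hx : I l = inv x
      · have h1 : cls (I l) = cls y := by rw [hx, hxy]
        have h2 : (∀ l', cls (Function.update I l y l') = τ l') ↔
            ∀ l', cls (I l') = τ l' := by
          refine forall_congr' fun l' => ?_
          by_cases hl : l' = l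
          · subst hl
            rw [Function.update_self, h1]
          · rw [Function.update_of_ne hl]
        unfold typG
        by_cases h3 : ∀ l', cls (I l') = τ l'
        · rw [if_pos (h2.2 h3), if_pos h3]
        · rw [if_neg (fun h => h3 (h2.1 h)), if_neg h3, mul_zero]
      · have h1 : JJ inv jj x (I l) = 0 := by
          unfold JJ
          rw [if_neg hx]
        rw [h1, zero_mul, zero_mul]
        split_ifs <;> rfl
    have hdb : cls (inv d) = cls b := by
      rw [← hcls _ _ hbd, hinv]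
    have h4 : ∀ l, JJ inv jj b (I l) * typG cls τ c (Function.update I l d) +
        JJ inv jj d (I l) * typG cls τ c (Function.update I l b) =
        if ∀ l, cls (I l) = τ l then (JJ inv jj b (I l) * c (Function.update I l d) +
          JJ inv jj d (I l) * c (Function.update I l b)) else 0 := by
      intro l
      rw [key b d hbd l, key d b hdb l]
      split_ifs
      · rfl
      · rw [add_zero]
    rw [Finset.sum_congr rfl (fun l _ => h4 l)]
    by_cases h5 : ∀ l, cls (I l) = τ l
    · simp only [if_pos h5]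
      exact h b d hbd I
    · simp only [if_neg h5, Finset.sum_const_zero]
  · unfold typG at hI
    by_contra h1
    apply hI
    rw [if_neg]
    intro h2
    exact h1 (h2 l)

/-- The change of coordinates of forms. -/
def Tm {κ : Type*} [Fintype κ] [DecidableEq κ] (E : Matrix R B ℂ) :
    ((κ → R) → ℂ) →ₗ[ℂ] ((κ → B) → ℂ) where
  toFun F := fun I => ∑ X : κ → R, F X * ∏ k, E (X k) (I k)
  map_add' F G := by
    funext I
    simp only [Pi.add_apply, add_mul, Finset.sum_add_distrib]
  map_smul' a F := by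
    funext I
    simp only [Pi.smul_apply, smul_eq_mul, mul_assoc, Finset.mul_sum, RingHom.id_apply]

theorem Tm_apply {κ : Type*} [Fintype κ] [DecidableEq κ] (E : Matrix R B ℂ) (F : (κ → R) → ℂ)
    (I : κ → B) : Tm E F I = ∑ X : κ → R, F X * ∏ k, E (X k) (I k) := rfl

theorem Tm_coef {κ : Type*} [Fintype κ] [DecidableEq κ] {E : Matrix R B ℂ} {F : Matrix B R ℂ}
    (hFE : F * E = 1) (c : (κ → B) → ℂ) :
    Tm E (fun X : κ → R => evalF c (fun k i => F i (X k))) = c := by
  funext I
  have h1 : (fun k => Pi.single (I k) 1 : κ → B → ℂ) = fun k => ∑ r, E r (I k) • fun i => F i r := by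
    funext k
    funext i
    rw [Finset.sum_apply]
    have h2 := congrFun (congrFun hFE i) (I k)
    rw [Matrix.mul_apply, Matrix.one_apply] at h2
    rw [Pi.single_apply, ← h2]
    exact Finset.sum_congr rfl fun r _ => by rw [Pi.smul_apply, smul_eq_mul, mul_comm]
  rw [Tm_apply, ← evalF_single c I, h1, ← evalM_apply, MultilinearMap.map_sum]
  refine Finset.sum_congr rfl fun X _ => ?_
  rw [MultilinearMap.map_smul_univ, evalM_apply, smul_eq_mul, mul_comm]

theorem Tm_matG {m : ℕ} (e : Equiv.Perm (Fin m × Fin 2)) (cc : Fin m → Q) (E : Matrix R B ℂ) :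
    Tm E (matG cls inv jj e cc) = fun I => ∏ s, bilc
      (Eᵀ * (Matrix.of fun x y => if cls x = cc s then JJ inv jj x y else 0) * E)
        ![I (e (s, 0)), I (e (s, 1))] := by
  funext I
  rw [Tm_apply]
  have h1 : ∀ X : Fin m × Fin 2 → R,
      matG cls inv jj e cc X * ∏ k, E (X k) (I k) =
      ∏ s, ((if cls (X (e (s, 0))) = cc s then JJ inv jj (X (e (s, 0))) (X (e (s, 1))) else 0) *
        (E (X (e (s, 0))) (I (e (s, 0))) * E (X (e (s, 1))) (I (e (s, 1))))) := by
    intro X
    rw [← Equiv.prod_comp e (fun k => E (X k) (I k)), Fintype.prod_prod_type]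
    simp only [matG, Fin.prod_univ_two]
    rw [← Finset.prod_mul_distrib]
  rw [Finset.sum_congr rfl (fun X _ => h1 X)]
  rw [sum_match e (fun s x y => (if cls x = cc s then JJ inv jj x y else 0) *
        (E x (I (e (s, 0))) * E y (I (e (s, 1)))))]
  refine Finset.prod_congr rfl fun s _ => ?_
  simp only [bilc, Matrix.mul_apply, Matrix.transpose_apply, Matrix.of_apply, Finset.sum_mul,
    Matrix.cons_val_zero, Matrix.cons_val_one]
  rw [Finset.sum_comm]
  refine Finset.sum_congr rfl fun y _ => Finset.sum_congr rfl fun x _ => ?_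
  ring

/-- If the Lie algebra preserves the blocks of a symplectic basis and contains the classical Lie
algebras of the blocks, then the rational forms that it kills are linear combinations of products
over matchings of rational forms in two variables that it kills. -/
theorem mem_MS_of_basis {Om : Matrix B B ℂ} (hsp : ∀ X ∈ lieM D ℂ, Xᵀ * Om + Om * X = 0)
    (hinv : ∀ x, inv (inv x) = x) (hjj : ∀ x, jj (inv x) = -jj x) (hj0 : ∀ x, jj x ≠ 0)
    (hcls : ∀ x y, cls x = cls y → cls (inv x) = cls (inv y))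
    {E : Matrix R B ℂ} {F : Matrix B R ℂ} (hFE : F * E = 1)
    (hJ : ∀ x y, (Fᵀ * Om * F) x y = JJ inv jj x y)
    (hst : ∀ X ∈ lieM D ℂ, ∀ x y, cls x ≠ cls y → (E * X * F) x y = 0)
    (hS : ∀ b d, cls (inv b) = cls d → SS Om (fun i => F i b) (fun i => F i d) ∈ lieM D ℂ)
    {m : ℕ} (c : (Fin m × Fin 2 → B) → ℚ) (hc : IsH D c) : c ∈ MS D m := by
  -- the coefficients in the new basis
  set ce : (Fin m × Fin 2 → R) → ℂ := fun X => evalF (cst ℂ c) (fun k i => F i (X k)) with hce
  have h1 : ∀ (b d : R), cls (inv b) = cls d → ∀ I : Fin m × Fin 2 → R,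
      ∑ l, (JJ inv jj b (I l) * ce (Function.update I l d) +
        JJ inv jj d (I l) * ce (Function.update I l b)) = 0 := by
    intro b d hbd I
    have h2 := lieM_kills D (hS b d hbd) hc
    have h3 := evalF_act (SS Om (fun i => F i b) (fun i => F i d)) (cst ℂ c)
      (fun k i => F i (I k))
    rw [h2, evalF_zero] at h3
    rw [h3]
    refine Finset.sum_congr rfl fun l _ => ?_
    rw [SS_mulVec, evalF_update_add, evalF_update_smul, evalF_update_smul]
    have h4 : ∀ x y : R, (fun i => F i x) ⬝ᵥ (Om *ᵥ fun i => F i y) = JJ inv jj x y := by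
      intro x y
      rw [← hJ x y, Matrix.mul_assoc, Matrix.mul_apply]
      simp only [dotProduct, Matrix.transpose_apply, Matrix.mul_apply, mulVec]
    have h5 : ∀ z : R, Function.update (fun k i => F i (I k)) l (fun i => F i z) =
        fun k i => F i (Function.update I l z k) := by
      intro z
      funext k
      by_cases hk : k = l
      · subst hk
        rw [Function.update_self, Function.update_self]
      · rw [Function.update_of_ne hk, Function.update_of_ne hk]
    rw [h4, h4, h5, h5]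
    simp only [hce]
    ring
  have h2 : ce ∈ MatG cls inv jj (Fin m × Fin 2) m := by
    rw [← sum_typG cls ce]
    refine Submodule.sum_mem _ fun τ _ => ?_
    exact fftG (cls := cls) (inv := inv) (jj := jj) hinv hjj hj0 hcls m (Fin m × Fin 2)
      (by simp [mul_comm]) τ (typG_mem hinv hcls h1 τ)
  have h3 : Tm E ce ∈ (MatG cls inv jj (Fin m × Fin 2) m).map (Tm E) :=
    Submodule.mem_map_of_mem h2
  rw [hce, Tm_coef hFE] at h3
  unfold MatG at h3
  rw [Submodule.map_span] at h3
  rw [MS_eq]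
  refine Pool.Agent.W437.HK.descent (k := ℂ) _ _ ?_
  change cst ℂ c ∈ _
  refine Submodule.span_le.2 ?_ h3
  rintro _ ⟨_, ⟨e, cc, rfl⟩, rfl⟩
  rw [SetLike.mem_coe, Tm_matG]
  refine prod_mem_span e (fun s => bilc
      (Eᵀ * (Matrix.of fun x y => if cls x = cc s then JJ inv jj x y else 0) * E)) fun s => ?_
  refine mem_span_isH fun X hX => ?_
  have hXC : X.map (fun x : ℚ => (x : ℂ)) ∈ lieM D ℂ := cast_mem D hX
  set Y := X.map (fun x : ℚ => (x : ℂ)) with hY
  funext I
  rw [act_bilc, Pi.zero_apply]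
  set Y' := E * Y * F with hY'
  have e1 : E * Y = Y' * E := by
    rw [hY', Matrix.mul_assoc (E * Y), hFE, Matrix.mul_one]
  set G : Matrix R R ℂ := Matrix.of fun x y => if cls x = cc s then JJ inv jj x y else 0 with hG
  have e2 : Y'ᵀ * G + G * Y' = 0 := by
    have hsp' : Y'ᵀ * (Fᵀ * Om * F) + (Fᵀ * Om * F) * Y' = 0 := by
      have a1 : F * Y' = Y * F := by
        rw [hY', ← Matrix.mul_assoc, ← Matrix.mul_assoc, hFE, Matrix.one_mul]
      have a2 : Y'ᵀ * Fᵀ = Fᵀ * Yᵀ := by
        rw [← transpose_mul, a1, transpose_mul]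
      have a3 : Y'ᵀ * (Fᵀ * Om * F) + (Fᵀ * Om * F) * Y' = (Y'ᵀ * Fᵀ) * Om * F +
          Fᵀ * Om * (F * Y') := by
        simp only [Matrix.mul_assoc]
      rw [a3, a2, a1]
      have a4 : Fᵀ * Yᵀ * Om * F + Fᵀ * Om * (Y * F) = Fᵀ * (Yᵀ * Om + Om * Y) * F := by
        simp only [Matrix.mul_add, Matrix.add_mul, Matrix.mul_assoc]
      rw [a4, hsp _ hXC, Matrix.mul_zero, Matrix.zero_mul]
    ext x y
    have a5 := congrFun (congrFun hsp' x) y
    simp only [Matrix.add_apply, Matrix.mul_apply (M := Y'ᵀ), Matrix.mul_apply (N := Y'), hJ,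
      Matrix.zero_apply, Matrix.transpose_apply] at a5
    simp only [Matrix.add_apply, Matrix.mul_apply, Matrix.zero_apply, Matrix.transpose_apply, hG,
      Matrix.of_apply]
    by_cases hx : cls x = cc s
    · have a6 : ∀ z, Y' z x * (if cls z = cc s then JJ inv jj z y else 0) =
          Y' z x * JJ inv jj z y := by
        intro z
        by_cases hz : cls z = cc s
        · rw [if_pos hz]
        · rw [hY', hst _ hXC z x (fun h => hz (h.trans hx)), zero_mul, zero_mul]
      simp only [a6, if_pos hx]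
      exact a5
    · have a6 : ∀ z, Y' z x * (if cls z = cc s then JJ inv jj z y else 0) = 0 := by
        intro z
        by_cases hz : cls z = cc s
        · rw [hY', hst _ hXC z x (fun h => hx (h.symm.trans hz)), zero_mul]
        · rw [if_neg hz, mul_zero]
      simp only [a6, if_neg hx, zero_mul, Finset.sum_const_zero, add_zero]
  have e3 : Yᵀ * (Eᵀ * G * E) + (Eᵀ * G * E) * Y = 0 := by
    have a1 : Yᵀ * Eᵀ = Eᵀ * Y'ᵀ := by
      rw [← transpose_mul, e1, transpose_mul]
    have a2 : Yᵀ * (Eᵀ * G * E) + (Eᵀ * G * E) * Y = (Yᵀ * Eᵀ) * G * E + Eᵀ * G * (E * Y) := by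
      simp only [Matrix.mul_assoc]
    rw [a2, a1, e1]
    have a3 : Eᵀ * Y'ᵀ * G * E + Eᵀ * G * (Y' * E) = Eᵀ * (Y'ᵀ * G + G * Y') * E := by
      simp only [Matrix.mul_add, Matrix.add_mul, Matrix.mul_assoc]
    rw [a3, e2, Matrix.mul_zero, Matrix.zero_mul]
  rw [e3, Matrix.zero_apply]

end basis

end Pool.Agent.W437.HD
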