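import Mathlib
import Pool.Agent.W437.HD.Block

/-!
# Vectors whose squares lie in a Lie subalgebra of the symplectic Lie algebra
-/

set_option linter.unusedSectionVars false

namespace Pool.Agent.W437.HD

open Matrix Pool.Agent.W437.HC

variable {B : Type*} [Fintype B] [DecidableEq B] {Om : Matrix B B ℂ}

/-- The symplectic form. -/
def ww (Om : Matrix B B ℂ) (v w : B → ℂ) : ℂ := v ⬝ᵥ (Om *ᵥ w)

theorem ww_add_left (u v w : B → ℂ) : ww Om (u + v) w = ww Om u w + ww Om v w := by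
  unfold ww
  rw [add_dotProduct]

theorem ww_add_right (u v w : B → ℂ) : ww Om u (v + w) = ww Om u v + ww Om u w := by
  unfold ww
  rw [mulVec_add, dotProduct_add]

theorem ww_smul_left (a : ℂ) (v w : B → ℂ) : ww Om (a • v) w = a * ww Om v w := by
  unfold ww
  rw [smul_dotProduct, smul_eq_mul]

theorem ww_smul_right (a : ℂ) (v w : B → ℂ) : ww Om v (a • w) = a * ww Om v w := by
  unfold ww
  rw [mulVec_smul, dotProduct_smul, smul_eq_mul]

theorem ww_anti (hOm : Omᵀ = -Om) (v w : B → ℂ) : ww Om v w = -ww Om w v := by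
  unfold ww
  rw [dotProduct_mulVec, ← mulVec_transpose, hOm, neg_mulVec, neg_dotProduct, dotProduct_comm]

theorem ww_self (hOm : Omᵀ = -Om) (v : B → ℂ) : ww Om v v = 0 := by
  have h := ww_anti hOm v v
  have h2 : (2 : ℂ) * ww Om v v = 0 := by linear_combination h
  exact (mul_eq_zero.1 h2).resolve_left two_ne_zero

/-- The form as a bilinear map. -/
def wwL (Om : Matrix B B ℂ) : (B → ℂ) →ₗ[ℂ] (B → ℂ) →ₗ[ℂ] ℂ :=
  LinearMap.mk₂ ℂ (ww Om) ww_add_left (fun a v w => ww_smul_left a v w) ww_add_right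
    (fun a v w => ww_smul_right a v w)

theorem wwL_apply (v w : B → ℂ) : wwL Om v w = ww Om v w := rfl

theorem SS_add_left (u v w : B → ℂ) : SS Om (u + v) w = SS Om u w + SS Om v w := by
  unfold SS
  rw [add_vecMulVec, vecMulVec_add, ← add_mul]
  congr 1
  abel

theorem SS_smul_left (a : ℂ) (v w : B → ℂ) : SS Om (a • v) w = a • SS Om v w := by
  unfold SS
  rw [smul_vecMulVec, vecMulVec_smul, ← smul_add, smul_mul_assoc]

theorem SS_comm (v w : B → ℂ) : SS Om v w = SS Om w v := by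
  unfold SS
  rw [add_comm]

theorem SS_add_right (u v w : B → ℂ) : SS Om u (v + w) = SS Om u v + SS Om u w := by
  rw [SS_comm, SS_add_left, SS_comm v, SS_comm w]

theorem SS_smul_right (a : ℂ) (v w : B → ℂ) : SS Om v (a • w) = a • SS Om v w := by
  rw [SS_comm, SS_smul_left, SS_comm]

theorem SS_zero_left (w : B → ℂ) : SS Om 0 w = 0 := by
  have h := SS_smul_left (Om := Om) 0 0 w
  rwa [zero_smul, zero_smul] at h

theorem SS_vec (v w u : B → ℂ) : SS Om v w *ᵥ u = ww Om w u • v + ww Om v u • w :=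
  SS_mulVec Om v w u

theorem SS_bracket {X : Matrix B B ℂ} (hX : Xᵀ * Om + Om * X = 0) (v w : B → ℂ) :
    X * SS Om v w - SS Om v w * X = SS Om (X *ᵥ v) w + SS Om v (X *ᵥ w) := by
  unfold SS
  have h1 : Om * X = -(Xᵀ * Om) := eq_neg_of_add_eq_zero_right hX
  rw [mul_assoc (vecMulVec v w + vecMulVec w v) Om X, h1, ← mul_assoc, mul_neg, ← mul_assoc,
    sub_neg_eq_add, ← add_mul, ← add_mul]
  congr 1
  rw [mul_add, add_mul, mul_vecMulVec, mul_vecMulVec, vecMulVec_mul, vecMulVec_mul,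
    vecMul_transpose, vecMul_transpose]
  abel

section lie

variable {D : Matrix B B ℂ}

/-- The vector `v` is good: its square lies in the Lie algebra, as does the square of a vector
which is not orthogonal to it. -/
def Good (D Om : Matrix B B ℂ) (v : B → ℂ) : Prop :=
  SS Om v v ∈ lieM D ℂ ∧ ∃ w, SS Om w w ∈ lieM D ℂ ∧ ww Om v w ≠ 0

/-- The vectors whose product with `v` is in the Lie algebra. -/
def VV (D Om : Matrix B B ℂ) (v : B → ℂ) : Submodule ℂ (B → ℂ) where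
  carrier := {x | SS Om x v ∈ lieM D ℂ}
  zero_mem' := by
    change SS Om 0 v ∈ lieM D ℂ
    rw [SS_zero_left]
    exact Submodule.zero_mem _
  add_mem' := by
    intro x y hx hy
    change SS Om (x + y) v ∈ lieM D ℂ
    rw [SS_add_left]
    exact Submodule.add_mem _ hx hy
  smul_mem' := by
    intro a x hx
    change SS Om (a • x) v ∈ lieM D ℂ
    rw [SS_smul_left]
    exact Submodule.smul_mem _ _ hx

theorem mem_VV {v x : B → ℂ} : x ∈ VV D Om v ↔ SS Om x v ∈ lieM D ℂ := Iff.rfl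

variable (hOm : Omᵀ = -Om) (hsp : ∀ X ∈ lieM D ℂ, Xᵀ * Om + Om * X = 0)

include hsp in
theorem SS_mem {X : Matrix B B ℂ} (hX : X ∈ lieM D ℂ) {v w : B → ℂ} (h : SS Om v w ∈ lieM D ℂ) :
    SS Om (X *ᵥ v) w + SS Om v (X *ᵥ w) ∈ lieM D ℂ := by
  rw [← SS_bracket (hsp X hX)]
  exact lieM_bracket D hX h

include hsp in
theorem SS_mem_self {X : Matrix B B ℂ} (hX : X ∈ lieM D ℂ) {v : B → ℂ}
    (h : SS Om v v ∈ lieM D ℂ) : SS Om (X *ᵥ v) v ∈ lieM D ℂ := by
  have h1 := SS_mem hsp hX h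
  rw [SS_comm v (X *ᵥ v), ← two_smul ℂ] at h1
  have h2 : (2 : ℂ)⁻¹ • (2 : ℂ) • SS Om (X *ᵥ v) v ∈ lieM D ℂ := Submodule.smul_mem _ _ h1
  rwa [smul_smul, inv_mul_cancel₀ two_ne_zero, one_smul] at h2

theorem mem_of_smul_mem {a : ℂ} (ha : a ≠ 0) {X : Matrix B B ℂ} (h : a • X ∈ lieM D ℂ) :
    X ∈ lieM D ℂ := by
  have h2 : a⁻¹ • a • X ∈ lieM D ℂ := Submodule.smul_mem _ _ h
  rwa [smul_smul, inv_mul_cancel₀ ha, one_smul] at h2

include hsp in
theorem SS_pair {v w : B → ℂ} (hv : SS Om v v ∈ lieM D ℂ) (hw : SS Om w w ∈ lieM D ℂ)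
    (hvw : ww Om v w ≠ 0) : SS Om v w ∈ lieM D ℂ := by
  have h1 := SS_mem_self hsp hv hw
  rw [SS_vec, ← add_smul, SS_smul_left] at h1
  refine mem_of_smul_mem ?_ h1
  intro h
  apply hvw
  have h2 : (2 : ℂ) * ww Om v w = 0 := by linear_combination h
  exact (mul_eq_zero.1 h2).resolve_left two_ne_zero

include hOm hsp in
theorem VV_le {v w : B → ℂ} (hv : SS Om v v ∈ lieM D ℂ) (hw : SS Om w w ∈ lieM D ℂ)
    (hvw : ww Om v w ≠ 0) : VV D Om v ≤ VV D Om w := by
  intro x hx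
  rw [mem_VV] at hx ⊢
  have h1 := SS_mem_self hsp hx hw
  rw [SS_vec, SS_add_left, SS_smul_left, SS_smul_left] at h1
  have h2 : ww Om v w • SS Om x w ∈ lieM D ℂ := by
    have h3 := Submodule.sub_mem _ h1 (Submodule.smul_mem _ (ww Om x w) (SS_pair hsp hv hw hvw))
    rwa [add_sub_cancel_right] at h3
  exact mem_of_smul_mem hvw h2

include hOm hsp in
/-- The products of vectors of `VV v` are in the Lie algebra if `v` is good. -/
theorem VV_pair {v : B → ℂ} (hv : Good D Om v) {x y : B → ℂ} (hx : x ∈ VV D Om v)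
    (hy : y ∈ VV D Om v) : SS Om x y ∈ lieM D ℂ := by
  obtain ⟨hv1, w, hw1, hvw⟩ := hv
  have hxw := VV_le hOm hsp hv1 hw1 hvw hx
  have hyw := VV_le hOm hsp hv1 hw1 hvw hy
  have hp := SS_pair hsp hv1 hw1 hvw
  rw [mem_VV] at hx hy hxw hyw
  have h1 := SS_mem hsp hx hyw
  rw [SS_vec, SS_vec, SS_add_left, SS_add_right, SS_smul_left, SS_smul_left, SS_smul_right,
    SS_smul_right] at h1
  have h2 : ww Om v w • SS Om y x ∈ lieM D ℂ := by
    have h3 := Submodule.sub_mem _ h1 (Submodule.smul_mem _ (ww Om v y) hxw)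
    have h4 := Submodule.sub_mem _ h3 (Submodule.smul_mem _ (ww Om x y) hp)
    have h5 := Submodule.sub_mem _ h4 (Submodule.smul_mem _ (ww Om x w) hy)
    have h6 : ww Om v y • SS Om x w + ww Om x y • SS Om v w +
        (ww Om v w • SS Om y x + ww Om x w • SS Om y v) - ww Om v y • SS Om x w -
        ww Om x y • SS Om v w - ww Om x w • SS Om y v = ww Om v w • SS Om y x := by abel
    rwa [h6] at h5
  rw [SS_comm]
  exact mem_of_smul_mem hvw h2

include hOm hsp in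
theorem VV_stable {v : B → ℂ} (hv : Good D Om v) {X : Matrix B B ℂ} (hX : X ∈ lieM D ℂ)
    {x : B → ℂ} (hx : x ∈ VV D Om v) : X *ᵥ x ∈ VV D Om v := by
  have h1 : X *ᵥ v ∈ VV D Om v := SS_mem_self hsp hX hv.1
  have h2 := VV_pair hOm hsp hv hx h1
  have h3 := SS_mem hsp hX hx
  have h4 := Submodule.sub_mem _ h3 h2
  rwa [add_sub_cancel_right] at h4

theorem self_mem_VV {v : B → ℂ} (hv : Good D Om v) : v ∈ VV D Om v := hv.1

include hOm in
theorem Good.symm' {v w : B → ℂ} (hv : SS Om v v ∈ lieM D ℂ) (hw : SS Om w w ∈ lieM D ℂ)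
    (hvw : ww Om v w ≠ 0) : Good D Om v ∧ Good D Om w := by
  refine ⟨⟨hv, w, hw, hvw⟩, ⟨hw, v, hv, ?_⟩⟩
  rw [ww_anti hOm, neg_ne_zero]
  exact hvw

include hOm hsp in
theorem VV_eq {v x : B → ℂ} (hv : Good D Om v) (hx : x ∈ VV D Om v) (hxg : Good D Om x) :
    VV D Om x = VV D Om v := by
  have h1 : VV D Om v ≤ VV D Om x := fun z hz => VV_pair hOm hsp hv hz hx
  refine le_antisymm ?_ h1
  intro z hz
  exact VV_pair hOm hsp hxg hz (h1 (self_mem_VV hv))

include hOm hsp in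
/-- Two of the spaces are equal or orthogonal. -/
theorem VV_orth {v v' : B → ℂ} (hv : Good D Om v) (hv' : Good D Om v')
    (hne : VV D Om v ≠ VV D Om v') {x y : B → ℂ} (hx : x ∈ VV D Om v) (hy : y ∈ VV D Om v') :
    ww Om x y = 0 := by
  by_contra h
  apply hne
  have hxx := VV_pair hOm hsp hv hx hx
  have hyy := VV_pair hOm hsp hv' hy hy
  obtain ⟨gx, gy⟩ := Good.symm' hOm hxx hyy h
  rw [← VV_eq hOm hsp hv hx gx, ← VV_eq hOm hsp hv' hy gy]
  refine le_antisymm (VV_le hOm hsp hxx hyy h) (VV_le hOm hsp hyy hxx ?_)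
  rw [ww_anti hOm, neg_ne_zero]
  exact h

/-- The sum of the spaces. -/
def UU (D Om : Matrix B B ℂ) : Submodule ℂ (B → ℂ) := ⨆ v : {v // Good D Om v}, VV D Om v.1

include hOm hsp in
theorem UU_stable {X : Matrix B B ℂ} (hX : X ∈ lieM D ℂ) {x : B → ℂ} (hx : x ∈ UU D Om) :
    X *ᵥ x ∈ UU D Om := by
  have h1 : UU D Om ≤ (UU D Om).comap (mulVecLin X) := by
    refine iSup_le fun v y hy => ?_
    rw [Submodule.mem_comap, mulVecLin_apply]
    exact Submodule.mem_iSup_of_mem v (VV_stable hOm hsp v.2 hX hy)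
  exact h1 hx

end lie

end Pool.Agent.W437.HD
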