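import Mathlib
import Pool.Agent.W437.HD.Good
import Pool.Agent.W437.HD.Fixed

/-!
# The sum of the spaces attached to good vectors is rational
-/

set_option linter.unusedSectionVars false

namespace Pool.Agent.W437.HD

open Matrix Pool.Agent.H204R3.CM Pool.Agent.W437.HC

section

variable {B : Type*} [Fintype B] [DecidableEq B] {D : Matrix B B ℂ}

/-- The Lie algebra is stable under rational linear maps of the coefficients. -/
theorem map_mem_C {X : Matrix B B ℂ} (hX : X ∈ lieM D ℂ) (f : ℂ →ₗ[ℚ] ℂ) :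
    X.map f ∈ lieM D ℂ := by
  refine mem_of_map D fun lam => ?_
  have h1 := map_mem D hX (lam.comp f)
  have h2 : (X.map f).map lam = X.map (lam.comp f) := by
    ext i j
    rfl
  rw [h2]
  exact h1

/-- A ring homomorphism as a rational linear map. -/
noncomputable def rl (σ : ℂ →+* ℂ) : ℂ →ₗ[ℚ] ℂ := σ.toRatAlgHom.toLinearMap

theorem rl_apply (σ : ℂ →+* ℂ) (z : ℂ) : rl σ z = σ z := rfl

theorem map_mem_aut {X : Matrix B B ℂ} (hX : X ∈ lieM D ℂ) (σ : ℂ →+* ℂ) :
    X.map σ ∈ lieM D ℂ := map_mem_C hX (rl σ)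

variable {Om : Matrix B B ℂ}

theorem SS_map {σ : ℂ →+* ℂ} (hOm : Om.map σ = Om) (v w : B → ℂ) :
    (SS Om v w).map σ = SS Om (fun i => σ (v i)) (fun i => σ (w i)) := by
  unfold SS
  rw [Matrix.map_mul, hOm]
  congr 1
  ext i j
  simp [vecMulVec_apply]

theorem ww_map {σ : ℂ →+* ℂ} (hOm : Om.map σ = Om) (v w : B → ℂ) :
    σ (ww Om v w) = ww Om (fun i => σ (v i)) (fun i => σ (w i)) := by
  have h1 : ∀ i j, σ (Om i j) = Om i j := fun i j => congrFun (congrFun hOm i) j
  simp [ww, dotProduct, mulVec, map_sum, map_mul, h1]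

theorem Good.map {σ : ℂ →+* ℂ} (hOm : Om.map σ = Om) {v : B → ℂ} (hv : Good D Om v) :
    Good D Om (fun i => σ (v i)) := by
  obtain ⟨h1, w, h2, h3⟩ := hv
  refine ⟨?_, fun i => σ (w i), ?_, ?_⟩
  · rw [← SS_map hOm]
    exact map_mem_aut h1 σ
  · rw [← SS_map hOm]
    exact map_mem_aut h2 σ
  · rw [← ww_map hOm]
    exact fun h => h3 (σ.injective (by rw [h, map_zero]))

theorem UU_map {σ : ℂ →+* ℂ} (hOm : Om.map σ = Om) {x : B → ℂ} (hx : x ∈ UU D Om) :
    (fun i => σ (x i)) ∈ UU D Om := by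
  unfold UU at hx
  induction hx using Submodule.iSup_induction' with
  | mem v x hx =>
    refine Submodule.mem_iSup_of_mem ⟨_, v.2.map hOm⟩ ?_
    rw [mem_VV, ← SS_map hOm]
    exact map_mem_aut hx σ
  | zero =>
    have h1 : (fun i => σ ((0 : B → ℂ) i)) = 0 := by
      funext i
      simp
    rw [h1]
    exact Submodule.zero_mem _
  | add x y _ _ h1 h2 =>
    have h3 : (fun i => σ ((x + y) i)) = (fun i => σ (x i)) + fun i => σ (y i) := by
      funext i
      simp
    rw [h3]
    exact Submodule.add_mem _ h1 h2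

end

variable {g : ℕ} {Z : Matrix (Fin g) (Fin g) ℂ}

/-- The rational homology of the abelian variety with period matrix `(1, Z)`, with its inclusion
into the tangent space `ℂ ^ g`: the pair `(a, b)` goes to `a + Z b`. -/
noncomputable def perOne (Z : Matrix (Fin g) (Fin g) ℂ) : (Fin g ⊕ Fin g → ℚ) →+ (Fin g → ℂ) where
  toFun w := fun i => (w (Sum.inl i) : ℂ) + ∑ k, Z i k * (w (Sum.inr k) : ℂ)
  map_zero' := by
    funext i
    simp
  map_add' v w := by
    funext i
    simp only [Pi.add_apply, Rat.cast_add, mul_add, Finset.sum_add_distrib]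
    ring

/-- The abelian variety `ℂ ^ g / (ℤ ^ g + Z ℤ ^ g)` is simple: the only rational subspaces of the
homology whose real span in the tangent space is a complex subspace are the trivial ones. -/
def IsSimpleAV (Z : Matrix (Fin g) (Fin g) ℂ) : Prop :=
  ∀ U : Submodule ℚ (Fin g ⊕ Fin g → ℚ),
    (∀ x ∈ Submodule.span ℝ (perOne Z '' U), Complex.I • x ∈ Submodule.span ℝ (perOne Z '' U)) →
      U = ⊥ ∨ U = ⊤

theorem perOne_eq (w : Fin g ⊕ Fin g → ℚ) : perOne Z w = perR Z (fun i => ((w i : ℚ) : ℝ)) := by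
  funext i
  simp [perOne, perR]

theorem Om_aut (σ : ℂ →+* ℂ) : (Om g ℂ).map σ = Om g ℂ := by
  ext i j
  rcases i with i | i <;> rcases j with j | j <;>
    simp [Om, Matrix.one_apply, apply_ite]

theorem sp_C (hZ : Zᵀ = Z) : ∀ X ∈ lieM (DZ Z) ℂ, Xᵀ * Om g ℂ + Om g ℂ * X = 0 :=
  fun _ hX => lie_sp hZ hX

/-- If there is a good vector and the abelian variety is simple then the spaces attached to the
good vectors generate the whole space. -/
theorem UU_eq_top (hZ : Zᵀ = Z) (hY : IsUnit (imM Z).det) (hs : IsSimpleAV Z)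
    (hg : ∃ v, Good (DZ Z) (Om g ℂ) v) : UU (DZ Z) (Om g ℂ) = ⊤ := by
  have hOm : (Om g ℂ)ᵀ = -Om g ℂ := Om_transpose ℂ
  have hsp := sp_C hZ
  set U := UU (DZ Z) (Om g ℂ) with hU
  have hrat := span_rational U (fun σ v hv => UU_map (σ := (σ : ℂ →+* ℂ)) (Om_aut _) hv)
  let U0 : Submodule ℚ (Fin g ⊕ Fin g → ℚ) :=
    { carrier := {u | (fun i => ((u i : ℚ) : ℂ)) ∈ U}
      zero_mem' := by
        have h1 : (fun i : Fin g ⊕ Fin g => (((0 : Fin g ⊕ Fin g → ℚ) i : ℚ) : ℂ)) = 0 := by
          funext i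
          simp
        change _ ∈ U
        rw [h1]
        exact Submodule.zero_mem _
      add_mem' := by
        intro u v hu hv
        have h1 : (fun i : Fin g ⊕ Fin g => (((u + v) i : ℚ) : ℂ)) =
            (fun i => ((u i : ℚ) : ℂ)) + fun i => ((v i : ℚ) : ℂ) := by
          funext i
          simp
        change _ ∈ U
        rw [h1]
        exact Submodule.add_mem _ hu hv
      smul_mem' := by
        intro a u hu
        have h1 : (fun i : Fin g ⊕ Fin g => (((a • u) i : ℚ) : ℂ)) =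
            (a : ℂ) • (fun i => ((u i : ℚ) : ℂ)) := by
          funext i
          simp
        change _ ∈ U
        rw [h1]
        exact Submodule.smul_mem _ _ hu }
  have hU0 : ∀ u, u ∈ U0 ↔ (fun i => ((u i : ℚ) : ℂ)) ∈ U := fun u => Iff.rfl
  -- real parts
  have hre : ∀ v ∈ U, ∀ z : ℂ, (fun i => (z * v i).re) ∈ Submodule.span ℝ
      ((fun (u : Fin g ⊕ Fin g → ℚ) i => ((u i : ℚ) : ℝ)) '' (U0 : Set (Fin g ⊕ Fin g → ℚ))) := by
    intro v hv
    rw [hrat] at hv
    induction hv using Submodule.span_induction with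
    | mem w hw =>
      obtain ⟨hw1, u, rfl⟩ := hw
      intro z
      have h1 : (fun i => (z * ((u i : ℚ) : ℂ)).re) = z.re • fun i => ((u i : ℚ) : ℝ) := by
        funext i
        simp
      rw [h1]
      exact Submodule.smul_mem _ _ (Submodule.subset_span ⟨u, hw1, rfl⟩)
    | zero =>
      intro z
      have h1 : (fun i => (z * (0 : Fin g ⊕ Fin g → ℂ) i).re) = 0 := by
        funext i
        simp
      rw [h1]
      exact Submodule.zero_mem _
    | add x y _ _ h1 h2 =>
      intro z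
      have h3 : (fun i => (z * (x + y) i).re) =
          (fun i => (z * x i).re) + fun i => (z * y i).re := by
        funext i
        simp [mul_add]
      rw [h3]
      exact Submodule.add_mem _ (h1 z) (h2 z)
    | smul a x _ h1 =>
      intro z
      have h3 : (fun i => (z * (a • x) i).re) = fun i => ((z * a) * x i).re := by
        funext i
        rw [Pi.smul_apply, smul_eq_mul, mul_assoc]
      rw [h3]
      exact h1 _
  have hcast : ∀ x ∈ Submodule.span ℝ
      ((fun (u : Fin g ⊕ Fin g → ℚ) i => ((u i : ℚ) : ℝ)) '' (U0 : Set (Fin g ⊕ Fin g → ℚ))),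
      (fun i => ((x i : ℝ) : ℂ)) ∈ U := by
    intro x hx
    induction hx using Submodule.span_induction with
    | mem w hw =>
      obtain ⟨u, hu, rfl⟩ := hw
      have h1 : (fun i => (((u i : ℚ) : ℝ) : ℂ)) = fun i => ((u i : ℚ) : ℂ) := by
        funext i
        simp
      rw [h1]
      exact hu
    | zero =>
      have h1 : (fun i => (((0 : Fin g ⊕ Fin g → ℝ) i : ℝ) : ℂ)) = 0 := by
        funext i
        simp
      rw [h1]
      exact Submodule.zero_mem _
    | add x y _ _ h1 h2 =>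
      have h3 : (fun i => (((x + y) i : ℝ) : ℂ)) =
          (fun i => ((x i : ℝ) : ℂ)) + fun i => ((y i : ℝ) : ℂ) := by
        funext i
        simp
      rw [h3]
      exact Submodule.add_mem _ h1 h2
    | smul a x _ h1 =>
      have h3 : (fun i => (((a • x) i : ℝ) : ℂ)) = (a : ℂ) • fun i => ((x i : ℝ) : ℂ) := by
        funext i
        simp
      rw [h3]
      exact Submodule.smul_mem _ _ h1
  have hJ : ∀ x ∈ Submodule.span ℝ
      ((fun (u : Fin g ⊕ Fin g → ℚ) i => ((u i : ℚ) : ℝ)) '' (U0 : Set (Fin g ⊕ Fin g → ℚ))),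
      JR Z *ᵥ x ∈ Submodule.span ℝ
      ((fun (u : Fin g ⊕ Fin g → ℚ) i => ((u i : ℚ) : ℝ)) '' (U0 : Set (Fin g ⊕ Fin g → ℚ))) := by
    intro x hx
    have h1 := UU_stable hOm hsp (D_mem (DZ Z)) (hcast x hx)
    have h2 := hre _ h1 Complex.I
    have h3 : (fun i => (Complex.I * (DZ Z *ᵥ fun i => ((x i : ℝ) : ℂ)) i).re) = JR Z *ᵥ x := by
      have h4 : (DZ Z *ᵥ fun i => ((x i : ℝ) : ℂ)) =
          (-Complex.I) • fun i => (((JR Z *ᵥ x) i : ℝ) : ℂ) := by
        unfold DZ
        rw [smul_mulVec]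
        congr 1
        funext i
        simp [mulVec, dotProduct]
      funext i
      rw [h4, Pi.smul_apply, smul_eq_mul, ← mul_assoc, mul_neg, Complex.I_mul_I, neg_neg, one_mul,
        Complex.ofReal_re]
    rwa [h3] at h2
  have hper : Submodule.span ℝ (perOne Z '' (U0 : Set (Fin g ⊕ Fin g → ℚ))) =
      (Submodule.span ℝ ((fun (u : Fin g ⊕ Fin g → ℚ) i => ((u i : ℚ) : ℝ)) ''
        (U0 : Set (Fin g ⊕ Fin g → ℚ)))).map (perR Z) := by
    rw [Submodule.map_span, ← Set.image_comp]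
    congr 1
  have hI : ∀ x ∈ Submodule.span ℝ (perOne Z '' (U0 : Set (Fin g ⊕ Fin g → ℚ))),
      Complex.I • x ∈ Submodule.span ℝ (perOne Z '' (U0 : Set (Fin g ⊕ Fin g → ℚ))) := by
    intro x hx
    rw [hper] at hx ⊢
    obtain ⟨y, hy, rfl⟩ := hx
    exact ⟨_, hJ y hy, perR_JR Z hY y⟩
  rcases hs U0 hI with h0 | h0
  · exfalso
    obtain ⟨v, hv⟩ := hg
    have hvU : v ∈ U := Submodule.mem_iSup_of_mem (⟨v, hv⟩ : {v // Good (DZ Z) (Om g ℂ) v})
      (self_mem_VV hv)
    have h1 : U = ⊥ := by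
      rw [hrat, Submodule.span_eq_bot]
      rintro _ ⟨hw1, u, rfl⟩
      have h2 : u ∈ U0 := hw1
      rw [h0, Submodule.mem_bot] at h2
      subst h2
      funext i
      simp
    rw [h1, Submodule.mem_bot] at hvU
    obtain ⟨_, w, _, h2⟩ := hv
    apply h2
    rw [hvU]
    exact zero_dotProduct _
  · rw [eq_top_iff]
    intro x _
    have h1 : x = ∑ i, x i • (fun j => (((Pi.single i 1 : Fin g ⊕ Fin g → ℚ) j : ℚ) : ℂ)) := by
      funext j
      rw [Finset.sum_apply, Finset.sum_eq_single j]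
      · simp
      · intro b _ hb
        rw [Pi.smul_apply, Pi.single_eq_of_ne (Ne.symm hb)]
        simp
      · intro h
        exact absurd (Finset.mem_univ _) h
    rw [h1]
    refine Submodule.sum_mem _ fun i _ => Submodule.smul_mem _ _ ?_
    have h2 : (Pi.single i 1 : Fin g ⊕ Fin g → ℚ) ∈ U0 := by
      rw [h0]
      trivial
    exact h2

end Pool.Agent.W437.HD
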