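import Mathlib
import Pool.Agent.W437.HD.Rat
import Pool.Agent.W437.HD.Darboux

/-!
# The decomposition of the homology into symplectic blocks
-/

set_option linter.unusedSectionVars false

namespace Pool.Agent.W437.HD

open Matrix Pool.Agent.H204R3.CM Pool.Agent.H204R3.SP Pool.Agent.H204R3.GP Pool.Agent.H194R3.CM
  Pool.Agent.W437.HC

section Dec

variable {B : Type} [Fintype B] [DecidableEq B] {D Om : Matrix B B ℂ}

/-- If the spaces attached to good vectors generate the whole space then the forms killed by the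
Lie algebra are linear combinations of products of such bilinear forms. -/
theorem mem_MS_of_top (hOm : Omᵀ = -Om) (hOu : IsUnit Om)
    (hsp : ∀ X ∈ lieM D ℂ, Xᵀ * Om + Om * X = 0) (htop : UU D Om = ⊤)
    {m : ℕ} (c : (Fin m × Fin 2 → B) → ℚ) (hc : IsH D c) : c ∈ MS D m := by
  classical
  -- the family of blocks
  let 𝒱 : Set (Submodule ℂ (B → ℂ)) := Set.range (fun v : {v // Good D Om v} => VV D Om v.1)
  let N : 𝒱 → Submodule ℂ (B → ℂ) := Subtype.val
  have hNtop : ⨆ p, N p = ⊤ := by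
    rw [← htop]
    unfold UU
    rw [← sSup_range]
    exact (sSup_eq_iSup' _).symm
  have horth : ∀ p q : 𝒱, p ≠ q → ∀ x ∈ N p, ∀ y ∈ N q, ww Om x y = 0 := by
    rintro ⟨_, ⟨v, rfl⟩⟩ ⟨_, ⟨v', rfl⟩⟩ hne x hx y hy
    refine VV_orth hOm hsp v.2 v'.2 (fun h => hne (Subtype.ext h)) hx hy
  have hnd : ∀ p : 𝒱, ∀ x ∈ N p, (∀ y ∈ N p, ww Om y x = 0) → x = 0 := by
    intro p x hx h
    have h1 : ∀ y : B → ℂ, ww Om y x = 0 := by
      intro y
      have hy : y ∈ ⨆ p, N p := by
        rw [hNtop]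
        trivial
      induction hy using Submodule.iSup_induction' with
      | mem q y hy =>
        by_cases hpq : q = p
        · subst hpq
          exact h y hy
        · exact horth q p hpq y hy x hx
      | zero => exact zero_dotProduct _
      | add y z _ _ h1 h2 => rw [ww_add_left, h1, h2, add_zero]
    have h2 : Om *ᵥ x = 0 := by
      funext i
      have h3 := h1 (Pi.single i 1)
      unfold ww at h3
      rwa [single_one_dotProduct] at h3
    obtain ⟨u, hu⟩ := hOu
    have h3 : ((u⁻¹ : (Matrix B B ℂ)ˣ) : Matrix B B ℂ) *ᵥ (Om *ᵥ x) = x := by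
      rw [← hu, mulVec_mulVec, Units.inv_mul, one_mulVec]
    rw [← h3, h2, mulVec_zero]
  have hindep : iSupIndep N := by
    intro p
    rw [Submodule.disjoint_def]
    intro x hx hx2
    apply hnd p x hx
    intro y hy
    have h1 : (⨆ (q) (_ : q ≠ p), N q) ≤ LinearMap.ker (wwL Om y) := by
      refine iSup_le fun q => iSup_le fun hq => ?_
      intro z hz
      rw [LinearMap.mem_ker, wwL_apply]
      exact horth p q hq.symm y hy z hz
    have h2 := h1 hx2
    rwa [LinearMap.mem_ker, wwL_apply] at h2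
  have hne : ∀ p, N p ≠ ⊥ := by
    rintro ⟨_, ⟨v, rfl⟩⟩ h
    have h1 : v.1 ∈ (⊥ : Submodule ℂ (B → ℂ)) := by
      rw [← h]
      exact self_mem_VV v.2
    rw [Submodule.mem_bot] at h1
    obtain ⟨_, w, _, h2⟩ := v.2
    apply h2
    rw [h1]
    exact zero_dotProduct _
  have hfin : Finite 𝒱 := WellFoundedGT.finite_of_iSupIndep hindep hne
  have : Fintype 𝒱 := Fintype.ofFinite 𝒱
  have hint : DirectSum.IsInternal N :=
    DirectSum.isInternal_submodule_of_iSupIndep_of_iSup_eq_top hindep hNtop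
  -- symplectic bases
  have hD : ∀ p : 𝒱, ∃ (R : Type) (_ : Fintype R) (_ : DecidableEq R)
      (e : Module.Basis R ℂ (N p)) (inv : R → R) (jj : R → ℂ),
      (∀ x, inv (inv x) = x) ∧ (∀ x, inv x ≠ x) ∧ (∀ x, jj (inv x) = -jj x) ∧
      (∀ x, jj x = 1 ∨ jj x = -1) ∧
      ∀ x y, ww Om (e x : B → ℂ) (e y : B → ℂ) = JJ inv jj x y := by
    intro p
    obtain ⟨R, h1, h2, e, inv, jj, h3, h4, h5, h6, h7⟩ := exists_darboux
      (Module.finrank ℂ (N p)) (N p) ((wwL Om).domRestrict₁₂ (N p) (N p))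
      (fun v => ww_self hOm _) (fun u hu => Subtype.ext (hnd p u u.2 fun y hy => hu ⟨y, hy⟩)) le_rfl
    exact ⟨R, h1, h2, e, inv, jj, h3, h4, h5, h6, h7⟩
  choose R hR1 hR2 e inv jj h3 h4 h5 h6 h7 using hD
  let bs : Module.Basis (Σ p, R p) ℂ (B → ℂ) := hint.collectedBasis e
  have hbs : ∀ x, bs x = (e x.1 x.2 : B → ℂ) := fun x => by
    change hint.collectedBasis e x = _
    rw [DirectSum.IsInternal.collectedBasis_coe]
  have hbm : ∀ x, bs x ∈ N x.1 := fun x => by
    rw [hbs]
    exact (e x.1 x.2).2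
  refine mem_MS_of_basis (D := D) (Om := Om) (R := Σ p, R p) (Q := 𝒱) (cls := Sigma.fst)
    (inv := fun x => ⟨x.1, inv x.1 x.2⟩) (jj := fun x => jj x.1 x.2)
    (E := Matrix.of fun r i => bs.repr (Pi.single i 1) r) (F := Matrix.of fun i r => bs r i)
    hsp ?_ ?_ ?_ ?_ ?_ ?_ ?_ ?_ c hc
  · rintro ⟨p, x⟩
    simp only [h3]
  · rintro ⟨p, x⟩
    simp only [h5]
  · rintro ⟨p, x⟩
    rcases h6 p x with h | h
    · simp only [h]
      exact one_ne_zero
    · simp only [h]
      exact neg_ne_zero.2 one_ne_zero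
  · rintro ⟨p, x⟩ ⟨q, y⟩ h
    exact h
  · ext i j
    rw [Matrix.mul_apply, Matrix.one_apply]
    have h1 := congrFun (bs.sum_repr (Pi.single j 1)) i
    rw [Finset.sum_apply] at h1
    rw [Pi.single_apply] at h1
    rw [← h1]
    refine Finset.sum_congr rfl fun r _ => ?_
    rw [Matrix.of_apply, Matrix.of_apply, Pi.smul_apply, smul_eq_mul, mul_comm]
  · intro x y
    have h1 : ((Matrix.of fun (i : B) (r : Σ p, R p) => bs r i)ᵀ * Om *
        (Matrix.of fun (i : B) (r : Σ p, R p) => bs r i)) x y = ww Om (bs x) (bs y) := by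
      rw [Matrix.mul_assoc, Matrix.mul_apply]
      simp only [ww, dotProduct, Matrix.transpose_apply, Matrix.mul_apply, mulVec,
        Matrix.of_apply]
    rw [h1]
    obtain ⟨p, x⟩ := x
    obtain ⟨q, y⟩ := y
    by_cases hpq : p = q
    · subst hpq
      rw [hbs, hbs]
      rw [h7 p x y]
      unfold JJ
      by_cases hy : y = inv p x
      · rw [if_pos hy, if_pos (by rw [hy])]
      · rw [if_neg hy, if_neg]
        intro h
        apply hy
        simpa using h
    · rw [horth p q hpq _ (hbm ⟨p, x⟩) _ (hbm ⟨q, y⟩)]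
      unfold JJ
      rw [if_neg]
      intro h
      apply hpq
      have := congrArg Sigma.fst h
      exact this.symm
  · intro X hX x y hxy
    have h1 : ((Matrix.of fun (r : Σ p, R p) (i : B) => bs.repr (Pi.single i 1) r) * X *
        (Matrix.of fun (i : B) (r : Σ p, R p) => bs r i)) x y = bs.repr (X *ᵥ bs y) x := by
      have h2 : X *ᵥ bs y = ∑ i, (X *ᵥ bs y) i • (Pi.single i 1 : B → ℂ) := by
        funext j
        rw [Finset.sum_apply, Finset.sum_eq_single j]
        · simp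
        · intro b _ hb
          rw [Pi.smul_apply, Pi.single_eq_of_ne (Ne.symm hb), smul_zero]
        · intro h
          exact absurd (Finset.mem_univ _) h
      conv_rhs => rw [h2, map_sum, Finsupp.finsetSum_apply]
      rw [Matrix.mul_assoc, Matrix.mul_apply]
      refine Finset.sum_congr rfl fun i _ => ?_
      rw [map_smul, Finsupp.smul_apply, smul_eq_mul, mul_comm, Matrix.of_apply]
      rfl
    rw [h1]
    have h2 : X *ᵥ bs y ∈ N y.1 := by
      obtain ⟨q, y⟩ := y
      obtain ⟨_, ⟨v, rfl⟩⟩ := q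
      exact VV_stable hOm hsp v.2 hX (hbm ⟨⟨_, ⟨v, rfl⟩⟩, y⟩)
    exact DirectSum.IsInternal.collectedBasis_repr_of_mem_ne hint e (fun h => hxy h.symm) h2
  · rintro x y hxy
    have hx := hbm x
    have hy := hbm y
    have hxy' : x.1 = y.1 := hxy
    rw [← hxy'] at hy
    obtain ⟨⟨_, ⟨v, rfl⟩⟩, x⟩ := x
    exact VV_pair hOm hsp v.2 hx hy

end Dec

variable {g : ℕ} {Z : Matrix (Fin g) (Fin g) ℂ}

/-- If the abelian variety is simple and there is a good vector, then all Hodge classes on all its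
powers are generated by those of degree two. -/
theorem divisorial_of_good (hZ : Zᵀ = Z) (hY : IsUnit (imM Z).det) (hs : IsSimpleAV Z)
    (hg : ∃ v, Good (DZ Z) (Om g ℂ) v) {n m : ℕ}
    (f : (Fin n → Fin g ⊕ Fin g → ℚ) [⋀^Fin m × Fin 2]→ₗ[ℚ] ℚ)
    (hf : IsHodge (perPow Z n) f) : f ∈ divisorial (perPow Z n) m :=
  mem_divisorial_of_MS hY (fun c hc => mem_MS_of_top (Om_transpose ℂ) (Om_unit ℂ) (sp_C hZ)
    (UU_eq_top hZ hY hs hg) c hc) f hf

end Pool.Agent.W437.HD
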