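import Mathlib
import Pool.Agent.W437.HD.Dec

/-!
# Variations of the period matrix
-/

set_option linter.unusedSectionVars false

namespace Pool.Agent.W437.HD

open Matrix Pool.Agent.H204R3.CM Pool.Agent.H194R3.CM Pool.Agent.W437.HC

variable {g : ℕ} {Z : Matrix (Fin g) (Fin g) ℂ}

theorem DZ_sq (hY : IsUnit (imM Z).det) : DZ Z * DZ Z = 1 := by
  have h1 : DZ Z = (-Complex.I) • cm (JR Z) := rfl
  rw [h1, smul_mul_smul_comm, ← cm_mul, JR_sq hY, cm_neg, cm_one]
  rw [show -Complex.I * -Complex.I = -1 by simp]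
  rw [neg_one_smul, neg_neg]

theorem cm_conj {n : Type*} (M : Matrix n n ℝ) : (cm M).map (starRingEnd ℂ) = cm M := by
  ext i j
  simp [cm]

theorem DZ_conj (Z : Matrix (Fin g) (Fin g) ℂ) : (DZ Z).map (starRingEnd ℂ) = -DZ Z := by
  ext i j
  simp [DZ]

/-- The vectors of the eigenspaces of `DZ Z` are not isotropic for the hermitian form. -/
theorem ww_conj_ne_zero (hZ : Zᵀ = Z) (hpos : (imM Z).PosDef) {v : Fin g ⊕ Fin g → ℂ} (hv : v ≠ 0)
    {ε : ℂ} (h : DZ Z *ᵥ v = ε • v) :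
    ww (Om g ℂ) v (fun i => starRingEnd ℂ (v i)) ≠ 0 := by
  set H := Om g ℝ * JR Z with hH
  have hHpos := OmJ_posDef hZ hpos
  have hHs : Hᵀ = H := OmJ_symm hZ
  -- the operator in terms of the real complex structure
  have h1 : cm (JR Z) *ᵥ v = (Complex.I * ε) • v := by
    have h2 : cm (JR Z) = Complex.I • DZ Z := by
      change _ = Complex.I • ((-Complex.I) • cm (JR Z))
      rw [smul_smul, show Complex.I * -Complex.I = 1 by simp, one_smul]
    rw [h2, smul_mulVec, h, smul_smul]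
  have hOm : cm (Om g ℝ) = Om g ℂ := by
    ext i j
    rcases i with i | i <;> rcases j with j | j <;>
      simp [cm, Om, Matrix.one_apply, apply_ite]
  have h2 : cm H *ᵥ v = (Complex.I * ε) • (Om g ℂ *ᵥ v) := by
    rw [hH, cm_mul, ← mulVec_mulVec, h1, mulVec_smul, hOm]
  set vb : Fin g ⊕ Fin g → ℂ := fun i => starRingEnd ℂ (v i) with hvb
  have h3 : vb ⬝ᵥ (cm H *ᵥ v) = (Complex.I * ε) * ww (Om g ℂ) vb v := by
    rw [h2, dotProduct_smul, smul_eq_mul]
    rfl
  -- real and imaginary parts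
  set x : Fin g ⊕ Fin g → ℝ := fun i => (v i).re with hx
  set y : Fin g ⊕ Fin g → ℝ := fun i => (v i).im with hy
  have h4 : (vb ⬝ᵥ (cm H *ᵥ v)).re = x ⬝ᵥ (H *ᵥ x) + y ⬝ᵥ (H *ᵥ y) := by
    simp only [dotProduct, mulVec, Complex.re_sum, Complex.mul_re, Complex.im_sum, Complex.mul_im,
      cm, Matrix.map_apply, Complex.ofReal_re, Complex.ofReal_im, zero_mul, sub_zero, add_zero,
      hvb, Complex.conj_re, Complex.conj_im, hx, hy]
    rw [← Finset.sum_add_distrib]
    refine Finset.sum_congr rfl fun i _ => ?_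
    ring
  intro h5
  have h6 : ww (Om g ℂ) vb v = 0 := by
    rw [ww_anti (Om_transpose ℂ), h5, neg_zero]
  rw [h6, mul_zero] at h3
  rw [h3, Complex.zero_re] at h4
  have hnn : ∀ z : Fin g ⊕ Fin g → ℝ, 0 ≤ z ⬝ᵥ (H *ᵥ z) := by
    intro z
    by_cases hz : z = 0
    · rw [hz]
      simp
    · have := hHpos.dotProduct_mulVec_pos hz
      rw [star_trivial] at this
      exact this.le
  apply hv
  have hx0 : x = 0 := by
    by_contra hne
    have := hHpos.dotProduct_mulVec_pos hne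
    rw [star_trivial] at this
    have h7 := hnn y
    linarith
  have hy0 : y = 0 := by
    by_contra hne
    have := hHpos.dotProduct_mulVec_pos hne
    rw [star_trivial] at this
    have h7 := hnn x
    linarith
  funext i
  apply Complex.ext
  · exact congrFun hx0 i
  · exact congrFun hy0 i

/-- An eigenvector whose square is in the Lie algebra is good. -/
theorem good_of_sq (hZ : Zᵀ = Z) (hpos : (imM Z).PosDef) {v : Fin g ⊕ Fin g → ℂ} (hv : v ≠ 0)
    {ε : ℂ} (h : DZ Z *ᵥ v = ε • v) (h2 : SS (Om g ℂ) v v ∈ lieM (DZ Z) ℂ) :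
    Good (DZ Z) (Om g ℂ) v := by
  refine ⟨h2, fun i => starRingEnd ℂ (v i), ?_, ww_conj_ne_zero hZ hpos hv h⟩
  rw [← SS_map (Om_aut (starRingEnd ℂ))]
  exact map_mem_aut h2 _

/-- The inclusion of the first summand. -/
def r10 (g : ℕ) : Matrix (Fin g ⊕ Fin g) (Fin g) ℂ := fromRows 1 0

/-- The matrix whose columns generate the Lagrangian subspace of a symmetric matrix. -/
def LM (M : Matrix (Fin g) (Fin g) ℂ) : Matrix (Fin g ⊕ Fin g) (Fin g) ℂ := fromRows (-M) 1

/-- The matrix whose columns generate the eigenspace of `DZ Z` for the eigenvalue one. -/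
noncomputable def TT (Z : Matrix (Fin g) (Fin g) ℂ) : Matrix (Fin g ⊕ Fin g) (Fin g) ℂ :=
  (1 + DZ Z) * r10 g

theorem LM_mulVec (M : Matrix (Fin g) (Fin g) ℂ) (b : Fin g → ℂ) : LM M *ᵥ b = vecL M b := by
  unfold LM vecL
  rw [fromRows_mulVec, neg_mulVec, one_mulVec]

theorem mulVec_ext {m n : Type*} [Fintype n] [DecidableEq n] {A A' : Matrix m n ℂ}
    (h : ∀ b, A *ᵥ b = A' *ᵥ b) : A = A' := by
  ext i j
  have h1 := congrFun (h (Pi.single j 1)) i
  rwa [mulVec_single_one, mulVec_single_one] at h1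

theorem DZ_LM (hY : IsUnit (imM Z).det) : DZ Z * LM Z = -LM Z := by
  apply mulVec_ext
  intro b
  rw [← mulVec_mulVec, LM_mulVec, DZ_vecL hY, neg_mulVec, LM_mulVec]

theorem DZ_LM_bar (hY : IsUnit (imM Z).det) :
    DZ Z * LM (Z.map (starRingEnd ℂ)) = LM (Z.map (starRingEnd ℂ)) := by
  apply mulVec_ext
  intro b
  rw [← mulVec_mulVec, LM_mulVec, DZ_vecL_bar hY]

theorem DZ_TT (hY : IsUnit (imM Z).det) : DZ Z * TT Z = TT Z := by
  unfold TT
  rw [← Matrix.mul_assoc, Matrix.mul_add, Matrix.mul_one, DZ_sq hY, add_comm]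

theorem DZ_Om (hZ : Zᵀ = Z) : (DZ Z)ᵀ * Om g ℂ = -(Om g ℂ * DZ Z) :=
  eq_neg_of_add_eq_zero_left (sp_C hZ _ (D_mem _))

theorem TT_Om (hZ : Zᵀ = Z) : (TT Z)ᵀ * Om g ℂ = (r10 g)ᵀ * Om g ℂ * (1 - DZ Z) := by
  unfold TT
  rw [transpose_mul, transpose_add, transpose_one, Matrix.mul_assoc, Matrix.add_mul, DZ_Om hZ,
    Matrix.mul_assoc, Matrix.mul_sub, Matrix.one_mul, Matrix.mul_one, sub_eq_add_neg]

theorem r10_Om : (r10 g)ᵀ * Om g ℂ = fromCols 0 1 := by
  unfold r10 Om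
  rw [transpose_fromRows, fromCols_mul_fromBlocks]
  simp

theorem TT_LM (hZ : Zᵀ = Z) (hY : IsUnit (imM Z).det) : (TT Z)ᵀ * Om g ℂ * LM Z = (2 : ℂ) • 1 := by
  rw [TT_Om hZ, Matrix.mul_assoc, Matrix.sub_mul, Matrix.one_mul, DZ_LM hY, sub_neg_eq_add,
    ← two_smul ℂ (LM Z), Matrix.mul_smul, r10_Om]
  unfold LM
  rw [fromCols_mul_fromRows]
  simp

theorem TT_LM_bar (hZ : Zᵀ = Z) (hY : IsUnit (imM Z).det) :
    (TT Z)ᵀ * Om g ℂ * LM (Z.map (starRingEnd ℂ)) = 0 := by
  rw [TT_Om hZ, Matrix.mul_assoc, Matrix.sub_mul, Matrix.one_mul, DZ_LM_bar hY, sub_self,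
    Matrix.mul_zero]

/-- Two matrices which agree on both eigenspaces are equal. -/
theorem ext_LM (hY : IsUnit (imM Z).det) {A A' : Matrix (Fin g ⊕ Fin g) (Fin g ⊕ Fin g) ℂ}
    (h1 : A * LM Z = A' * LM Z)
    (h2 : A * LM (Z.map (starRingEnd ℂ)) = A' * LM (Z.map (starRingEnd ℂ))) : A = A' := by
  apply mulVec_ext
  intro y
  obtain ⟨b, b', hy⟩ := exists_decomp Z (Z.map (starRingEnd ℂ)) (isUnit_bar_sub hY) y
  rw [hy, mulVec_add, mulVec_add, ← LM_mulVec, ← LM_mulVec, mulVec_mulVec, mulVec_mulVec,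
    mulVec_mulVec, mulVec_mulVec, h1, h2]

/-- The derivative of a product of matrices. -/
theorem map_deriv_mul {l m n : Type*} [Fintype m] (δ : Derivation ℚ ℂ ℂ) (A : Matrix l m ℂ)
    (A' : Matrix m n ℂ) : (A * A').map δ = A.map δ * A' + A * A'.map δ := by
  ext i j
  simp only [Matrix.map_apply, Matrix.mul_apply, Matrix.add_apply, map_sum, Derivation.leibniz,
    smul_eq_mul, ← Finset.sum_add_distrib]
  exact Finset.sum_congr rfl fun k _ => by ring

/-- The element of the Lie algebra attached to a derivation. -/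
theorem deriv_mem (hZ : Zᵀ = Z) (hY : IsUnit (imM Z).det) (δ : Derivation ℚ ℂ ℂ) :
    TT Z * Z.map δ * (TT Z)ᵀ * Om g ℂ ∈ lieM (DZ Z) ℂ := by
  set D := DZ Z with hD
  set E := D.map δ with hE
  have hEm : E ∈ lieM D ℂ := map_mem_C (D_mem D) (δ : ℂ →ₗ[ℚ] ℂ)
  have hDD : D * D = 1 := DZ_sq hY
  have hone : ((1 : Matrix (Fin g ⊕ Fin g) (Fin g ⊕ Fin g) ℂ)).map δ = 0 := by
    ext i j
    rw [Matrix.map_apply, Matrix.one_apply]
    split_ifs
    · rw [Derivation.map_one_eq_zero]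
      rfl
    · rw [map_zero]
      rfl
  have hED : E * D + D * E = 0 := by
    rw [hE, ← map_deriv_mul, hDD, hone]
  have hF : E + D * E ∈ lieM D ℂ := by
    refine Submodule.add_mem _ hEm ?_
    have h1 := lieM_bracket D (D_mem D) hEm
    rw [eq_neg_of_add_eq_zero_left hED, sub_neg_eq_add, ← two_smul ℂ] at h1
    exact mem_of_smul_mem two_ne_zero h1
  -- the derivative of the Lagrangian
  have hLδ : (LM Z).map δ = -(r10 g * Z.map δ) := by
    ext i j
    rcases i with i | i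
    · have h1 : (r10 g * Z.map δ) (Sum.inl i) j = δ (Z i j) := by
        unfold r10
        rw [fromRows_mul, fromRows_apply_inl, Matrix.one_mul, Matrix.map_apply]
      rw [Matrix.neg_apply, h1, Matrix.map_apply]
      unfold LM
      rw [fromRows_apply_inl, Matrix.neg_apply, map_neg]
    · have h1 : (r10 g * Z.map δ) (Sum.inr i) j = 0 := by
        unfold r10
        rw [fromRows_mul, fromRows_apply_inr, Matrix.zero_mul, Matrix.zero_apply]
      rw [Matrix.neg_apply, h1, Matrix.map_apply]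
      unfold LM
      rw [fromRows_apply_inr, Matrix.one_apply, neg_zero]
      split_ifs
      · rw [Derivation.map_one_eq_zero]
      · rw [map_zero]
  have hEL : E * LM Z = TT Z * Z.map δ := by
    have h1 : (DZ Z * LM Z).map δ = (-LM Z).map δ := by rw [DZ_LM hY]
    rw [map_deriv_mul] at h1
    have h2 : (-LM Z).map δ = -(LM Z).map δ := by
      ext i j
      simp
    rw [h2, hLδ, ← hD, ← hE] at h1
    have h3 : E * LM Z = r10 g * Z.map δ + D * (r10 g * Z.map δ) := by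
      rw [Matrix.mul_neg, neg_neg] at h1
      exact sub_eq_iff_eq_add.1 (by rw [sub_eq_add_neg]; exact h1)
    rw [h3]
    unfold TT
    rw [Matrix.mul_assoc, Matrix.add_mul, Matrix.one_mul]
  have hkey : E + D * E = TT Z * Z.map δ * (TT Z)ᵀ * Om g ℂ := by
    refine ext_LM hY ?_ ?_
    · rw [Matrix.mul_assoc _ _ (Om g ℂ), Matrix.mul_assoc _ _ (LM Z), TT_LM hZ hY,
        Matrix.add_mul, Matrix.mul_assoc, hEL, ← Matrix.mul_assoc, DZ_TT hY, Matrix.mul_smul,
        Matrix.mul_one, two_smul]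
    · rw [Matrix.mul_assoc _ _ (Om g ℂ), Matrix.mul_assoc _ _ (LM _), TT_LM_bar hZ hY,
        Matrix.mul_zero]
      have h1 : (E + D * E) * D = -(E + D * E) := by
        have h2 : E * D = -(D * E) := eq_neg_of_add_eq_zero_left hED
        rw [add_mul, mul_assoc, h2, mul_neg, ← mul_assoc, hDD, one_mul]
        abel
      have h2 : (E + D * E) * LM (Z.map (starRingEnd ℂ)) =
          -((E + D * E) * LM (Z.map (starRingEnd ℂ))) := by
        conv_lhs => rw [← DZ_LM_bar hY, ← Matrix.mul_assoc, ← hD, h1, Matrix.neg_mul]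
      have h3 : (2 : ℂ) • ((E + D * E) * LM (Z.map (starRingEnd ℂ))) = 0 := by
        rw [two_smul]
        nth_rewrite 1 [h2]
        rw [neg_add_cancel]
      exact (smul_eq_zero.1 h3).resolve_left two_ne_zero
  rw [← hkey]
  exact hF

theorem TT_vec (n : Fin g → ℂ) : TT Z * vecMulVec n n * (TT Z)ᵀ =
    vecMulVec (TT Z *ᵥ n) (TT Z *ᵥ n) := by
  rw [mul_vecMulVec, vecMulVec_mul, vecMul_transpose]

/-- A symmetric matrix of rank one gives a good vector. -/
theorem good_of_rank_one (hZ : Zᵀ = Z) (hpos : (imM Z).PosDef) {n : Fin g → ℂ} (hn : n ≠ 0)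
    (h : TT Z * vecMulVec n n * (TT Z)ᵀ * Om g ℂ ∈ lieM (DZ Z) ℂ) :
    ∃ v, Good (DZ Z) (Om g ℂ) v := by
  have hY : IsUnit (imM Z).det := hpos.isUnit.map Matrix.detMonoidHom
  refine ⟨TT Z *ᵥ n, good_of_sq (ε := 1) hZ hpos ?_ ?_ ?_⟩
  · intro h0
    apply hn
    have h1 : ((TT Z *ᵥ n) ᵥ* Om g ℂ) ᵥ* LM Z = (2 : ℂ) • n := by
      have h2 : TT Z *ᵥ n = n ᵥ* (TT Z)ᵀ := by
        rw [vecMul_transpose]
      rw [h2, vecMul_vecMul, vecMul_vecMul, ← Matrix.mul_assoc, TT_LM hZ hY, vecMul_smul,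
        vecMul_one]
    rw [h0, zero_vecMul, zero_vecMul] at h1
    have h3 := congrArg (fun w => (2 : ℂ)⁻¹ • w) h1
    simp only [smul_zero, smul_smul, inv_mul_cancel₀ (two_ne_zero' ℂ), one_smul] at h3
    exact h3.symm
  · rw [mulVec_mulVec, DZ_TT hY, one_smul]
  · unfold SS
    rw [← TT_vec, ← two_smul ℂ, Matrix.smul_mul]
    exact Submodule.smul_mem _ _ h

end Pool.Agent.W437.HD
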