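import Mathlib

/-!
# Derivations of the field of complex numbers
-/

set_option linter.unusedSectionVars false

namespace Pool.Agent.W437.HD

open IntermediateField

/-- The ring of dual numbers over the complex numbers. -/
def DN : Type := TrivSqZeroExt ℂ ℂ

noncomputable instance : CommRing DN := inferInstanceAs (CommRing (TrivSqZeroExt ℂ ℂ))

/-- The projection of the dual numbers. -/
noncomputable def fstR : DN →+* ℂ :=
  ((TrivSqZeroExt.fstHom ℂ ℂ ℂ).toRingHom : TrivSqZeroExt ℂ ℂ →+* ℂ)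

theorem fstR_apply (x : DN) : fstR x = TrivSqZeroExt.fst (x : TrivSqZeroExt ℂ ℂ) := rfl

open scoped IntermediateField.algebraAdjoinAdjoin in
theorem smooth_adjoin {ι : Type*} {v : ι → ℂ} (hv : IsTranscendenceBasis ℚ v) :
    Algebra.FormallySmooth (Algebra.adjoin ℚ (Set.range v)) ℂ := by
  have h1 : Algebra.FormallySmooth (Algebra.adjoin ℚ (Set.range v))
      (IntermediateField.adjoin ℚ (Set.range v)) :=
    .of_isLocalization (nonZeroDivisors _)
  have h2 : Algebra.IsAlgebraic (IntermediateField.adjoin ℚ (Set.range v)) ℂ :=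
    hv.isAlgebraic_field
  have h3 : Algebra.FormallyEtale (IntermediateField.adjoin ℚ (Set.range v)) ℂ :=
    Algebra.FormallyEtale.of_isSeparable _ ℂ
  exact .comp _ (IntermediateField.adjoin ℚ (Set.range v)) _

/-- Derivations of the complex numbers with given values on a transcendence basis. -/
theorem exists_derivation_basis {ι : Type*} {v : ι → ℂ} (hv : IsTranscendenceBasis ℚ v)
    (f : ι → ℂ) : ∃ δ : Derivation ℚ ℂ ℂ, ∀ i, δ (v i) = f i := by
  have hsm := smooth_adjoin hv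
  let A := Algebra.adjoin ℚ (Set.range v)
  -- the map to the dual numbers
  let e : MvPolynomial ι ℚ ≃ₐ[ℚ] A := hv.1.aevalEquiv
  let ψ0 : MvPolynomial ι ℚ →+* TrivSqZeroExt ℂ ℂ := (MvPolynomial.eval₂Hom
    (algebraMap ℚ (TrivSqZeroExt ℂ ℂ)) (fun i => TrivSqZeroExt.inl (v i) + TrivSqZeroExt.inr (f i)))
  let ψ : A →+* DN := (ψ0 : MvPolynomial ι ℚ →+* DN).comp (e.symm : A →+* MvPolynomial ι ℚ)
  let _ : Algebra A DN := ψ.toAlgebra
  have hval : ∀ p, ((e p : A) : ℂ) = MvPolynomial.aeval v p := fun p =>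
    hv.1.algebraMap_aevalEquiv p
  have hX : ∀ i, e (MvPolynomial.X i) = ⟨v i, Algebra.subset_adjoin ⟨i, rfl⟩⟩ := by
    intro i
    apply Subtype.ext
    rw [hval, MvPolynomial.aeval_X]
  have hfst : ∀ a : A, fstR (ψ a) = (a : ℂ) := by
    intro a
    obtain ⟨p, rfl⟩ := e.surjective a
    have h0 : ψ (e p) = ψ0 p := by
      change ψ0 (e.symm (e p)) = _
      rw [AlgEquiv.symm_apply_apply]
    rw [h0, hval]
    change TrivSqZeroExt.fst (ψ0 p) = _
    have h1 : ((TrivSqZeroExt.fstHom ℂ ℂ ℂ).toRingHom : TrivSqZeroExt ℂ ℂ →+* ℂ).comp ψ0 =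
        (MvPolynomial.aeval v : MvPolynomial ι ℚ →ₐ[ℚ] ℂ).toRingHom := by
      apply MvPolynomial.ringHom_ext
      · intro r
        simp [ψ0]
      · intro i
        simp [ψ0]
    exact congrArg (fun g => g p) h1
  let g : DN →ₐ[A] ℂ := { fstR with commutes' := fun a => hfst a }
  have hgf : ∀ x : DN, g x = TrivSqZeroExt.fst (x : TrivSqZeroExt ℂ ℂ) := fun x => rfl
  have hg : Function.Surjective g := by
    intro z
    exact ⟨(TrivSqZeroExt.inl z : TrivSqZeroExt ℂ ℂ), hgf _⟩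
  have hker : IsNilpotent (RingHom.ker (g : DN →+* ℂ)) := by
    refine ⟨2, ?_⟩
    rw [pow_two, Submodule.zero_eq_bot, eq_bot_iff]
    rw [Ideal.mul_le]
    intro x hx y hy
    have hx' : TrivSqZeroExt.fst (x : TrivSqZeroExt ℂ ℂ) = 0 := by
      rw [← hgf]
      exact hx
    have hy' : TrivSqZeroExt.fst (y : TrivSqZeroExt ℂ ℂ) = 0 := by
      rw [← hgf]
      exact hy
    change x * y = 0
    apply TrivSqZeroExt.ext
    · change TrivSqZeroExt.fst (x : TrivSqZeroExt ℂ ℂ) * TrivSqZeroExt.fst (y : TrivSqZeroExt ℂ ℂ) = 0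
      rw [hx', zero_mul]
    · change TrivSqZeroExt.fst (x : TrivSqZeroExt ℂ ℂ) • TrivSqZeroExt.snd (y : TrivSqZeroExt ℂ ℂ) +
        MulOpposite.op (TrivSqZeroExt.fst (y : TrivSqZeroExt ℂ ℂ)) •
          TrivSqZeroExt.snd (x : TrivSqZeroExt ℂ ℂ) = 0
      rw [hx', hy']
      simp
  let φ : ℂ →ₐ[A] DN := Algebra.FormallySmooth.liftOfSurjective (AlgHom.id A ℂ) g hg hker
  have hφ : ∀ z, TrivSqZeroExt.fst (φ z : TrivSqZeroExt ℂ ℂ) = z := by
    intro z
    rw [← hgf]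
    exact Algebra.FormallySmooth.liftOfSurjective_apply (AlgHom.id A ℂ) g hg hker z
  have hφv : ∀ i, TrivSqZeroExt.snd (φ (v i) : TrivSqZeroExt ℂ ℂ) = f i := by
    intro i
    have h1 : φ (v i) = ψ ⟨v i, Algebra.subset_adjoin ⟨i, rfl⟩⟩ :=
      φ.commutes ⟨v i, Algebra.subset_adjoin ⟨i, rfl⟩⟩
    rw [h1, ← hX i]
    change TrivSqZeroExt.snd (ψ0 (e.symm (e _))) = _
    rw [AlgEquiv.symm_apply_apply]
    simp [ψ0]
  let δ0 : ℂ →+ ℂ :=
    { toFun := fun z => TrivSqZeroExt.snd (φ z : TrivSqZeroExt ℂ ℂ)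
      map_zero' := by
        rw [map_zero]
        rfl
      map_add' := fun a b => by
        rw [map_add]
        rfl }
  refine ⟨Derivation.mk' δ0.toRatLinearMap fun a b => ?_, fun i => hφv i⟩
  change TrivSqZeroExt.snd (φ (a * b) : TrivSqZeroExt ℂ ℂ) =
    a • TrivSqZeroExt.snd (φ b : TrivSqZeroExt ℂ ℂ) + b • TrivSqZeroExt.snd (φ a : TrivSqZeroExt ℂ ℂ)
  rw [map_mul]
  change TrivSqZeroExt.fst (φ a : TrivSqZeroExt ℂ ℂ) • TrivSqZeroExt.snd (φ b : TrivSqZeroExt ℂ ℂ) +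
    MulOpposite.op (TrivSqZeroExt.fst (φ b : TrivSqZeroExt ℂ ℂ)) •
      TrivSqZeroExt.snd (φ a : TrivSqZeroExt ℂ ℂ) = _
  rw [hφ, hφ, op_smul_eq_smul]

/-- Derivations of the complex numbers with given values on algebraically independent numbers. -/
theorem exists_derivation {ι : Type*} {v : ι → ℂ} (hv : AlgebraicIndependent ℚ v)
    (f : ι → ℂ) : ∃ δ : Derivation ℚ ℂ ℂ, ∀ i, δ (v i) = f i := by
  classical
  obtain ⟨t, ht1, ht2⟩ := exists_isTranscendenceBasis_superset (R := ℚ) (s := Set.range v)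
    hv.coe_range
  obtain ⟨δ, hδ⟩ := exists_derivation_basis ht2
    (fun x => if h : ∃ i, v i = x.1 then f h.choose else 0)
  refine ⟨δ, fun i => ?_⟩
  have h1 := hδ ⟨v i, ht1 ⟨i, rfl⟩⟩
  rw [h1]
  have h2 : ∃ j, v j = v i := ⟨i, rfl⟩
  rw [dif_pos h2]
  congr 1
  exact hv.injective h2.choose_spec

end Pool.Agent.W437.HD
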