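import Mathlib

/-!
# Spaces of symmetric matrices closed under a triple product
-/

set_option linter.unusedSectionVars false

namespace Pool.Agent.W437.HD

open Matrix Module

open scoped ComplexOrder

theorem conjT_symm {n : Type*} {e : Matrix n n ℂ} (h : eᵀ = e) : (eᴴ)ᵀ = eᴴ := by
  ext i j
  rw [transpose_apply, conjTranspose_apply, conjTranspose_apply]
  congr 1
  exact congrFun (congrFun h j) i

variable {n : Type*} [Fintype n] [DecidableEq n]

/-- A matrix with a strictly larger kernel has smaller rank. -/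
theorem rank_lt {A X : Matrix n n ℂ} (h : ∀ w, X *ᵥ w = 0 → A *ᵥ w = 0) {w0 : n → ℂ}
    (h1 : A *ᵥ w0 = 0) (h2 : X *ᵥ w0 ≠ 0) : A.rank < X.rank := by
  have hle : LinearMap.ker (mulVecLin X) < LinearMap.ker (mulVecLin A) := by
    refine lt_of_le_of_ne (fun w hw => ?_) ?_
    · rw [LinearMap.mem_ker, mulVecLin_apply] at hw ⊢
      exact h w hw
    · intro heq
      apply h2
      have h3 : w0 ∈ LinearMap.ker (mulVecLin A) := by
        rw [LinearMap.mem_ker, mulVecLin_apply]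
        exact h1
      rw [← heq, LinearMap.mem_ker, mulVecLin_apply] at h3
      exact h3
  have h3 := Submodule.finrank_lt_finrank_of_lt hle
  have h4 := LinearMap.finrank_range_add_finrank_ker (mulVecLin X)
  have h5 := LinearMap.finrank_range_add_finrank_ker (mulVecLin A)
  unfold Matrix.rank
  omega

/-- The matrices of `W` with range in `U`. -/
def WU (W : Submodule ℂ (Matrix n n ℂ)) (U : Submodule ℂ (n → ℂ)) :
    Submodule ℂ (Matrix n n ℂ) where
  carrier := {X | X ∈ W ∧ ∀ v, X *ᵥ v ∈ U}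
  zero_mem' := ⟨Submodule.zero_mem _, fun v => by rw [zero_mulVec]; exact Submodule.zero_mem _⟩
  add_mem' := fun ha hb => ⟨Submodule.add_mem _ ha.1 hb.1, fun v => by
    rw [add_mulVec]
    exact Submodule.add_mem _ (ha.2 v) (hb.2 v)⟩
  smul_mem' := fun c _ ha => ⟨Submodule.smul_mem _ _ ha.1, fun v => by
    rw [smul_mulVec]
    exact Submodule.smul_mem _ _ (ha.2 v)⟩

variable {W : Submodule ℂ (Matrix n n ℂ)}

theorem mem_WU {U : Submodule ℂ (n → ℂ)} {X : Matrix n n ℂ} :
    X ∈ WU W U ↔ X ∈ W ∧ ∀ v, X *ᵥ v ∈ U := Iff.rfl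

variable (hsym : ∀ X ∈ W, Xᵀ = X)
  (htr : ∀ A ∈ W, ∀ C ∈ W, ∀ E ∈ W, A * Cᴴ * E + E * Cᴴ * A ∈ W)

include htr in
theorem WU_tr {U : Submodule ℂ (n → ℂ)} {A C E : Matrix n n ℂ} (hA : A ∈ WU W U) (hC : C ∈ W)
    (hE : E ∈ WU W U) : A * Cᴴ * E + E * Cᴴ * A ∈ WU W U := by
  refine ⟨htr A hA.1 C hC E hE.1, fun v => ?_⟩
  rw [add_mulVec, mul_assoc, mul_assoc, ← mulVec_mulVec, ← mulVec_mulVec v E]
  exact Submodule.add_mem _ (hA.2 _) (hE.2 _)

include htr in
theorem WU_quad {U : Submodule ℂ (n → ℂ)} {A C : Matrix n n ℂ} (hA : A ∈ WU W U) (hC : C ∈ W) :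
    A * Cᴴ * A ∈ WU W U := by
  have h1 := WU_tr htr hA hC hA
  rw [← two_smul ℂ] at h1
  have h2 := Submodule.smul_mem _ (2 : ℂ)⁻¹ h1
  rwa [smul_smul, inv_mul_cancel₀ two_ne_zero, one_smul] at h2

include htr in
/-- An element of minimal rank can be normalized to a tripotent. -/
theorem exists_tripotent {U : Submodule ℂ (n → ℂ)} (hne : WU W U ≠ ⊥) :
    ∃ e ∈ WU W U, e ≠ 0 ∧ e * eᴴ * e = e ∧ ∀ Y ∈ WU W U, Y.rank < e.rank → Y = 0 := by
  classical
  have hex : ∃ r : ℕ, ∃ X ∈ WU W U, X ≠ 0 ∧ X.rank = r := by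
    obtain ⟨X, hX, hX0⟩ := (Submodule.ne_bot_iff _).1 hne
    exact ⟨_, X, hX, hX0, rfl⟩
  obtain ⟨X, hX, hX0, hXr⟩ := Nat.find_spec hex
  have hmin : ∀ Y ∈ WU W U, Y.rank < X.rank → Y = 0 := by
    intro Y hY hlt
    by_contra hY0
    rw [hXr] at hlt
    exact Nat.find_min hex hlt ⟨Y, hY, hY0, rfl⟩
  -- a positive eigenvalue
  have hT : (X * Xᴴ).PosSemidef := Matrix.posSemidef_self_mul_conjTranspose X
  have hT0 : X * Xᴴ ≠ 0 := fun h => hX0 (Matrix.self_mul_conjTranspose_eq_zero.1 h)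
  obtain ⟨i, hi⟩ : ∃ i, hT.1.eigenvalues i ≠ 0 := by
    by_contra hcon
    push Not at hcon
    exact hT0 (hT.1.eigenvalues_eq_zero_iff.1 (funext hcon))
  set μ : ℝ := hT.1.eigenvalues i with hμ
  have hμ0 : 0 < μ := lt_of_le_of_ne (hT.eigenvalues_nonneg i) (Ne.symm hi)
  set u : n → ℂ := ⇑(hT.1.eigenvectorBasis i) with hu
  have hu0 : u ≠ 0 := by
    intro h
    have h1 := (hT.1.eigenvectorBasis.orthonormal).ne_zero i
    apply h1
    ext j
    exact congrFun h j
  have hTu : (X * Xᴴ) *ᵥ u = (μ : ℂ) • u := by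
    have h1 := hT.1.mulVec_eigenvectorBasis i
    rw [← hu, ← hμ] at h1
    rw [h1]
    rfl
  have hA : X * Xᴴ * X - (μ : ℂ) • X = 0 := by
    apply hmin _ (Submodule.sub_mem _ (WU_quad htr hX hX.1) (Submodule.smul_mem _ _ hX))
    refine rank_lt (fun w hw => ?_) (w0 := Xᴴ *ᵥ u) ?_ ?_
    · rw [sub_mulVec, smul_mulVec, ← mulVec_mulVec, hw, mulVec_zero, smul_zero, sub_zero]
    · rw [sub_mulVec, smul_mulVec, mulVec_mulVec, mulVec_mulVec, mul_assoc (X * Xᴴ),
        ← mulVec_mulVec, hTu, mulVec_smul, hTu, sub_self]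
    · rw [mulVec_mulVec, hTu]
      exact smul_ne_zero (by exact_mod_cast hμ0.ne') hu0
  have hXX : X * Xᴴ * X = (μ : ℂ) • X := sub_eq_zero.1 hA
  set c : ℝ := (Real.sqrt μ)⁻¹ with hc
  have hc0 : c ≠ 0 := inv_ne_zero (Real.sqrt_ne_zero'.2 hμ0)
  have hcμ : c * c * μ = 1 := by
    rw [hc, ← mul_inv, Real.mul_self_sqrt hμ0.le, inv_mul_cancel₀ hμ0.ne']
  refine ⟨(c : ℂ) • X, Submodule.smul_mem _ _ hX, smul_ne_zero (by exact_mod_cast hc0) hX0, ?_, ?_⟩
  · have h1 : star (c : ℂ) = (c : ℂ) := Complex.conj_ofReal c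
    rw [conjTranspose_smul, h1, smul_mul_assoc, mul_smul_comm, mul_smul_comm, smul_mul_assoc,
      smul_mul_assoc, hXX, smul_smul, smul_smul, smul_smul]
    congr 1
    have h2 : ((c * c * μ : ℝ) : ℂ) = 1 := by rw [hcμ]; simp
    push_cast at h2
    linear_combination (c : ℂ) * h2
  · intro Y hY hlt
    apply hmin Y hY
    refine lt_of_lt_of_le hlt ?_
    have h1 : (c : ℂ) • X = ((c : ℂ) • (1 : Matrix n n ℂ)) * X := by
      rw [smul_mul_assoc, one_mul]
    rw [h1]
    exact rank_mul_le_right _ _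

section tripotent

variable {U : Submodule ℂ (n → ℂ)} {e : Matrix n n ℂ} (he : e ∈ WU W U) (he0 : e ≠ 0)
  (hee : e * eᴴ * e = e) (hmin : ∀ Y ∈ WU W U, Y.rank < e.rank → Y = 0)

include hsym he he0 hee hmin in
/-- The Peirce space of a tripotent of minimal rank has dimension one. -/
theorem peirce_two {x : Matrix n n ℂ} (hx : x ∈ WU W U) (hPx : e * eᴴ * x = x) :
    ∃ c : ℂ, x = c • e := by
  have hes : eᵀ = e := hsym e he.1
  have hxs : xᵀ = x := hsym x hx.1
  -- an eigenvector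
  let R : Submodule ℂ (n → ℂ) := LinearMap.range (mulVecLin (e * eᴴ))
  have hR : ∀ v, x *ᵥ v ∈ R := by
    intro v
    refine ⟨x *ᵥ v, ?_⟩
    rw [mulVecLin_apply, mulVec_mulVec, hPx]
  let f : End ℂ R := ((mulVecLin (x * eᴴ)).domRestrict R).codRestrict R (fun v => by
    change (x * eᴴ) *ᵥ (v : n → ℂ) ∈ R
    rw [← mulVec_mulVec]
    exact hR _)
  have hRn : Nontrivial R := by
    rw [Submodule.nontrivial_iff_ne_bot]
    intro h
    apply he0
    have h1 : e * eᴴ = 0 := by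
      ext i j
      have h2 : (e * eᴴ) *ᵥ (Pi.single j 1) ∈ R := ⟨Pi.single j 1, rfl⟩
      rw [h, Submodule.mem_bot, mulVec_single_one] at h2
      exact congrFun h2 i
    rw [← hee, h1, zero_mul]
  obtain ⟨c, hc⟩ := Module.End.exists_eigenvalue f
  obtain ⟨v, hv⟩ := hc.exists_hasEigenvector
  have hv1 : x *ᵥ (eᴴ *ᵥ (v : n → ℂ)) = c • (v : n → ℂ) := by
    have h1 := congrArg (fun w : R => (w : n → ℂ)) hv.apply_eq_smul
    rw [mulVec_mulVec]
    exact h1
  have hv0 : (v : n → ℂ) ≠ 0 := fun h => hv.2 (Subtype.ext h)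
  have hvP : e *ᵥ (eᴴ *ᵥ (v : n → ℂ)) = v := by
    obtain ⟨w, hw⟩ := v.2
    rw [mulVecLin_apply] at hw
    rw [← hw, mulVec_mulVec, mulVec_mulVec, ← mul_assoc, hee]
  refine ⟨c, ?_⟩
  have hxe : x = x * (eᴴ * e) := by
    have h1 : (e * eᴴ)ᵀ = eᴴ * e := by
      rw [transpose_mul, hes, conjT_symm hes]
    have h2 := congrArg transpose hPx
    rw [transpose_mul, hxs, h1] at h2
    exact h2.symm
  have h3 : x - c • e = 0 := by
    apply hmin _ (Submodule.sub_mem _ hx (Submodule.smul_mem _ _ he))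
    refine rank_lt (fun w hw => ?_) (w0 := eᴴ *ᵥ (v : n → ℂ)) ?_ ?_
    · rw [sub_mulVec, smul_mulVec, hw, smul_zero, sub_zero, hxe, ← mulVec_mulVec, ← mulVec_mulVec,
        hw, mulVec_zero, mulVec_zero]
    · rw [sub_mulVec, smul_mulVec, hv1, hvP, sub_self]
    · rw [hvP]
      exact hv0
  exact sub_eq_zero.1 h3

theorem star_mulVec' (hes : eᵀ = e) (u : n → ℂ) : star (e *ᵥ u) = eᴴ *ᵥ star u := by
  rw [star_mulVec, ← mulVec_transpose, conjT_symm hes]

include he0 hee in
/-- There is a nonzero vector which is real for the real structure given by the tripotent. -/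
theorem exists_real (hes : eᵀ = e) : ∃ v : n → ℂ, v ≠ 0 ∧ e *ᵥ v = star v := by
  obtain ⟨u, hu⟩ : ∃ u, e *ᵥ u ≠ 0 := by
    by_contra hcon
    push Not at hcon
    apply he0
    ext i j
    have h1 := congrFun (hcon (Pi.single j 1)) i
    rw [mulVec_single_one] at h1
    exact h1
  have key : ∀ z : ℂ, e *ᵥ ((eᴴ * e) *ᵥ (z • u) + star (e *ᵥ (z • u))) =
      star ((eᴴ * e) *ᵥ (z • u) + star (e *ᵥ (z • u))) := by
    intro z
    have h1 : star ((eᴴ * e) *ᵥ (z • u)) = e *ᵥ star (e *ᵥ (z • u)) := by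
      rw [← mulVec_mulVec, star_mulVec' (conjT_symm hes), conjTranspose_conjTranspose]
    rw [mulVec_add, mulVec_mulVec, ← mul_assoc, hee, star_add, star_star, h1, add_comm]
  by_cases h1 : (eᴴ * e) *ᵥ ((1 : ℂ) • u) + star (e *ᵥ ((1 : ℂ) • u)) = 0
  · refine ⟨_, fun h2 => ?_, key Complex.I⟩
    apply hu
    rw [one_smul] at h1
    rw [mulVec_smul, mulVec_smul, star_smul] at h2
    have h3 : star (e *ᵥ u) = -((eᴴ * e) *ᵥ u) := eq_neg_of_add_eq_zero_right h1
    rw [h3] at h2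
    have h4 : (2 * Complex.I) • ((eᴴ * e) *ᵥ u) = 0 := by
      rw [← h2]
      have h5 : star Complex.I = -Complex.I := Complex.conj_I
      rw [h5, neg_smul, smul_neg, neg_neg, two_mul, add_smul]
    have h6 := (smul_eq_zero.1 h4).resolve_left (by simp)
    rw [h6, neg_zero] at h3
    exact star_eq_zero.1 h3
  · exact ⟨_, h1, key 1⟩

include hsym htr he he0 hee hmin in
/-- The second Peirce space embeds in the orthogonal complement. -/
theorem peirce_one {x : Matrix n n ℂ} (hx : x ∈ WU W U)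
    (h2 : (e * eᴴ) * x * (eᴴ * e) = 0) (h0 : (1 - e * eᴴ) * x * (1 - eᴴ * e) = 0)
    {v : n → ℂ} (hv0 : v ≠ 0) (hv : e *ᵥ v = star v) (hxv : (1 - e * eᴴ) *ᵥ (x *ᵥ v) = 0) :
    x = 0 := by
  have hes : eᵀ = e := hsym e he.1
  have hxs : xᵀ = x := hsym x hx.1
  have hPT : (e * eᴴ)ᵀ = eᴴ * e := by rw [transpose_mul, hes, conjT_symm hes]
  have hPT' : (eᴴ * e)ᵀ = e * eᴴ := by rw [transpose_mul, hes, conjT_symm hes]
  obtain ⟨P, hP⟩ : ∃ P, P = e * eᴴ := ⟨_, rfl⟩
  obtain ⟨P', hP'⟩ : ∃ P', P' = eᴴ * e := ⟨_, rfl⟩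
  rw [← hP] at hPT hPT' h2 h0 hxv
  rw [← hP'] at hPT hPT' h2 h0
  have hPH : Pᴴ = P := by rw [hP, conjTranspose_mul, conjTranspose_conjTranspose]
  have hPH' : P'ᴴ = P' := by rw [hP', conjTranspose_mul, conjTranspose_conjTranspose]
  have hPe : P * e = e := by rw [hP, hee]
  have heP : e * P' = e := by rw [hP', ← mul_assoc, hee]
  have hPP : P * P = P := by
    nth_rewrite 2 [hP]
    rw [← mul_assoc, hPe, ← hP]
  have hPP' : P' * P' = P' := by
    nth_rewrite 1 [hP']
    rw [mul_assoc, heP, ← hP']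
  obtain ⟨y, hy⟩ : ∃ y, y = (1 - P) * x * P' := ⟨_, rfl⟩
  obtain ⟨yT, hyT⟩ : ∃ yT, yT = P * x * (1 - P') := ⟨_, rfl⟩
  have hyyT : yᵀ = yT := by
    rw [hy, hyT, transpose_mul, transpose_mul, transpose_sub, transpose_one, hxs, hPT, hPT',
      mul_assoc]
  have hyv : y *ᵥ v = 0 := by
    have h3 : P' *ᵥ v = v := by
      rw [hP', ← mulVec_mulVec, hv, ← star_mulVec' hes, hv, star_star]
    rw [hy, ← mulVec_mulVec, h3, ← mulVec_mulVec]
    exact hxv
  have hxy : x = y + yT := by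
    have h3 : x = P * x * P' + (1 - P) * x * (1 - P') + (y + yT) := by
      rw [hy, hyT]
      noncomm_ring
    rw [h2, h0, add_zero, zero_add] at h3
    exact h3
  have e1 : yᴴ * e = 0 := by
    have h3 : (1 - P) * e = 0 := by rw [sub_mul, one_mul, hPe, sub_self]
    rw [hy, conjTranspose_mul, conjTranspose_mul, conjTranspose_sub, conjTranspose_one, hPH,
      mul_assoc, mul_assoc, h3, mul_zero, mul_zero]
  have e2 : y * yTᴴ = 0 := by
    have h3 : P' * (1 - P') = 0 := by rw [mul_sub, mul_one, hPP', sub_self]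
    rw [hy, hyT, conjTranspose_mul, conjTranspose_sub, conjTranspose_one, hPH', mul_assoc,
      ← mul_assoc P', h3, zero_mul, mul_zero]
  have e3 : e * yTᴴ = 0 := by
    have h3 : e * (1 - P') = 0 := by rw [mul_sub, mul_one, heP, sub_self]
    rw [hyT, conjTranspose_mul, conjTranspose_sub, conjTranspose_one, hPH', ← mul_assoc, h3,
      zero_mul]
  have e4 : yᴴ * yT = 0 := by
    have h3 : (1 - P) * P = 0 := by rw [sub_mul, one_mul, hPP, sub_self]
    rw [hy, hyT, conjTranspose_mul, conjTranspose_mul, conjTranspose_sub, conjTranspose_one, hPH]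
    have h4 : P'ᴴ * (xᴴ * (1 - P)) * (P * x * (1 - P')) =
        P'ᴴ * xᴴ * ((1 - P) * P) * x * (1 - P') := by noncomm_ring
    rw [h4, h3, mul_zero, zero_mul, zero_mul]
  have hs : x * xᴴ * e + e * xᴴ * x = yT * yTᴴ * e + e * yᴴ * y := by
    have h3 : xᴴ * e = yTᴴ * e := by
      rw [hxy, conjTranspose_add, add_mul, e1, zero_add]
    have h4 : e * xᴴ = e * yᴴ := by
      rw [hxy, conjTranspose_add, mul_add, e3, add_zero]
    have h5 : x * (yTᴴ * e) = yT * yTᴴ * e := by
      nth_rewrite 1 [hxy]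
      rw [add_mul, ← mul_assoc, e2, zero_mul, zero_add, mul_assoc]
    have h6 : (e * yᴴ) * x = e * yᴴ * y := by
      nth_rewrite 1 [hxy]
      rw [mul_add, mul_assoc e yᴴ yT, e4, mul_zero, add_zero]
    rw [mul_assoc, h3, h4, h5, h6]
  have hsW := WU_tr htr hx hx.1 he
  have hPs : e * eᴴ * (x * xᴴ * e + e * xᴴ * x) = x * xᴴ * e + e * xᴴ * x := by
    rw [hs, ← hP, mul_add]
    congr 1
    · rw [hyT, ← mul_assoc, ← mul_assoc, ← mul_assoc, ← mul_assoc, hPP]
    · rw [← mul_assoc, ← mul_assoc, hPe]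
  obtain ⟨μ, hμ⟩ := peirce_two hsym he he0 hee hmin hsW hPs
  have hμ0 : μ = 0 := by
    have h3 := congrArg (fun M => M *ᵥ v) hμ
    simp only [hs] at h3
    have h4 : yTᴴ *ᵥ star v = star (y *ᵥ v) := by
      rw [star_mulVec, ← mulVec_transpose, ← hyyT]
      congr 1
    rw [add_mulVec, ← mulVec_mulVec, ← mulVec_mulVec, ← mulVec_mulVec, hyv, mulVec_zero, add_zero,
      hv, h4, hyv, star_zero, mulVec_zero, smul_mulVec, hv] at h3
    exact (smul_eq_zero.1 h3.symm).resolve_right (star_ne_zero.2 hv0)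
  rw [hμ0, zero_smul, hs] at hμ
  -- positivity
  have h3 : yT * yTᴴ + (y * eᴴ)ᴴ * (y * eᴴ) = 0 := by
    have h4 := congrArg (fun M => M * eᴴ) hμ
    simp only [zero_mul, add_mul] at h4
    have h5 : yTᴴ * e * eᴴ = yTᴴ := by
      have h6 : P * yT = yT := by
        rw [hyT, ← mul_assoc, ← mul_assoc, hPP]
      rw [mul_assoc, ← hP]
      conv_rhs => rw [← h6]
      rw [conjTranspose_mul, hPH]
    rw [conjTranspose_mul, conjTranspose_conjTranspose]
    have h6 : yT * yTᴴ * e * eᴴ = yT * (yTᴴ * e * eᴴ) := by noncomm_ring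
    rw [h6, h5] at h4
    rw [← h4]
    congr 1
    noncomm_ring
  have hA := Matrix.posSemidef_self_mul_conjTranspose yT
  have hC := Matrix.posSemidef_conjTranspose_mul_self (y * eᴴ)
  have h4 := congrArg trace h3
  rw [trace_add, trace_zero] at h4
  have h5 : trace (yT * yTᴴ) = 0 :=
    le_antisymm (by rw [← h4]; exact le_add_of_nonneg_right hC.trace_nonneg) hA.trace_nonneg
  have h6 : yT = 0 := by
    rw [← Matrix.self_mul_conjTranspose_eq_zero]
    exact hA.trace_eq_zero_iff.1 h5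
  have h7 : y = 0 := by
    rw [← transpose_transpose y, hyyT, h6, transpose_zero]
  rw [hxy, h6, h7, add_zero]

end tripotent

/-- A symmetric matrix of rank one is a multiple of a square. -/
theorem exists_sq {e : Matrix n n ℂ} (hes : eᵀ = e) (h : e.rank = 1) :
    ∃ (a : n → ℂ) (c : ℂ), a ≠ 0 ∧ c ≠ 0 ∧ e = c • vecMulVec a a := by
  unfold Matrix.rank at h
  obtain ⟨v, hv0, hv⟩ := finrank_eq_one_iff'.1 h
  have h1 : ∀ j, ∃ b : ℂ, e *ᵥ (Pi.single j 1) = b • (v : n → ℂ) := by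
    intro j
    obtain ⟨b, hb⟩ := hv ⟨e *ᵥ (Pi.single j 1), ⟨Pi.single j 1, rfl⟩⟩
    exact ⟨b, (congrArg Subtype.val hb).symm⟩
  choose b hb using h1
  have hb' : ∀ i j, e i j = b j * (v : n → ℂ) i := by
    intro i j
    have h2 := congrFun (hb j) i
    rwa [mulVec_single_one, Pi.smul_apply, smul_eq_mul] at h2
  have hv0' : (v : n → ℂ) ≠ 0 := fun h => hv0 (Subtype.ext h)
  obtain ⟨i0, hi0⟩ : ∃ i, (v : n → ℂ) i ≠ 0 := by
    by_contra hcon
    push Not at hcon
    exact hv0' (funext hcon)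
  have hs : ∀ i j, e i j = e j i := fun i j => congrFun (congrFun hes j) i
  have h2 : ∀ j, b j = (b i0 / (v : n → ℂ) i0) * (v : n → ℂ) j := by
    intro j
    have h3 := hs i0 j
    rw [hb', hb'] at h3
    field_simp
    linear_combination h3
  have h3 : e = (b i0 / (v : n → ℂ) i0) • vecMulVec (v : n → ℂ) (v : n → ℂ) := by
    ext i j
    rw [hb', h2, Matrix.smul_apply, vecMulVec_apply, smul_eq_mul]
    ring
  refine ⟨v, b i0 / (v : n → ℂ) i0, hv0', fun h4 => ?_, h3⟩
  rw [h4, zero_smul] at h3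
  have h5 : LinearMap.range (mulVecLin e) = ⊥ := by
    rw [h3, eq_bot_iff]
    rintro _ ⟨w, rfl⟩
    rw [mulVecLin_apply, zero_mulVec]
    exact Submodule.zero_mem _
  rw [h5] at h
  simp at h

include hsym htr in
/-- A space of symmetric matrices with range in `U` which is closed under the triple product and
contains no matrix of rank one has dimension at most `(dim U) ^ 2 / 4`. -/
theorem peirce_bound (h1 : ∀ a : n → ℂ, a ≠ 0 → vecMulVec a a ∉ W) (k : ℕ) :
    ∀ U : Submodule ℂ (n → ℂ), finrank ℂ U ≤ k → 4 * finrank ℂ (WU W U) ≤ finrank ℂ U ^ 2 := by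
  induction k with
  | zero =>
    intro U hU
    by_cases hne : WU W U = ⊥
    · rw [hne, finrank_bot]
      simp
    · exfalso
      obtain ⟨X, hX, hX0⟩ := (Submodule.ne_bot_iff _).1 hne
      apply hX0
      have hU0 : U = ⊥ := Submodule.finrank_eq_zero.1 (Nat.le_zero.1 hU)
      ext i j
      have h2 := hX.2 (Pi.single j 1)
      rw [hU0, Submodule.mem_bot, mulVec_single_one] at h2
      exact congrFun h2 i
  | succ k ih =>
    intro U hU
    by_cases hne : WU W U = ⊥
    · rw [hne, finrank_bot]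
      simp
    obtain ⟨e, he, he0, hee, hmin⟩ := exists_tripotent htr hne
    have hes : eᵀ = e := hsym e he.1
    obtain ⟨v, hv0, hv⟩ := exists_real he0 hee hes
    obtain ⟨P, hP⟩ : ∃ P, P = e * eᴴ := ⟨_, rfl⟩
    obtain ⟨P', hP'⟩ : ∃ P', P' = eᴴ * e := ⟨_, rfl⟩
    have hPT : Pᵀ = P' := by rw [hP, hP', transpose_mul, hes, conjT_symm hes]
    have hPT' : P'ᵀ = P := by rw [hP, hP', transpose_mul, hes, conjT_symm hes]
    have hPe : P * e = e := by rw [hP, hee]
    have hPP : P * P = P := by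
      nth_rewrite 2 [hP]
      rw [← mul_assoc, hPe, ← hP]
    have hPP' : P' * P' = P' := by
      rw [← hPT, ← transpose_mul, hPP]
    -- the smaller subspace
    let U' : Submodule ℂ (n → ℂ) := U ⊓ LinearMap.ker (mulVecLin P)
    let Re : Submodule ℂ (n → ℂ) := LinearMap.range (mulVecLin e)
    have hRe : finrank ℂ Re = e.rank := rfl
    have hdis : U' ⊓ Re = ⊥ := by
      rw [eq_bot_iff]
      rintro x ⟨⟨_, hx⟩, ⟨w, hw⟩⟩
      rw [SetLike.mem_coe, LinearMap.mem_ker, mulVecLin_apply] at hx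
      rw [mulVecLin_apply] at hw
      rw [← hw, mulVec_mulVec, hPe, hw] at hx
      exact hx
    have hle : U' ⊔ Re ≤ U := by
      refine sup_le inf_le_left ?_
      rintro _ ⟨w, rfl⟩
      exact he.2 w
    have hfr : finrank ℂ U' + e.rank ≤ finrank ℂ U := by
      have h2 := Submodule.finrank_sup_add_finrank_inf_eq U' Re
      rw [hdis, finrank_bot, add_zero, hRe] at h2
      rw [← h2]
      exact Submodule.finrank_mono hle
    have hr0 : e.rank ≠ 0 := by
      intro h2
      apply he0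
      have h3 : Re = ⊥ := Submodule.finrank_eq_zero.1 (hRe.trans h2)
      ext i j
      have h4 : e *ᵥ (Pi.single j 1) ∈ Re := ⟨Pi.single j 1, rfl⟩
      rw [h3, Submodule.mem_bot, mulVec_single_one] at h4
      exact congrFun h4 i
    have hr1 : e.rank ≠ 1 := by
      intro h2
      obtain ⟨a, c, ha, hc, hea⟩ := exists_sq hes h2
      apply h1 a ha
      have h3 : vecMulVec a a = c⁻¹ • e := by
        rw [hea, smul_smul, inv_mul_cancel₀ hc, one_smul]
      rw [h3]
      exact Submodule.smul_mem _ _ he.1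
    have hIH := ih U' (by omega)
    -- the components
    have hL : ∀ x ∈ WU W U, P * x + x * P' ∈ WU W U := by
      intro x hx
      rw [hP, hP', ← mul_assoc]
      exact WU_tr htr he he.1 hx
    have hx2 : ∀ x ∈ WU W U, P * x * P' ∈ WU W U := by
      intro x hx
      have h2 := Submodule.sub_mem _ (hL _ (hL x hx)) (hL x hx)
      have h3 : P * (P * x + x * P') + (P * x + x * P') * P' - (P * x + x * P') =
          (2 : ℂ) • (P * x * P') := by
        rw [mul_add, add_mul, ← mul_assoc P P, hPP, mul_assoc x P' P', hPP', two_smul,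
          ← mul_assoc P x P']
        abel
      rw [h3] at h2
      have h4 := Submodule.smul_mem _ (2 : ℂ)⁻¹ h2
      rwa [smul_smul, inv_mul_cancel₀ two_ne_zero, one_smul] at h4
    have hx0 : ∀ x ∈ WU W U, (1 - P) * x * (1 - P') ∈ WU W U' := by
      intro x hx
      have h3 : (1 - P) * x * (1 - P') = x - (P * x + x * P') + P * x * P' := by
        noncomm_ring
      have h4 : (1 - P) * x * (1 - P') ∈ WU W U := by
        rw [h3]
        exact Submodule.add_mem _ (Submodule.sub_mem _ hx (hL x hx)) (hx2 x hx)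
      refine ⟨h4.1, fun w => ⟨h4.2 w, ?_⟩⟩
      rw [SetLike.mem_coe, LinearMap.mem_ker, mulVecLin_apply, mulVec_mulVec]
      have h5 : P * ((1 - P) * x * (1 - P')) = 0 := by
        have h6 : P * ((1 - P) * x * (1 - P')) = (P - P * P) * x * (1 - P') := by noncomm_ring
        rw [h6, hPP, sub_self, zero_mul, zero_mul]
      rw [h5, zero_mulVec]
    have hxv : ∀ x ∈ WU W U, (1 - P) *ᵥ (x *ᵥ v) ∈ U' := by
      intro x hx
      refine ⟨?_, ?_⟩
      · rw [sub_mulVec, one_mulVec]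
        refine Submodule.sub_mem _ (hx.2 v) ?_
        rw [hP, ← mulVec_mulVec]
        exact he.2 _
      · rw [SetLike.mem_coe, LinearMap.mem_ker, mulVecLin_apply, mulVec_mulVec, mul_sub, mul_one,
          hPP, sub_self, zero_mulVec]
    let Φ : WU W U →ₗ[ℂ] (WU W U') × (U' × ℂ) :=
      { toFun := fun x => (⟨(1 - P) * x.1 * (1 - P'), hx0 x.1 x.2⟩,
          (⟨(1 - P) *ᵥ (x.1 *ᵥ v), hxv x.1 x.2⟩, v ⬝ᵥ (x.1 *ᵥ v)))
        map_add' := fun x y => by
          refine Prod.ext (Subtype.ext ?_) (Prod.ext (Subtype.ext ?_) ?_)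
          · change (1 - P) * (x.1 + y.1) * (1 - P') =
              (1 - P) * x.1 * (1 - P') + (1 - P) * y.1 * (1 - P')
            rw [mul_add, add_mul]
          · change (1 - P) *ᵥ ((x.1 + y.1) *ᵥ v) =
              (1 - P) *ᵥ (x.1 *ᵥ v) + (1 - P) *ᵥ (y.1 *ᵥ v)
            rw [add_mulVec, mulVec_add]
          · change v ⬝ᵥ ((x.1 + y.1) *ᵥ v) = v ⬝ᵥ (x.1 *ᵥ v) + v ⬝ᵥ (y.1 *ᵥ v)
            rw [add_mulVec, dotProduct_add]
        map_smul' := fun c x => by
          refine Prod.ext (Subtype.ext ?_) (Prod.ext (Subtype.ext ?_) ?_)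
          · change (1 - P) * (c • x.1) * (1 - P') = c • ((1 - P) * x.1 * (1 - P'))
            rw [mul_smul_comm, smul_mul_assoc]
          · change (1 - P) *ᵥ ((c • x.1) *ᵥ v) = c • ((1 - P) *ᵥ (x.1 *ᵥ v))
            rw [smul_mulVec, mulVec_smul]
          · change v ⬝ᵥ ((c • x.1) *ᵥ v) = c • (v ⬝ᵥ (x.1 *ᵥ v))
            rw [smul_mulVec, dotProduct_smul] }
    have hinj : Function.Injective Φ := by
      rw [injective_iff_map_eq_zero]
      rintro ⟨x, hx⟩ hΦ
      have e1 : (1 - P) * x * (1 - P') = 0 := congrArg (fun p => (p.1 : Matrix n n ℂ)) hΦ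
      have e2 : (1 - P) *ᵥ (x *ᵥ v) = 0 := congrArg (fun p => (p.2.1 : n → ℂ)) hΦ
      have e3 : v ⬝ᵥ (x *ᵥ v) = 0 := congrArg (fun p => p.2.2) hΦ
      -- the part in the first Peirce space
      have hz : x - P * x * P' ∈ WU W U := Submodule.sub_mem _ hx (hx2 x hx)
      have h3 : x - P * x * P' = 0 := by
        refine peirce_one hsym htr he he0 hee hmin hz ?_ ?_ hv0 hv ?_
        · rw [← hP, ← hP', mul_sub, sub_mul, sub_eq_zero]
          have h4 : P * (P * x * P') * P' = (P * P) * x * (P' * P') := by noncomm_ring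
          rw [h4, hPP, hPP']
        · rw [← hP, ← hP', mul_sub (1 - P) x, sub_mul _ _ (1 - P'), e1, zero_sub, neg_eq_zero]
          have h4 : (1 - P) * (P * x * P') * (1 - P') = (P - P * P) * x * P' * (1 - P') := by
            noncomm_ring
          rw [h4, hPP, sub_self, zero_mul, zero_mul, zero_mul]
        · rw [← hP, sub_mulVec x, mulVec_sub, e2, zero_sub, neg_eq_zero, mulVec_mulVec]
          have h4 : (1 - P) * (P * x * P') = (P - P * P) * x * P' := by noncomm_ring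
          rw [h4, hPP, sub_self, zero_mul, zero_mul, zero_mulVec]
      have h4 : x = P * x * P' := sub_eq_zero.1 h3
      obtain ⟨c, hc⟩ := peirce_two hsym he he0 hee hmin hx (by
        rw [← hP]
        conv_lhs => rw [h4, ← mul_assoc, ← mul_assoc, hPP]
        exact h4.symm)
      rw [hc, smul_mulVec, hv, dotProduct_smul, smul_eq_mul] at e3
      have h5 : c = 0 := by
        refine (mul_eq_zero.1 e3).resolve_right ?_
        rw [dotProduct_comm, dotProduct_star_self_eq_zero]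
        exact hv0
      apply Subtype.ext
      change x = 0
      rw [hc, h5, zero_smul]
    have h2 := LinearMap.finrank_le_finrank_of_injective hinj
    rw [finrank_prod, finrank_prod, finrank_self] at h2
    have h3 : finrank ℂ U' + 2 ≤ finrank ℂ U := by omega
    have h4 : (finrank ℂ U' + 2) ^ 2 ≤ finrank ℂ U ^ 2 := Nat.pow_le_pow_left h3 2
    calc 4 * finrank ℂ (WU W U) ≤ 4 * (finrank ℂ (WU W U') + (finrank ℂ U' + 1)) := by omega
      _ = 4 * finrank ℂ (WU W U') + 4 * finrank ℂ U' + 4 := by ring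
      _ ≤ finrank ℂ U' ^ 2 + 4 * finrank ℂ U' + 4 := by omega
      _ = (finrank ℂ U' + 2) ^ 2 := by ring
      _ ≤ finrank ℂ U ^ 2 := h4

include hsym htr in
/-- A space of symmetric matrices of size `g` closed under the triple product, of dimension larger
than `g ^ 2 / 4`, contains a matrix of rank one. -/
theorem exists_rank_one (hdim : Fintype.card n ^ 2 < 4 * finrank ℂ W) :
    ∃ a : n → ℂ, a ≠ 0 ∧ vecMulVec a a ∈ W := by
  by_contra hcon
  push Not at hcon
  have h1 := peirce_bound hsym htr hcon (finrank ℂ (⊤ : Submodule ℂ (n → ℂ))) ⊤ le_rfl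
  have h2 : WU W ⊤ = W := by
    ext X
    exact ⟨fun h => h.1, fun h => ⟨h, fun _ => trivial⟩⟩
  rw [h2, finrank_top, finrank_fintype_fun_eq_card] at h1
  omega

end Pool.Agent.W437.HD
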