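import Mathlib
import Pool.Agent.W437.HD.Var
import Pool.Agent.W437.HD.Peirce
import Pool.Agent.W437.HD.Deriv

/-!
# The triple product on the tangent space of the Mumford-Tate domain
-/

set_option linter.unusedSectionVars false

namespace Pool.Agent.W437.HD

open Matrix Module Pool.Agent.H204R3.CM Pool.Agent.H194R3.CM Pool.Agent.W437.HC

variable {g : ℕ} {Z : Matrix (Fin g) (Fin g) ℂ}

/-- The symmetric matrices which give elements of the Lie algebra. -/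
noncomputable def WP (Z : Matrix (Fin g) (Fin g) ℂ) : Submodule ℂ (Matrix (Fin g) (Fin g) ℂ) where
  carrier := {N | Nᵀ = N ∧ TT Z * N * (TT Z)ᵀ * Om g ℂ ∈ lieM (DZ Z) ℂ}
  zero_mem' := by
    refine ⟨transpose_zero, ?_⟩
    rw [Matrix.mul_zero, Matrix.zero_mul, Matrix.zero_mul]
    exact Submodule.zero_mem _
  add_mem' := by
    rintro N N' ⟨h1, h2⟩ ⟨h3, h4⟩
    refine ⟨by rw [transpose_add, h1, h3], ?_⟩
    rw [Matrix.mul_add, Matrix.add_mul, Matrix.add_mul]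
    exact Submodule.add_mem _ h2 h4
  smul_mem' := by
    rintro c N ⟨h1, h2⟩
    refine ⟨by rw [transpose_smul, h1], ?_⟩
    rw [Matrix.mul_smul, Matrix.smul_mul, Matrix.smul_mul]
    exact Submodule.smul_mem _ _ h2

theorem mem_WP {N : Matrix (Fin g) (Fin g) ℂ} :
    N ∈ WP Z ↔ Nᵀ = N ∧ TT Z * N * (TT Z)ᵀ * Om g ℂ ∈ lieM (DZ Z) ℂ := Iff.rfl

/-- The complex conjugate of the matrix of the eigenspace. -/
noncomputable def TB (Z : Matrix (Fin g) (Fin g) ℂ) : Matrix (Fin g ⊕ Fin g) (Fin g) ℂ :=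
  (1 - DZ Z) * r10 g

theorem map_conj_mul {l m n : Type*} [Fintype m] (A : Matrix l m ℂ) (A' : Matrix m n ℂ) :
    (A * A').map (starRingEnd ℂ) = A.map (starRingEnd ℂ) * A'.map (starRingEnd ℂ) :=
  Matrix.map_mul

theorem TT_conj (Z : Matrix (Fin g) (Fin g) ℂ) : (TT Z).map (starRingEnd ℂ) = TB Z := by
  unfold TT TB
  rw [map_conj_mul]
  have h1 : (1 + DZ Z).map (starRingEnd ℂ) = 1 - DZ Z := by
    have h2 := DZ_conj Z
    ext i j
    have h3 := congrFun (congrFun h2 i) j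
    rw [Matrix.map_apply] at h3
    rw [Matrix.map_apply, Matrix.add_apply, map_add, h3, Matrix.sub_apply, Matrix.neg_apply,
      Matrix.one_apply, sub_eq_add_neg]
    congr 1
    split_ifs
    · exact map_one _
    · exact map_zero _
  have h2 : (r10 g).map (starRingEnd ℂ) = r10 g := by
    ext i j
    rcases i with i | i
    · rw [Matrix.map_apply]
      unfold r10
      rw [fromRows_apply_inl, Matrix.one_apply]
      split_ifs
      · exact map_one _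
      · exact map_zero _
    · rw [Matrix.map_apply]
      unfold r10
      rw [fromRows_apply_inr, Matrix.zero_apply]
      exact map_zero _
  rw [h1, h2]

theorem TB_mem {N : Matrix (Fin g) (Fin g) ℂ} (hN : N ∈ WP Z) :
    TB Z * Nᴴ * (TB Z)ᵀ * Om g ℂ ∈ lieM (DZ Z) ℂ := by
  obtain ⟨h1, h2⟩ := hN
  have h3 := map_mem_aut h2 (starRingEnd ℂ)
  rw [map_conj_mul, map_conj_mul, map_conj_mul, TT_conj, Om_aut, transpose_map, TT_conj] at h3
  have h4 : Nᴴ = N.map (starRingEnd ℂ) := by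
    conv_lhs => rw [← h1]
    rw [conjTranspose, transpose_transpose]
    rfl
  rw [h4]
  exact h3

theorem TB_Om (hZ : Zᵀ = Z) : (TB Z)ᵀ * Om g ℂ = (r10 g)ᵀ * Om g ℂ * (1 + DZ Z) := by
  unfold TB
  rw [transpose_mul, transpose_sub, transpose_one, Matrix.mul_assoc, Matrix.sub_mul, DZ_Om hZ,
    Matrix.mul_assoc, Matrix.mul_add, Matrix.one_mul, Matrix.mul_one, sub_neg_eq_add]

theorem TT_TT (hZ : Zᵀ = Z) (hY : IsUnit (imM Z).det) : (TT Z)ᵀ * Om g ℂ * TT Z = 0 := by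
  rw [TT_Om hZ]
  unfold TT
  have h1 : (1 - DZ Z) * (1 + DZ Z) = 0 := by
    have h2 : (1 - DZ Z) * (1 + DZ Z) = 1 - DZ Z * DZ Z := by noncomm_ring
    rw [h2, DZ_sq hY, sub_self]
  rw [Matrix.mul_assoc ((r10 g)ᵀ * Om g ℂ), ← Matrix.mul_assoc (1 - DZ Z), h1, Matrix.zero_mul,
    Matrix.mul_zero]

theorem r10_D : (r10 g)ᵀ * Om g ℂ * (DZ Z * r10 g) = (-Complex.I) • cm (imM Z)⁻¹ := by
  rw [r10_Om]
  unfold r10 DZ JR
  rw [Matrix.smul_mul, Matrix.mul_smul]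
  congr 1
  rw [fromBlocks_map, fromBlocks_mul_fromRows, fromCols_mul_fromRows]
  simp only [Matrix.zero_mul, Matrix.one_mul, Matrix.mul_one, Matrix.mul_zero, add_zero, zero_add]
  rfl

theorem r10_r10 : (r10 g)ᵀ * Om g ℂ * r10 g = 0 := by
  rw [r10_Om]
  unfold r10
  rw [fromCols_mul_fromRows]
  simp

theorem TT_TB (hZ : Zᵀ = Z) (hY : IsUnit (imM Z).det) :
    (TT Z)ᵀ * Om g ℂ * TB Z = (2 * Complex.I) • cm (imM Z)⁻¹ := by
  rw [TT_Om hZ]
  unfold TB
  have h1 : (1 - DZ Z) * (1 - DZ Z) = (2 : ℂ) • (1 - DZ Z) := by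
    have h2 : (1 - DZ Z) * (1 - DZ Z) = 1 - DZ Z - DZ Z + DZ Z * DZ Z := by noncomm_ring
    rw [h2, DZ_sq hY, two_smul]
    abel
  rw [Matrix.mul_assoc ((r10 g)ᵀ * Om g ℂ), ← Matrix.mul_assoc (1 - DZ Z), h1, Matrix.smul_mul,
    Matrix.mul_smul, Matrix.sub_mul, Matrix.one_mul, Matrix.mul_sub, r10_r10, r10_D, zero_sub,
    smul_neg, neg_smul, smul_neg, neg_neg, smul_smul]

theorem TB_TT (hZ : Zᵀ = Z) (hY : IsUnit (imM Z).det) :
    (TB Z)ᵀ * Om g ℂ * TT Z = (-(2 * Complex.I)) • cm (imM Z)⁻¹ := by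
  rw [TB_Om hZ]
  unfold TT
  have h1 : (1 + DZ Z) * (1 + DZ Z) = (2 : ℂ) • (1 + DZ Z) := by
    have h2 : (1 + DZ Z) * (1 + DZ Z) = 1 + DZ Z + DZ Z + DZ Z * DZ Z := by noncomm_ring
    rw [h2, DZ_sq hY, two_smul]
    abel
  rw [Matrix.mul_assoc ((r10 g)ᵀ * Om g ℂ), ← Matrix.mul_assoc (1 + DZ Z), h1, Matrix.smul_mul,
    Matrix.mul_smul, Matrix.add_mul, Matrix.one_mul, Matrix.mul_add, r10_r10, r10_D, zero_add,
    smul_smul, mul_neg]

/-- The triple product. -/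
theorem WP_tr (hZ : Zᵀ = Z) (hY : IsUnit (imM Z).det) {A C E : Matrix (Fin g) (Fin g) ℂ}
    (hA : A ∈ WP Z) (hC : C ∈ WP Z) (hE : E ∈ WP Z) :
    A * cm (imM Z)⁻¹ * Cᴴ * cm (imM Z)⁻¹ * E + E * cm (imM Z)⁻¹ * Cᴴ * cm (imM Z)⁻¹ * A ∈ WP Z := by
  set K := cm (imM Z)⁻¹ with hK
  have hKT : Kᵀ = K := by
    rw [hK]
    unfold cm
    rw [← transpose_map, transpose_nonsing_inv, imM_symm hZ]
  have hCT : (Cᴴ)ᵀ = Cᴴ := conjT_symm hC.1
  refine ⟨?_, ?_⟩
  · rw [transpose_add, transpose_mul, transpose_mul, transpose_mul, transpose_mul, transpose_mul,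
      transpose_mul, transpose_mul, transpose_mul, hKT, hCT, hA.1, hE.1, add_comm]
    simp only [Matrix.mul_assoc]
  · set X := TT Z * A * (TT Z)ᵀ * Om g ℂ with hX
    set X' := TT Z * E * (TT Z)ᵀ * Om g ℂ with hX'
    set Y := TB Z * Cᴴ * (TB Z)ᵀ * Om g ℂ with hY'
    have hXm : X ∈ lieM (DZ Z) ℂ := hA.2
    have hXm' : X' ∈ lieM (DZ Z) ℂ := hE.2
    have hYm : Y ∈ lieM (DZ Z) ℂ := TB_mem hC
    have h1 := lieM_bracket _ (lieM_bracket _ hXm hYm) hXm'
    have hXX : X * X' = 0 := by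
      have h2 : X * X' = TT Z * A * ((TT Z)ᵀ * Om g ℂ * TT Z) * E * (TT Z)ᵀ * Om g ℂ := by
        rw [hX, hX']
        simp only [Matrix.mul_assoc]
      rw [h2, TT_TT hZ hY, Matrix.mul_zero, Matrix.zero_mul, Matrix.zero_mul, Matrix.zero_mul]
    have hXX' : X' * X = 0 := by
      have h2 : X' * X = TT Z * E * ((TT Z)ᵀ * Om g ℂ * TT Z) * A * (TT Z)ᵀ * Om g ℂ := by
        rw [hX, hX']
        simp only [Matrix.mul_assoc]
      rw [h2, TT_TT hZ hY, Matrix.mul_zero, Matrix.zero_mul, Matrix.zero_mul, Matrix.zero_mul]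
    have h2 : (X * Y - Y * X) * X' - X' * (X * Y - Y * X) =
        X * Y * X' + X' * Y * X - Y * (X * X') - (X' * X) * Y := by noncomm_ring
    rw [h2, hXX, hXX', mul_zero, zero_mul, sub_zero, sub_zero] at h1
    have h3 : ∀ A E : Matrix (Fin g) (Fin g) ℂ,
        TT Z * A * (TT Z)ᵀ * Om g ℂ * Y * (TT Z * E * (TT Z)ᵀ * Om g ℂ) =
        (4 : ℂ) • (TT Z * (A * K * Cᴴ * K * E) * (TT Z)ᵀ * Om g ℂ) := by
      intro A E
      have h4 : TT Z * A * (TT Z)ᵀ * Om g ℂ * Y * (TT Z * E * (TT Z)ᵀ * Om g ℂ) =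
          TT Z * A * ((TT Z)ᵀ * Om g ℂ * TB Z) * Cᴴ * ((TB Z)ᵀ * Om g ℂ * TT Z) * E *
            (TT Z)ᵀ * Om g ℂ := by
        rw [hY']
        simp only [Matrix.mul_assoc]
      rw [h4, TT_TB hZ hY, TB_TT hZ hY, ← hK]
      simp only [Matrix.mul_smul, Matrix.smul_mul, smul_smul]
      have h5 : -(2 * Complex.I) * (2 * Complex.I) = 4 := by
        linear_combination (-4 : ℂ) * Complex.I_mul_I
      rw [h5]
      simp only [Matrix.mul_assoc]
    rw [h3 A E, h3 E A, ← smul_add, ← Matrix.add_mul, ← Matrix.add_mul, ← Matrix.mul_add] at h1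
    exact mem_of_smul_mem (by norm_num) h1

/-- If the space of symmetric matrices has dimension larger than `g ^ 2 / 4` then there is a good
vector. -/
theorem good_of_dim (hZ : Zᵀ = Z) (hpos : (imM Z).PosDef)
    (hdim : g ^ 2 < 4 * finrank ℂ (WP Z)) : ∃ v, Good (DZ Z) (Om g ℂ) v := by
  have hY : IsUnit (imM Z).det := hpos.isUnit.map Matrix.detMonoidHom
  obtain ⟨y, hy, hyy⟩ := exists_sqrt hpos.inv
  rw [star_eq_conjTranspose, conjTranspose_eq_transpose_of_trivial] at hyy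
  obtain ⟨yi, hyyi⟩ : ∃ yi, y * yi = 1 := hy.exists_right_inv
  have hyiy : yi * y = 1 := mul_eq_one_comm.1 hyyi
  set c := cm y with hc
  set ci := cm yi with hci
  have hcic : ci * c = 1 := by rw [hc, hci, ← cm_mul, hyiy, cm_one]
  have hcci : c * ci = 1 := by rw [hc, hci, ← cm_mul, hyyi, cm_one]
  have hcT : cᵀ * ciᵀ = 1 := by rw [← transpose_mul, hcic, transpose_one]
  have hcH : cᴴ = cᵀ := by
    ext i j
    simp [hc, cm]
  have hcTH : (cᵀ)ᴴ = c := by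
    ext i j
    simp [hc, cm]
  have hK : cm (imM Z)⁻¹ = cᵀ * c := by
    have h1 : cm yᵀ = cᵀ := by
      rw [hc]
      unfold cm
      rw [transpose_map]
    rw [hyy, cm_mul, h1]
  let φ : Matrix (Fin g) (Fin g) ℂ →ₗ[ℂ] Matrix (Fin g) (Fin g) ℂ :=
    { toFun := fun N => c * N * cᵀ
      map_add' := fun N N' => by rw [mul_add, add_mul]
      map_smul' := fun a N => by
        rw [mul_smul_comm, smul_mul_assoc]
        rfl }
  have hφ : ∀ N, φ N = c * N * cᵀ := fun N => rfl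
  have hinj : Function.Injective φ := by
    intro N N' h
    have h1 : ∀ N : Matrix (Fin g) (Fin g) ℂ, ci * φ N * ciᵀ = N := by
      intro N
      have h2 : ci * φ N * ciᵀ = (ci * c) * N * (cᵀ * ciᵀ) := by
        rw [hφ]
        simp only [mul_assoc]
      rw [h2, hcic, hcT, one_mul, mul_one]
    rw [← h1 N, h, h1 N']
  let W := (WP Z).map φ
  have hfr : finrank ℂ W = finrank ℂ (WP Z) :=
    (LinearEquiv.finrank_eq (Submodule.equivMapOfInjective φ hinj (WP Z))).symm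
  have hsym : ∀ X ∈ W, Xᵀ = X := by
    rintro _ ⟨N, hN, rfl⟩
    rw [hφ, transpose_mul, transpose_mul, transpose_transpose, hN.1, mul_assoc]
  have htr : ∀ A ∈ W, ∀ C ∈ W, ∀ E ∈ W, A * Cᴴ * E + E * Cᴴ * A ∈ W := by
    rintro _ ⟨A, hA, rfl⟩ _ ⟨C, hC, rfl⟩ _ ⟨E, hE, rfl⟩
    refine ⟨_, WP_tr hZ hY hA hC hE, ?_⟩
    have h1 : ∀ A E : Matrix (Fin g) (Fin g) ℂ,
        φ A * (φ C)ᴴ * φ E = φ (A * cm (imM Z)⁻¹ * Cᴴ * cm (imM Z)⁻¹ * E) := by
      intro A E
      rw [hφ, hφ, hφ, hφ, conjTranspose_mul, conjTranspose_mul, hcH, hcTH, hK]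
      simp only [mul_assoc]
    rw [h1, h1, map_add]
  obtain ⟨a, ha, ⟨N, hN, hNa⟩⟩ := exists_rank_one hsym htr (by
    rw [hfr, Fintype.card_fin]
    exact hdim)
  have hN2 : N = vecMulVec (ci *ᵥ a) (ci *ᵥ a) := by
    have h1 : N = ci * (c * N * cᵀ) * ciᵀ := by
      have h2 : ci * (c * N * cᵀ) * ciᵀ = (ci * c) * N * (cᵀ * ciᵀ) := by
        simp only [mul_assoc]
      rw [h2, hcic, hcT, one_mul, mul_one]
    rw [hφ] at hNa
    rw [h1, hNa, mul_vecMulVec, vecMulVec_mul, vecMul_transpose]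
  refine good_of_rank_one hZ hpos (n := ci *ᵥ a) ?_ ?_
  · intro h
    apply ha
    have h1 : c *ᵥ (ci *ᵥ a) = a := by rw [mulVec_mulVec, hcci, one_mulVec]
    rw [← h1, h, mulVec_zero]
  · rw [← hN2]
    exact hN.2

/-- Algebraically independent entries bound the dimension from below. -/
theorem card_le_finrank (hZ : Zᵀ = Z) (hY : IsUnit (imM Z).det) (s : Finset (Fin g × Fin g))
    (hs : AlgebraicIndependent ℚ (fun p : s => Z p.1.1 p.1.2)) : s.card ≤ finrank ℂ (WP Z) := by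
  let ev : WP Z →ₗ[ℂ] (s → ℂ) :=
    { toFun := fun N p => N.1 p.1.1 p.1.2
      map_add' := fun _ _ => rfl
      map_smul' := fun _ _ => rfl }
  have h1 : LinearMap.range ev = ⊤ := by
    rw [LinearMap.range_eq_top]
    intro f
    obtain ⟨δ, hδ⟩ := exists_derivation hs f
    refine ⟨⟨Z.map δ, ?_, deriv_mem hZ hY δ⟩, ?_⟩
    · rw [← transpose_map, hZ]
    · funext p
      exact hδ p
  have h2 := LinearMap.finrank_range_le ev
  rw [h1, finrank_top, finrank_fintype_fun_eq_card, Fintype.card_coe] at h2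
  exact h2

end Pool.Agent.W437.HD
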