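import Mathlib
import Pool.Agent.W437.HD.Good

/-!
# Two involutions in a Lie subalgebra of the symplectic Lie algebra
-/

set_option linter.unusedSectionVars false

namespace Pool.Agent.W437.HD

open Matrix Module Polynomial Pool.Agent.W437.HC

variable {B : Type*} [Fintype B] [DecidableEq B] {D Om : Matrix B B ℂ}

section inv

variable {P Q : Matrix B B ℂ} (hP : P * P = 1) (hQ : Q * Q = 1)

include hP in
theorem comm_T : (P * Q + Q * P) * P = P * (P * Q + Q * P) := by
  rw [add_mul, mul_add, mul_assoc Q P P, hP, mul_one, ← mul_assoc P P Q, hP, one_mul, add_comm,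
    mul_assoc]

theorem pow_comm {T : Matrix B B ℂ} (h : T * P = P * T) (k : ℕ) : T ^ k * P = P * T ^ k :=
  (show Commute T P from h).pow_left k

include hP in
theorem double_bracket {T : Matrix B B ℂ} (hT : T = P * Q + Q * P) (hTP : T * P = P * T)
    (k : ℕ) :
    P * (P * (T ^ k * Q) - (T ^ k * Q) * P) - (P * (T ^ k * Q) - (T ^ k * Q) * P) * P =
      (4 : ℂ) • (T ^ k * Q) - (2 : ℂ) • (T ^ (k + 1) * P) := by
  have h1 := pow_comm hTP k
  have h2 : P * Q = T - Q * P := by
    rw [hT]
    abel
  have e1 : P * (P * (T ^ k * Q)) = T ^ k * Q := by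
    rw [← mul_assoc, hP, one_mul]
  have e2 : P * (T ^ k * Q * P) = T ^ (k + 1) * P - T ^ k * Q := by
    have h3 : P * (T ^ k * Q * P) = (P * T ^ k) * Q * P := by simp only [mul_assoc]
    rw [h3, ← h1, mul_assoc (T ^ k) P Q, h2, mul_sub, sub_mul, ← pow_succ, mul_assoc (T ^ k) (Q * P),
      mul_assoc Q P P, hP, mul_one]
  have e3 : T ^ k * Q * P * P = T ^ k * Q := by
    rw [mul_assoc (T ^ k * Q), hP, mul_one]
  rw [mul_sub, sub_mul, e1, e2, mul_assoc P (T ^ k * Q) P, e2, e3]
  module

end inv

variable {P Q : Matrix B B ℂ} (hP : P * P = 1) (hQ : Q * Q = 1)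
  (hPm : P ∈ lieM D ℂ) (hQm : Q ∈ lieM D ℂ)

include hP hQ hPm hQm in
theorem pow_mem (k : ℕ) : (P * Q + Q * P) ^ k * P ∈ lieM D ℂ ∧
    (P * Q + Q * P) ^ k * Q ∈ lieM D ℂ := by
  have hTP : (P * Q + Q * P) * P = P * (P * Q + Q * P) := comm_T hP
  have hTQ : (P * Q + Q * P) * Q = Q * (P * Q + Q * P) := by
    rw [add_comm (P * Q)]
    exact comm_T hQ
  induction k with
  | zero =>
    rw [pow_zero, one_mul, one_mul]
    exact ⟨hPm, hQm⟩
  | succ k ih =>
    constructor
    · have h1 := lieM_bracket D hPm (lieM_bracket D hPm ih.2)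
      rw [double_bracket hP rfl hTP] at h1
      have h2 := Submodule.sub_mem _ (Submodule.smul_mem _ (4 : ℂ) ih.2) h1
      rw [sub_sub_cancel] at h2
      exact mem_of_smul_mem two_ne_zero h2
    · have h1 := lieM_bracket D hQm (lieM_bracket D hQm ih.1)
      rw [double_bracket hQ (add_comm _ _) hTQ] at h1
      have h2 := Submodule.sub_mem _ (Submodule.smul_mem _ (4 : ℂ) ih.1) h1
      rw [sub_sub_cancel] at h2
      exact mem_of_smul_mem two_ne_zero h2

include hP hQ hPm hQm in
theorem poly_mem (q : ℂ[X]) : aeval (P * Q + Q * P) q * P ∈ lieM D ℂ := by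
  induction q using Polynomial.induction_on' with
  | add p q h1 h2 =>
    rw [map_add, add_mul]
    exact Submodule.add_mem _ h1 h2
  | monomial k a =>
    rw [aeval_monomial, Algebra.algebraMap_eq_smul_one, smul_mul_assoc, one_mul, smul_mul_assoc]
    exact Submodule.smul_mem _ _ (pow_mem hP hQ hPm hQm k).1

/-- The projection onto a generalized eigenspace is a polynomial in the matrix. -/
theorem exists_proj (T : Matrix B B ℂ) (lam : ℂ) {k : ℕ}
    (hk : T.charpoly.rootMultiplicity lam = k) :
    ∃ q : ℂ[X], IsIdempotentElem (aeval T q) ∧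
      finrank ℂ (LinearMap.range (mulVecLin (aeval T q))) = k := by
  have hp0 : T.charpoly ≠ 0 := T.charpoly_monic.ne_zero
  obtain ⟨r, hr, hnd⟩ := exists_eq_pow_rootMultiplicity_mul_and_not_dvd T.charpoly hp0 lam
  rw [hk] at hr
  have hcop : ∀ j : ℕ, IsCoprime ((X - C lam) ^ j) r := fun j =>
    ((irreducible_X_sub_C lam).coprime_iff_not_dvd.2 hnd).pow_left
  obtain ⟨a, b, hab⟩ := hcop k
  have hCH : aeval T ((X - C lam) ^ k) * aeval T r = 0 := by
    rw [← map_mul, ← hr]
    exact T.aeval_self_charpoly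
  have hCH' : aeval T r * aeval T ((X - C lam) ^ k) = 0 := by
    rw [← map_mul, mul_comm, ← hr]
    exact T.aeval_self_charpoly
  have hone : aeval T a * aeval T ((X - C lam) ^ k) + aeval T b * aeval T r = 1 := by
    rw [← map_mul, ← map_mul, ← map_add, hab, map_one]
  have hcomm : ∀ p q : ℂ[X], aeval T p * aeval T q = aeval T q * aeval T p := by
    intro p q
    rw [← map_mul, mul_comm, map_mul]
  have hid : IsIdempotentElem (aeval T (b * r)) := by
    unfold IsIdempotentElem
    have h1 : aeval T (b * r) * (aeval T a * aeval T ((X - C lam) ^ k)) = 0 := by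
      rw [map_mul, mul_assoc, ← mul_assoc (aeval T r), hcomm r a, mul_assoc (aeval T a), hCH',
        mul_zero, mul_zero]
    have h2 : aeval T (b * r) * (aeval T a * aeval T ((X - C lam) ^ k) + aeval T b * aeval T r) =
        aeval T (b * r) := by rw [hone, mul_one]
    rw [mul_add, h1, zero_add, ← map_mul] at h2
    rw [← map_mul]
    rw [← map_mul] at h2
    exact h2
  refine ⟨b * r, hid, ?_⟩
  have hrange : LinearMap.range (mulVecLin (aeval T (b * r))) =
      (Module.End.maxGenEigenspace (Matrix.toLin' T) lam) := by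
    have hpowl : ∀ j : ℕ, ∀ x, ((Matrix.toLin' T - lam • (1 : Module.End ℂ (B → ℂ))) ^ j) x =
        aeval T ((X - C lam) ^ j) *ᵥ x := by
      intro j
      induction j with
      | zero =>
        intro x
        rw [pow_zero, pow_zero, map_one, one_mulVec]
        rfl
      | succ j ih =>
        intro x
        rw [pow_succ, Module.End.mul_apply, ih, pow_succ, map_mul, ← mulVec_mulVec]
        congr 1
        rw [map_sub, aeval_X, aeval_C, sub_mulVec, LinearMap.sub_apply, toLin'_apply]
        congr 1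
        rw [Algebra.algebraMap_eq_smul_one, smul_mulVec, one_mulVec]
        rfl
    ext x
    rw [Module.End.mem_maxGenEigenspace]
    constructor
    · rintro ⟨y, rfl⟩
      refine ⟨k, ?_⟩
      rw [hpowl, mulVecLin_apply, mulVec_mulVec, map_mul, hcomm b r, ← mul_assoc, hCH, zero_mul,
        zero_mulVec]
    · rintro ⟨j, hj⟩
      rw [hpowl] at hj
      refine ⟨x, ?_⟩
      rw [mulVecLin_apply]
      obtain ⟨u, v, huv⟩ := hcop j
      have huv' : aeval T u * aeval T ((X - C lam) ^ j) + aeval T v * aeval T r = 1 := by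
        rw [← map_mul, ← map_mul, ← map_add, huv, map_one]
      set z := (aeval T a * aeval T ((X - C lam) ^ k)) *ᵥ x with hz
      have h1 : aeval T ((X - C lam) ^ j) *ᵥ z = 0 := by
        rw [hz, mulVec_mulVec, ← map_mul, ← map_mul, mul_comm, map_mul, ← mulVec_mulVec, hj,
          mulVec_zero]
      have h2 : aeval T r *ᵥ z = 0 := by
        rw [hz, mulVec_mulVec, ← mul_assoc, hcomm r a, mul_assoc, hCH', mul_zero, zero_mulVec]
      have h3 : z = 0 := by
        have h4 : (1 : Matrix B B ℂ) *ᵥ z = 0 := by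
          rw [← huv', add_mulVec, ← mulVec_mulVec, ← mulVec_mulVec, h1, h2, mulVec_zero,
            mulVec_zero, add_zero]
        rwa [one_mulVec] at h4
      have h5 : (1 : Matrix B B ℂ) *ᵥ x = x := one_mulVec x
      rw [← hone, add_mulVec, ← hz, h3, zero_add, ← map_mul] at h5
      exact h5
  rw [hrange, LinearMap.finrank_maxGenEigenspace_eq, Matrix.charpoly_toLin']
  exact hk

theorem trace_sp (hOu : IsUnit Om) {X : Matrix B B ℂ}
    (hX : Xᵀ * Om + Om * X = 0) : trace X = 0 := by
  obtain ⟨u, hu⟩ := hOu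
  have h1 : Om * X = -(Xᵀ * Om) := eq_neg_of_add_eq_zero_right hX
  have h2 : X = -(((u⁻¹ : (Matrix B B ℂ)ˣ) : Matrix B B ℂ) * (Xᵀ * Om)) := by
    rw [← mul_neg, ← h1, ← mul_assoc, ← hu, Units.inv_mul, one_mul]
  have h3 : trace X = -trace X := by
    nth_rewrite 1 [h2]
    rw [trace_neg, trace_mul_comm, mul_assoc, ← hu, Units.mul_inv, mul_one, trace_transpose]
  have h4 : (2 : ℂ) * trace X = 0 := by linear_combination h3
  exact (mul_eq_zero.1 h4).resolve_left two_ne_zero

theorem aeval_comm {T X : Matrix B B ℂ} (h : T * X = X * T) (q : ℂ[X]) :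
    aeval T q * X = X * aeval T q := by
  induction q using Polynomial.induction_on' with
  | add p q h1 h2 => rw [map_add, add_mul, mul_add, h1, h2]
  | monomial k a =>
    rw [aeval_monomial, Algebra.algebraMap_eq_smul_one, smul_mul_assoc, one_mul, smul_mul_assoc,
      mul_smul_comm, pow_comm h]

theorem aeval_self {T : Matrix B B ℂ} (h : Tᵀ * Om = Om * T) (q : ℂ[X]) :
    (aeval T q)ᵀ * Om = Om * aeval T q := by
  have hk : ∀ k : ℕ, (T ^ k)ᵀ * Om = Om * T ^ k := by
    intro k
    induction k with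
    | zero => rw [pow_zero, transpose_one, one_mul, mul_one]
    | succ k ih =>
      rw [pow_succ', transpose_mul, mul_assoc, h, ← mul_assoc, ih, mul_assoc, ← pow_succ, ← pow_succ']
  induction q using Polynomial.induction_on' with
  | add p q h1 h2 => rw [map_add, transpose_add, add_mul, mul_add, h1, h2]
  | monomial k a =>
    rw [aeval_monomial, Algebra.algebraMap_eq_smul_one, smul_mul_assoc, one_mul, transpose_smul,
      smul_mul_assoc, mul_smul_comm, hk]

variable (hOm : Omᵀ = -Om) (hOu : IsUnit Om) (hsp : ∀ X ∈ lieM D ℂ, Xᵀ * Om + Om * X = 0)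

include hOm hOu hsp hP hQ hPm hQm in
/-- Two involutions of the Lie algebra whose anticommutator has an eigenvalue of multiplicity two
give a pair of eigenvectors whose product is in the Lie algebra. -/
theorem exists_pair (lam : ℂ) (hk : (P * Q + Q * P).charpoly.rootMultiplicity lam = 2) :
    ∃ v w, v ≠ 0 ∧ w ≠ 0 ∧ P *ᵥ v = v ∧ P *ᵥ w = -w ∧ SS Om v w ∈ lieM D ℂ ∧ ww Om v w ≠ 0 := by
  obtain ⟨q, hid, hfr⟩ := exists_proj (P * Q + Q * P) lam hk
  have heP : aeval (P * Q + Q * P) q * P ∈ lieM D ℂ := poly_mem hP hQ hPm hQm q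
  have hcomm : aeval (P * Q + Q * P) q * P = P * aeval (P * Q + Q * P) q :=
    aeval_comm (comm_T hP) q
  have hPO : Pᵀ * Om = -(Om * P) := eq_neg_of_add_eq_zero_left (hsp P hPm)
  have hQO : Qᵀ * Om = -(Om * Q) := eq_neg_of_add_eq_zero_left (hsp Q hQm)
  have hTO : (P * Q + Q * P)ᵀ * Om = Om * (P * Q + Q * P) := by
    rw [transpose_add, transpose_mul, transpose_mul, add_mul, mul_assoc, mul_assoc, hPO, hQO,
      mul_neg, mul_neg, ← mul_assoc, ← mul_assoc, hPO, hQO, neg_mul, neg_mul, neg_neg, neg_neg,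
      mul_assoc, mul_assoc, ← mul_add, add_comm]
  have hself := aeval_self hTO q
  obtain ⟨e, he⟩ : ∃ e, e = aeval (P * Q + Q * P) q := ⟨_, rfl⟩
  rw [← he] at hid hfr heP hcomm hself
  have hee : e * e = e := hid
  have hww : ∀ x y, ww Om (e *ᵥ x) y = ww Om x (e *ᵥ y) := by
    intro x y
    unfold ww
    rw [mulVec_mulVec, ← hself, ← mulVec_mulVec, dotProduct_mulVec x, vecMul_transpose]
  have htr : trace (e * P) = 0 := trace_sp hOu (hsp _ heP)
  have he0 : e ≠ 0 := by
    intro h
    rw [h] at hfr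
    have h1 : LinearMap.range (mulVecLin (0 : Matrix B B ℂ)) = ⊥ := by
      rw [eq_bot_iff]
      rintro _ ⟨w, rfl⟩
      rw [mulVecLin_apply, zero_mulVec]
      exact Submodule.zero_mem _
    rw [h1, finrank_bot] at hfr
    omega
  have htre : trace e ≠ 0 := by
    intro h
    apply he0
    have h1 : IsIdempotentElem (Matrix.toLin' e) := by
      unfold IsIdempotentElem
      rw [Module.End.mul_eq_comp, ← Matrix.toLin'_mul, hee]
    have h2 := (LinearMap.IsIdempotentElem.trace_eq_zero_iff h1).1 (by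
      rw [Matrix.trace_toLin'_eq, h])
    exact (Matrix.toLin' (R := ℂ)).injective (by rw [h2, map_zero])
  -- eigenvectors in the range of `e`
  have key : ∀ ε : ℂ, ε * ε = 1 → ∃ x, x ≠ 0 ∧ e *ᵥ x = x ∧ P *ᵥ x = ε • x := by
    intro ε hε
    by_contra hcon
    push Not at hcon
    have h1 : ∀ y, e *ᵥ y + ε • (P *ᵥ (e *ᵥ y)) = 0 := by
      intro y
      by_contra hne
      refine hcon _ hne ?_ ?_
      · rw [mulVec_add, mulVec_smul, mulVec_mulVec, mulVec_mulVec, hee, mulVec_mulVec, mulVec_mulVec,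
          hcomm, mul_assoc, hee]
      · rw [mulVec_add, mulVec_smul, mulVec_mulVec, mulVec_mulVec,
          ← mul_assoc, hP, one_mul, smul_add, smul_smul, hε, one_smul, add_comm]
    have h2 : e + ε • (e * P) = 0 := by
      ext i j
      have h3 := congrFun (h1 (Pi.single j 1)) i
      rw [mulVec_mulVec, ← hcomm, ← smul_mulVec, ← add_mulVec, mulVec_single_one] at h3
      exact h3
    have h3 := congrArg trace h2
    rw [trace_add, trace_smul, htr, smul_zero, add_zero, trace_zero] at h3
    exact htre h3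
  obtain ⟨v, hv0, hev, hPv⟩ := key 1 (one_mul 1)
  obtain ⟨w, hw0, hew, hPw⟩ := key (-1) (by norm_num)
  rw [one_smul] at hPv
  rw [neg_one_smul] at hPw
  -- they span the range of `e`
  have hli : LinearIndependent ℂ ![v, w] := by
    rw [LinearIndependent.pair_iff]
    intro s t hst
    have h1 := congrArg (fun x => P *ᵥ x) hst
    simp only [mulVec_add, mulVec_smul, hPv, hPw, mulVec_zero, smul_neg] at h1
    have h2 : (2 * s) • v = 0 := by
      have h3 : (2 * s) • v = (s • v + t • w) + (s • v + -(t • w)) := by module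
      rw [h3, hst, h1, add_zero]
    have h4 : (2 * t) • w = 0 := by
      have h3 : (2 * t) • w = (s • v + t • w) - (s • v + -(t • w)) := by module
      rw [h3, hst, h1, sub_zero]
    have h5 := (smul_eq_zero.1 h2).resolve_right hv0
    have h6 := (smul_eq_zero.1 h4).resolve_right hw0
    exact ⟨(mul_eq_zero.1 h5).resolve_left two_ne_zero,
      (mul_eq_zero.1 h6).resolve_left two_ne_zero⟩
  have hspan : ∀ y, ∃ a b : ℂ, e *ᵥ y = a • v + b • w := by
    intro y
    have h1 : Submodule.span ℂ (Set.range ![v, w]) = LinearMap.range (mulVecLin e) := by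
      refine Submodule.eq_of_le_of_finrank_eq ?_ ?_
      · rw [Submodule.span_le]
        rintro _ ⟨i, rfl⟩
        fin_cases i
        · exact ⟨v, hev⟩
        · exact ⟨w, hew⟩
      · rw [hfr, finrank_span_eq_card hli, Fintype.card_fin]
    have h2 : e *ᵥ y ∈ Submodule.span ℂ (Set.range ![v, w]) := by
      rw [h1]
      exact ⟨y, rfl⟩
    rw [Matrix.range_cons, Matrix.range_cons, Matrix.range_empty, Set.union_empty,
      Set.singleton_union, Submodule.mem_span_pair] at h2
    obtain ⟨a, b, h3⟩ := h2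
    exact ⟨a, b, h3.symm⟩
  have hvw : ww Om v w ≠ 0 := by
    intro h
    apply hv0
    have h1 : ∀ y, ww Om y v = 0 := by
      intro y
      obtain ⟨a, b, hy⟩ := hspan y
      rw [ww_anti hOm]
      have h2 : ww Om v y = 0 := by
        conv_lhs => rw [← hev]
        rw [hww, hy, ww_add_right, ww_smul_right, ww_smul_right, h, ww_self hOm, mul_zero,
          mul_zero, add_zero]
      rw [h2, neg_zero]
    have h2 : Om *ᵥ v = 0 := by
      funext i
      have h3 := h1 (Pi.single i 1)
      unfold ww at h3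
      rwa [single_one_dotProduct] at h3
    obtain ⟨u, hu⟩ := hOu
    have h3 : ((u⁻¹ : (Matrix B B ℂ)ˣ) : Matrix B B ℂ) *ᵥ (Om *ᵥ v) = v := by
      rw [← hu, mulVec_mulVec, Units.inv_mul, one_mulVec]
    rw [← h3, h2, mulVec_zero]
  refine ⟨v, w, hv0, hw0, hPv, hPw, ?_, hvw⟩
  have h1 : SS Om v w = (-ww Om v w) • (e * P) := by
    ext i j
    have h2 : ∀ y, SS Om v w *ᵥ y = ((-ww Om v w) • (e * P)) *ᵥ y := by
      intro y
      obtain ⟨a, b, hy⟩ := hspan y
      have e1 : ww Om w y = -(a * ww Om v w) := by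
        conv_lhs => rw [← hew]
        rw [hww, hy, ww_add_right, ww_smul_right, ww_smul_right, ww_self hOm, mul_zero, add_zero,
          ww_anti hOm w v, mul_neg]
      have e2 : ww Om v y = b * ww Om v w := by
        conv_lhs => rw [← hev]
        rw [hww, hy, ww_add_right, ww_smul_right, ww_smul_right, ww_self hOm, mul_zero, zero_add]
      rw [SS_vec, e1, e2, smul_mulVec, hcomm, ← mulVec_mulVec, hy, mulVec_add, mulVec_smul,
        mulVec_smul, hPv, hPw]
      module
    have h3 := congrFun (h2 (Pi.single j 1)) i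
    rwa [mulVec_single_one, mulVec_single_one] at h3
  rw [h1]
  exact Submodule.smul_mem _ _ heP

end Pool.Agent.W437.HD
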