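import Mathlib
import Pool.Agent.W437.HD.Good

/-!
# Forms killed by a Lie algebra which contains classical Lie algebras of blocks, second version
-/

set_option linter.unusedSectionVars false

namespace Pool.Agent.W437.HD

open Matrix Pool.Agent.H204R3.SP Pool.Agent.H204R3.GP Pool.Agent.W437.HC

variable {B : Type*} [Fintype B] [DecidableEq B] {D Om : Matrix B B ℂ}

/-- The version of the theorem on blocks for a family of vectors which generates the space. -/
theorem mem_MS_of_family (hsp : ∀ X ∈ lieM D ℂ, Xᵀ * Om + Om * X = 0)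
    {R : Type} [Fintype R] [DecidableEq R] {Q : Type*} [Fintype Q] [DecidableEq Q]
    (cls : R → Q) (inv : R → R) (jj : R → ℂ) (e : R → B → ℂ)
    (hinv : ∀ x, inv (inv x) = x) (hjj : ∀ x, jj (inv x) = -jj x) (hj0 : ∀ x, jj x ≠ 0)
    (hcls : ∀ x y, cls x = cls y → cls (inv x) = cls (inv y))
    (hJ : ∀ x y, ww Om (e x) (e y) = JJ inv jj x y)
    (hspan : Submodule.span ℂ (Set.range e) = ⊤)
    (hst : ∀ X ∈ lieM D ℂ, ∀ y, X *ᵥ e y ∈ Submodule.span ℂ (e '' {z | cls z = cls y}))
    (hS : ∀ b d, cls (inv b) = cls d → SS Om (e b) (e d) ∈ lieM D ℂ)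
    {m : ℕ} (c : (Fin m × Fin 2 → B) → ℚ) (hc : IsH D c) : c ∈ MS D m := by
  let E : Matrix R B ℂ := Matrix.of fun x i => (jj (inv x))⁻¹ * (e (inv x) ᵥ* Om) i
  let F : Matrix B R ℂ := Matrix.of fun i x => e x i
  have hEv : ∀ x v, (E *ᵥ v) x = (jj (inv x))⁻¹ * ww Om (e (inv x)) v := by
    intro x v
    change ∑ i, (jj (inv x))⁻¹ * (e (inv x) ᵥ* Om) i * v i = _
    unfold ww
    rw [dotProduct_mulVec, dotProduct, Finset.mul_sum]
    exact Finset.sum_congr rfl fun i _ => by ring
  have hEe : ∀ x y, (E *ᵥ e y) x = if x = y then 1 else 0 := by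
    intro x y
    rw [hEv, hJ]
    unfold JJ
    rw [hinv]
    by_cases h : x = y
    · subst h
      rw [if_pos rfl, if_pos rfl, inv_mul_cancel₀ (hj0 _)]
    · rw [if_neg (fun h' => h h'.symm), if_neg h, mul_zero]
  have hFE' : ∀ v, F *ᵥ (E *ᵥ v) = v := by
    intro v
    have hv : v ∈ Submodule.span ℂ (Set.range e) := by
      rw [hspan]
      trivial
    induction hv using Submodule.span_induction with
    | mem v hv =>
      obtain ⟨y, rfl⟩ := hv
      have h1 : E *ᵥ e y = Pi.single y 1 := by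
        funext x
        rw [hEe, Pi.single_apply]
      rw [h1, mulVec_single_one]
      rfl
    | zero => rw [mulVec_zero, mulVec_zero]
    | add x y _ _ h1 h2 => rw [mulVec_add, mulVec_add, h1, h2]
    | smul a x _ h1 => rw [mulVec_smul, mulVec_smul, h1]
  have hFE : F * E = 1 := by
    ext i j
    have h1 := congrFun (hFE' (Pi.single j 1)) i
    rw [mulVec_mulVec, mulVec_single_one] at h1
    rw [Matrix.one_apply]
    rw [Pi.single_apply] at h1
    exact h1
  refine mem_MS_of_basis (D := D) (Om := Om) (cls := cls) (inv := inv) (jj := jj) (E := E) (F := F)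
    hsp hinv hjj hj0 hcls hFE ?_ ?_ hS c hc
  · intro x y
    rw [← hJ x y, Matrix.mul_assoc, Matrix.mul_apply]
    simp only [ww, dotProduct, Matrix.transpose_apply, Matrix.mul_apply, mulVec]
    rfl
  · intro X hX x y hxy
    have h1 : (E * X * F) x y = (E *ᵥ (X *ᵥ e y)) x := by
      rw [Matrix.mul_assoc, Matrix.mul_apply]
      simp only [dotProduct, Matrix.mul_apply, mulVec]
      rfl
    rw [h1, hEv]
    have h2 : Submodule.span ℂ (e '' {z | cls z = cls y}) ≤ LinearMap.ker (wwL Om (e (inv x))) := by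
      rw [Submodule.span_le]
      rintro _ ⟨z, hz, rfl⟩
      rw [SetLike.mem_coe, LinearMap.mem_ker, wwL_apply, hJ]
      unfold JJ
      rw [hinv, if_neg]
      intro h
      apply hxy
      rw [← h]
      exact hz
    have h3 := h2 (hst X hX y)
    rw [LinearMap.mem_ker, wwL_apply] at h3
    rw [h3, mul_zero]

end Pool.Agent.W437.HD
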