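import Mathlib
import Pool.Agent.W437.HD.Fam

/-!
# Pairs of vectors whose product lies in a Lie subalgebra of the symplectic Lie algebra
-/

set_option linter.unusedSectionVars false

namespace Pool.Agent.W437.HD

open Matrix Pool.Agent.W437.HC

variable {B : Type*} [Fintype B] [DecidableEq B] {D Om : Matrix B B ℂ}

/-- The product of `v` and `w` is in the Lie algebra, but not their squares, and they are not
orthogonal. -/
def GP (D Om : Matrix B B ℂ) (v w : B → ℂ) : Prop :=
  SS Om v w ∈ lieM D ℂ ∧ ww Om v w ≠ 0 ∧ SS Om v v ∉ lieM D ℂ ∧ SS Om w w ∉ lieM D ℂ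

variable (hOm : Omᵀ = -Om) (hsp : ∀ X ∈ lieM D ℂ, Xᵀ * Om + Om * X = 0)

include hOm in
theorem GP.swap {v w : B → ℂ} (h : GP D Om v w) : GP D Om w v := by
  obtain ⟨h1, h2, h3, h4⟩ := h
  refine ⟨?_, ?_, h4, h3⟩
  · rw [SS_comm]
    exact h1
  · rw [ww_anti hOm, neg_ne_zero]
    exact h2

theorem smul_mem_zero {a : ℂ} {X : Matrix B B ℂ} (hX : X ∉ lieM D ℂ) (h : a • X ∈ lieM D ℂ) :
    a = 0 := by
  by_contra ha
  exact hX (mem_of_smul_mem ha h)

theorem GP.fst_mem {v w : B → ℂ} (h : GP D Om v w) : v ∈ VV D Om w := h.1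

theorem GP.snd_mem {v w : B → ℂ} (h : GP D Om v w) : w ∈ VV D Om v := by
  rw [mem_VV, SS_comm]
  exact h.1

include hOm hsp in
/-- The space of a pair is isotropic. -/
theorem GP.iso {v w : B → ℂ} (h : GP D Om v w) {x y : B → ℂ} (hx : x ∈ VV D Om w)
    (hy : y ∈ VV D Om w) : ww Om x y = 0 := by
  rw [mem_VV] at hx hy
  have h1 := SS_mem hsp hx hy
  rw [SS_vec, SS_vec, SS_add_left, SS_add_right, SS_smul_left, SS_smul_left, SS_smul_right,
    SS_smul_right, ww_self hOm, zero_smul, zero_add] at h1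
  have h2 : ww Om x y • SS Om w w ∈ lieM D ℂ := by
    have h3 := Submodule.sub_mem _ (Submodule.sub_mem _ h1
      (Submodule.smul_mem _ (ww Om w y) hx)) (Submodule.smul_mem _ (ww Om x w) hy)
    have h4 : ww Om w y • SS Om x w + ww Om x y • SS Om w w + ww Om x w • SS Om y w -
        ww Om w y • SS Om x w - ww Om x w • SS Om y w = ww Om x y • SS Om w w := by abel
    rwa [h4] at h3
  exact smul_mem_zero h.2.2.2 h2

include hOm hsp in
/-- The products of the vectors of the two spaces of a pair are in the Lie algebra. -/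
theorem GP.prod {v w : B → ℂ} (h : GP D Om v w) {x y : B → ℂ} (hx : x ∈ VV D Om w)
    (hy : y ∈ VV D Om v) : SS Om x y ∈ lieM D ℂ := by
  have hwy : ww Om w y = 0 := (h.swap hOm).iso hOm hsp h.snd_mem hy
  have hxv : ww Om x v = 0 := h.iso hOm hsp hx h.fst_mem
  rw [mem_VV] at hx hy
  have h1 := SS_mem hsp hx hy
  rw [SS_vec, SS_vec, hwy, hxv, zero_smul, zero_add, zero_smul, add_zero, SS_smul_left,
    SS_smul_right] at h1
  have h2 : SS Om w v ∈ lieM D ℂ := by
    rw [SS_comm]
    exact h.1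
  have h3 : ww Om w v • SS Om y x ∈ lieM D ℂ := by
    have h4 := Submodule.sub_mem _ h1 (Submodule.smul_mem _ (ww Om x y) h2)
    rwa [add_sub_cancel_left] at h4
  rw [SS_comm]
  refine mem_of_smul_mem ?_ h3
  rw [ww_anti hOm, neg_ne_zero]
  exact h.2.1

include hOm hsp in
/-- The Lie algebra maps the vectors of a pair to the spaces of the pair. -/
theorem GP.bracket {v w : B → ℂ} (h : GP D Om v w) {Y : Matrix B B ℂ} (hY : Y ∈ lieM D ℂ) :
    Y *ᵥ v ∈ VV D Om w := by
  obtain ⟨h1, h2, h3, h4⟩ := h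
  set κ := ww Om v w with hκ
  have hwv : ww Om w v = -κ := ww_anti hOm w v
  have hX := hsp _ h1
  have hXv : SS Om v w *ᵥ v = (-κ) • v := by
    rw [SS_vec, hwv, ww_self hOm, zero_smul, add_zero]
  have hXw : SS Om v w *ᵥ w = κ • w := by
    rw [SS_vec, ww_self hOm, zero_smul, zero_add]
  set a := ww Om v (Y *ᵥ v) with ha
  set b := ww Om w (Y *ᵥ w) with hb
  set α := ww Om w (Y *ᵥ v) with hα
  set β := ww Om v (Y *ᵥ w) with hβ
  have hXYv : SS Om v w *ᵥ (Y *ᵥ v) = α • v + a • w := SS_vec _ _ _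
  have hXYw : SS Om v w *ᵥ (Y *ᵥ w) = b • v + β • w := SS_vec _ _ _
  have hP := SS_mem hsp hY h1
  set P1 := SS Om (Y *ᵥ v) w with hP1
  set P2 := SS Om v (Y *ᵥ w) with hP2
  -- brackets with the product of the pair
  have b1 : SS Om v w * P1 - P1 * SS Om v w = α • SS Om v w + a • SS Om w w + κ • P1 := by
    rw [hP1, SS_bracket hX, hXYv, hXw, SS_add_left, SS_smul_left, SS_smul_left, SS_smul_right]
  have b2 : SS Om v w * P2 - P2 * SS Om v w = (-κ) • P2 + (b • SS Om v v + β • SS Om v w) := by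
    rw [hP2, SS_bracket hX, hXYw, hXv, SS_add_right, SS_smul_left, SS_smul_right, SS_smul_right]
  have b3 : SS Om v w * SS Om w w - SS Om w w * SS Om v w = (2 * κ) • SS Om w w := by
    rw [SS_bracket hX, hXw, SS_smul_left, SS_smul_right, ← add_smul]
    congr 1
    ring
  have b4 : SS Om v w * SS Om v v - SS Om v v * SS Om v w = (-(2 * κ)) • SS Om v v := by
    rw [SS_bracket hX, hXv, SS_smul_left, SS_smul_right, ← add_smul]
    congr 1
    ring
  have hbr : ∀ {X' : Matrix B B ℂ}, X' ∈ lieM D ℂ →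
      SS Om v w * X' - X' * SS Om v w ∈ lieM D ℂ := fun hX' => lieM_bracket D h1 hX'
  -- first bracket
  have c1 : a • SS Om w w + b • SS Om v v + κ • (P1 - P2) ∈ lieM D ℂ := by
    have d1 := hbr hP
    have d2 : SS Om v w * (P1 + P2) - (P1 + P2) * SS Om v w =
        (SS Om v w * P1 - P1 * SS Om v w) + (SS Om v w * P2 - P2 * SS Om v w) := by
      rw [mul_add, add_mul]
      abel
    rw [d2, b1, b2] at d1
    have d3 := Submodule.sub_mem _ d1 (Submodule.smul_mem _ (α + β) h1)
    have d4 : α • SS Om v w + a • SS Om w w + κ • P1 +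
        ((-κ) • P2 + (b • SS Om v v + β • SS Om v w)) - (α + β) • SS Om v w =
        a • SS Om w w + b • SS Om v v + κ • (P1 - P2) := by
      module
    rwa [d4] at d3
  have c2 : a • SS Om w w - b • SS Om v v ∈ lieM D ℂ := by
    have d1 := hbr c1
    have d2 : SS Om v w * (a • SS Om w w + b • SS Om v v + κ • (P1 - P2)) -
        (a • SS Om w w + b • SS Om v v + κ • (P1 - P2)) * SS Om v w =
        a • (SS Om v w * SS Om w w - SS Om w w * SS Om v w) +
        b • (SS Om v w * SS Om v v - SS Om v v * SS Om v w) +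
        κ • ((SS Om v w * P1 - P1 * SS Om v w) - (SS Om v w * P2 - P2 * SS Om v w)) := by
      simp only [mul_add, add_mul, mul_smul_comm, smul_mul_assoc, mul_sub, sub_mul]
      module
    rw [d2, b1, b2, b3, b4] at d1
    have d3 := Submodule.sub_mem _ (Submodule.sub_mem _ d1
      (Submodule.smul_mem _ (κ * κ) hP)) (Submodule.smul_mem _ (κ * (α - β)) h1)
    have d4 : a • (2 * κ) • SS Om w w + b • (-(2 * κ)) • SS Om v v +
        κ • (α • SS Om v w + a • SS Om w w + κ • P1 -
          (-κ • P2 + (b • SS Om v v + β • SS Om v w))) - (κ * κ) • (P1 + P2) -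
          (κ * (α - β)) • SS Om v w = (3 * κ) • (a • SS Om w w - b • SS Om v v) := by
      module
    rw [d4] at d3
    exact mem_of_smul_mem (mul_ne_zero (by norm_num) h2) d3
  have c3 : a • SS Om w w + b • SS Om v v ∈ lieM D ℂ := by
    have d1 := hbr c2
    have d2 : SS Om v w * (a • SS Om w w - b • SS Om v v) -
        (a • SS Om w w - b • SS Om v v) * SS Om v w =
        a • (SS Om v w * SS Om w w - SS Om w w * SS Om v w) -
        b • (SS Om v w * SS Om v v - SS Om v v * SS Om v w) := by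
      simp only [mul_smul_comm, smul_mul_assoc, mul_sub, sub_mul]
      module
    rw [d2, b3, b4] at d1
    have d4 : a • (2 * κ) • SS Om w w - b • (-(2 * κ)) • SS Om v v =
        (2 * κ) • (a • SS Om w w + b • SS Om v v) := by
      module
    rw [d4] at d1
    exact mem_of_smul_mem (mul_ne_zero two_ne_zero h2) d1
  have c4 : κ • (P1 - P2) ∈ lieM D ℂ := by
    have d1 := Submodule.sub_mem _ c1 c3
    rwa [add_sub_cancel_left] at d1
  have c5 := mem_of_smul_mem h2 c4
  have c6 := Submodule.add_mem _ hP c5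
  have c7 : P1 + P2 + (P1 - P2) = (2 : ℂ) • P1 := by
    rw [two_smul]
    abel
  rw [c7] at c6
  exact mem_of_smul_mem two_ne_zero c6

include hOm hsp in
/-- The spaces of a pair are stable. -/
theorem GP.stable {v w : B → ℂ} (h : GP D Om v w) {Y : Matrix B B ℂ} (hY : Y ∈ lieM D ℂ)
    {x : B → ℂ} (hx : x ∈ VV D Om w) : Y *ᵥ x ∈ VV D Om w := by
  have h1 := SS_mem hsp hY (mem_VV.1 hx)
  have h2 := h.prod hOm hsp hx ((h.swap hOm).bracket hOm hsp hY)
  have h3 := Submodule.sub_mem _ h1 h2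
  rwa [add_sub_cancel_right] at h3

theorem trace_SS (Y : Matrix B B ℂ) (x y : B → ℂ) :
    trace (SS Om x y * Y) = ww Om y (Y *ᵥ x) + ww Om x (Y *ᵥ y) := by
  unfold SS ww
  rw [mul_assoc, add_mul, trace_add, vecMulVec_mul, vecMulVec_mul, trace_vecMulVec,
    trace_vecMulVec, dotProduct_comm x, dotProduct_comm y, ← dotProduct_mulVec,
    ← dotProduct_mulVec, mulVec_mulVec, mulVec_mulVec]

include hOm hsp in
/-- The two spaces of a pair are in duality. -/
theorem GP.radical (htr : ∀ X ∈ lieM D ℂ, (∀ Y ∈ lieM D ℂ, trace (X * Y) = 0) → X = 0)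
    {v w : B → ℂ} (h : GP D Om v w) {x : B → ℂ} (hx : x ∈ VV D Om w)
    (hx2 : ∀ y ∈ VV D Om v, ww Om x y = 0) : x = 0 := by
  have h1 : SS Om x w = 0 := by
    refine htr _ hx fun Y hY => ?_
    have hYw : Y *ᵥ w ∈ VV D Om v := (h.swap hOm).bracket hOm hsp hY
    have h3 : ww Om w (Y *ᵥ x) = 0 := by
      have h4 : ww Om w (Y *ᵥ x) = -ww Om (Y *ᵥ w) x := by
        have h5 := hsp Y hY
        have h6 : Om * Y = -(Yᵀ * Om) := eq_neg_of_add_eq_zero_right h5
        unfold ww
        rw [mulVec_mulVec, h6, neg_mulVec, dotProduct_neg, ← mulVec_mulVec, dotProduct_mulVec w,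
          vecMul_transpose]
      rw [h4, ww_anti hOm, hx2 _ hYw, neg_zero, neg_zero]
    rw [trace_SS, h3, hx2 _ hYw, add_zero]
  have h2 := congrArg (fun X => X *ᵥ v) h1
  simp only [zero_mulVec] at h2
  rw [SS_vec, h.iso hOm hsp hx h.fst_mem, zero_smul, add_zero] at h2
  refine (smul_eq_zero.1 h2).resolve_left ?_
  rw [ww_anti hOm, neg_eq_zero]
  exact h.2.1

include hOm hsp in
/-- If two spaces of pairs are not orthogonal then the dual of the one is contained in the
other. -/
theorem GP.le {v w v' w' : B → ℂ} (h : GP D Om v w) (h' : GP D Om v' w') {b x : B → ℂ}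
    (hb : b ∈ VV D Om v) (hx : x ∈ VV D Om w') (hbx : ww Om b x ≠ 0) :
    VV D Om w ≤ VV D Om w' := by
  intro a ha
  have h1 := h'.stable hOm hsp (h.prod hOm hsp ha hb) hx
  have h2 := h'.iso hOm hsp h1 hx
  rw [SS_vec] at h1 h2
  rw [ww_add_left, ww_smul_left, ww_smul_left] at h2
  have h3 : ww Om a x = 0 := by
    have h4 : (2 * ww Om b x) * ww Om a x = 0 := by linear_combination h2
    exact (mul_eq_zero.1 h4).resolve_left (mul_ne_zero two_ne_zero hbx)
  rw [h3, zero_smul, add_zero] at h1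
  have h5 := Submodule.smul_mem _ (ww Om b x)⁻¹ h1
  rwa [smul_smul, inv_mul_cancel₀ hbx, one_smul] at h5

include hOm hsp in
/-- If two spaces of pairs are not orthogonal then they are dual to each other. -/
theorem GP.eq (htr : ∀ X ∈ lieM D ℂ, (∀ Y ∈ lieM D ℂ, trace (X * Y) = 0) → X = 0)
    {v w v' w' : B → ℂ} (h : GP D Om v w) (h' : GP D Om v' w') {x x' : B → ℂ}
    (hx : x ∈ VV D Om w) (hx' : x' ∈ VV D Om w') (hxx : ww Om x x' ≠ 0) :
    VV D Om w' = VV D Om v ∧ VV D Om v' = VV D Om w := by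
  have hs := h.swap hOm
  have hs' := h'.swap hOm
  have a1 : VV D Om v ≤ VV D Om w' := hs.le hOm hsp h' hx hx' hxx
  have hxx' : ww Om x' x ≠ 0 := by
    rw [ww_anti hOm, neg_ne_zero]
    exact hxx
  have a2 : VV D Om v' ≤ VV D Om w := hs'.le hOm hsp h hx' hx hxx'
  -- a nonzero vector of the smaller space pairs nontrivially
  have hv'0 : v' ≠ 0 := by
    intro h0
    apply h'.2.1
    rw [h0]
    exact zero_dotProduct _
  have hv0 : v ≠ 0 := by
    intro h0
    apply h.2.1
    rw [h0]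
    exact zero_dotProduct _
  have hw'0 : w' ≠ 0 := by
    intro h0
    apply h'.2.1
    rw [h0]
    unfold ww
    rw [mulVec_zero, dotProduct_zero]
  have hw0 : w ≠ 0 := by
    intro h0
    apply h.2.1
    rw [h0]
    unfold ww
    rw [mulVec_zero, dotProduct_zero]
  have a3 : VV D Om w' ≤ VV D Om v := by
    have hm : w' ∈ VV D Om w := a2 h'.snd_mem
    obtain ⟨y, hy, hwy⟩ : ∃ y ∈ VV D Om v, ww Om w' y ≠ 0 := by
      by_contra hcon
      push Not at hcon
      exact hw'0 (h.radical hOm hsp htr hm hcon)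
    exact h'.le hOm hsp hs h'.snd_mem hy hwy
  have a4 : VV D Om w ≤ VV D Om v' := by
    have hm : w ∈ VV D Om w' := a1 h.snd_mem
    obtain ⟨y, hy, hwy⟩ : ∃ y ∈ VV D Om v', ww Om w y ≠ 0 := by
      by_contra hcon
      push Not at hcon
      exact hw0 (h'.radical hOm hsp htr hm hcon)
    exact h.le hOm hsp hs' h.snd_mem hy hwy
  exact ⟨le_antisymm a3 a1, le_antisymm a2 a4⟩

end Pool.Agent.W437.HD
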