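import Mathlib
import Pool.Agent.W437.HD.Rat

/-!
# Subspaces stable under all automorphisms of the complex numbers and under the Hodge operator
-/

set_option linter.unusedSectionVars false

namespace Pool.Agent.W437.HD

open Matrix Pool.Agent.H204R3.CM Pool.Agent.W437.HC

variable {g : ℕ} {Z : Matrix (Fin g) (Fin g) ℂ}

/-- A nonzero subspace which is stable under all automorphisms of the complex numbers and under the
Hodge operator is everything if the abelian variety is simple. -/
theorem stable_eq_top (hY : IsUnit (imM Z).det) (hs : IsSimpleAV Z)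
    (U : Submodule ℂ (Fin g ⊕ Fin g → ℂ))
    (hσ : ∀ (σ : ℂ ≃+* ℂ), ∀ v ∈ U, (fun i => σ (v i)) ∈ U)
    (hD : ∀ v ∈ U, DZ Z *ᵥ v ∈ U) (hne : U ≠ ⊥) : U = ⊤ := by
  have hrat := span_rational U hσ
  let U0 : Submodule ℚ (Fin g ⊕ Fin g → ℚ) :=
    { carrier := {u | (fun i => ((u i : ℚ) : ℂ)) ∈ U}
      zero_mem' := by
        have h1 : (fun i : Fin g ⊕ Fin g => (((0 : Fin g ⊕ Fin g → ℚ) i : ℚ) : ℂ)) = 0 := by
          funext i
          simp
        change _ ∈ U
        rw [h1]
        exact Submodule.zero_mem _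
      add_mem' := by
        intro u v hu hv
        have h1 : (fun i : Fin g ⊕ Fin g => (((u + v) i : ℚ) : ℂ)) =
            (fun i => ((u i : ℚ) : ℂ)) + fun i => ((v i : ℚ) : ℂ) := by
          funext i
          simp
        change _ ∈ U
        rw [h1]
        exact Submodule.add_mem _ hu hv
      smul_mem' := by
        intro a u hu
        have h1 : (fun i : Fin g ⊕ Fin g => (((a • u) i : ℚ) : ℂ)) =
            (a : ℂ) • (fun i => ((u i : ℚ) : ℂ)) := by
          funext i
          simp
        change _ ∈ U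
        rw [h1]
        exact Submodule.smul_mem _ _ hu }
  have hU0 : ∀ u, u ∈ U0 ↔ (fun i => ((u i : ℚ) : ℂ)) ∈ U := fun u => Iff.rfl
  -- real parts
  have hre : ∀ v ∈ U, ∀ z : ℂ, (fun i => (z * v i).re) ∈ Submodule.span ℝ
      ((fun (u : Fin g ⊕ Fin g → ℚ) i => ((u i : ℚ) : ℝ)) '' (U0 : Set (Fin g ⊕ Fin g → ℚ))) := by
    intro v hv
    rw [hrat] at hv
    induction hv using Submodule.span_induction with
    | mem w hw =>
      obtain ⟨hw1, u, rfl⟩ := hw
      intro z
      have h1 : (fun i => (z * ((u i : ℚ) : ℂ)).re) = z.re • fun i => ((u i : ℚ) : ℝ) := by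
        funext i
        simp
      rw [h1]
      exact Submodule.smul_mem _ _ (Submodule.subset_span ⟨u, hw1, rfl⟩)
    | zero =>
      intro z
      have h1 : (fun i => (z * (0 : Fin g ⊕ Fin g → ℂ) i).re) = 0 := by
        funext i
        simp
      rw [h1]
      exact Submodule.zero_mem _
    | add x y _ _ h1 h2 =>
      intro z
      have h3 : (fun i => (z * (x + y) i).re) =
          (fun i => (z * x i).re) + fun i => (z * y i).re := by
        funext i
        simp [mul_add]
      rw [h3]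
      exact Submodule.add_mem _ (h1 z) (h2 z)
    | smul a x _ h1 =>
      intro z
      have h3 : (fun i => (z * (a • x) i).re) = fun i => ((z * a) * x i).re := by
        funext i
        rw [Pi.smul_apply, smul_eq_mul, mul_assoc]
      rw [h3]
      exact h1 _
  have hcast : ∀ x ∈ Submodule.span ℝ
      ((fun (u : Fin g ⊕ Fin g → ℚ) i => ((u i : ℚ) : ℝ)) '' (U0 : Set (Fin g ⊕ Fin g → ℚ))),
      (fun i => ((x i : ℝ) : ℂ)) ∈ U := by
    intro x hx
    induction hx using Submodule.span_induction with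
    | mem w hw =>
      obtain ⟨u, hu, rfl⟩ := hw
      have h1 : (fun i => (((u i : ℚ) : ℝ) : ℂ)) = fun i => ((u i : ℚ) : ℂ) := by
        funext i
        simp
      rw [h1]
      exact hu
    | zero =>
      have h1 : (fun i => (((0 : Fin g ⊕ Fin g → ℝ) i : ℝ) : ℂ)) = 0 := by
        funext i
        simp
      rw [h1]
      exact Submodule.zero_mem _
    | add x y _ _ h1 h2 =>
      have h3 : (fun i => (((x + y) i : ℝ) : ℂ)) =
          (fun i => ((x i : ℝ) : ℂ)) + fun i => ((y i : ℝ) : ℂ) := by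
        funext i
        simp
      rw [h3]
      exact Submodule.add_mem _ h1 h2
    | smul a x _ h1 =>
      have h3 : (fun i => (((a • x) i : ℝ) : ℂ)) = (a : ℂ) • fun i => ((x i : ℝ) : ℂ) := by
        funext i
        simp
      rw [h3]
      exact Submodule.smul_mem _ _ h1
  have hJ : ∀ x ∈ Submodule.span ℝ
      ((fun (u : Fin g ⊕ Fin g → ℚ) i => ((u i : ℚ) : ℝ)) '' (U0 : Set (Fin g ⊕ Fin g → ℚ))),
      JR Z *ᵥ x ∈ Submodule.span ℝ
      ((fun (u : Fin g ⊕ Fin g → ℚ) i => ((u i : ℚ) : ℝ)) '' (U0 : Set (Fin g ⊕ Fin g → ℚ))) := by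
    intro x hx
    have h1 := hD _ (hcast x hx)
    have h2 := hre _ h1 Complex.I
    have h3 : (fun i => (Complex.I * (DZ Z *ᵥ fun i => ((x i : ℝ) : ℂ)) i).re) = JR Z *ᵥ x := by
      have h4 : (DZ Z *ᵥ fun i => ((x i : ℝ) : ℂ)) =
          (-Complex.I) • fun i => (((JR Z *ᵥ x) i : ℝ) : ℂ) := by
        unfold DZ
        rw [smul_mulVec]
        congr 1
        funext i
        simp [mulVec, dotProduct]
      funext i
      rw [h4, Pi.smul_apply, smul_eq_mul, ← mul_assoc, mul_neg, Complex.I_mul_I, neg_neg, one_mul,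
        Complex.ofReal_re]
    rwa [h3] at h2
  have hper : Submodule.span ℝ (perOne Z '' (U0 : Set (Fin g ⊕ Fin g → ℚ))) =
      (Submodule.span ℝ ((fun (u : Fin g ⊕ Fin g → ℚ) i => ((u i : ℚ) : ℝ)) ''
        (U0 : Set (Fin g ⊕ Fin g → ℚ)))).map (perR Z) := by
    rw [Submodule.map_span, ← Set.image_comp]
    congr 1
  have hI : ∀ x ∈ Submodule.span ℝ (perOne Z '' (U0 : Set (Fin g ⊕ Fin g → ℚ))),
      Complex.I • x ∈ Submodule.span ℝ (perOne Z '' (U0 : Set (Fin g ⊕ Fin g → ℚ))) := by
    intro x hx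
    rw [hper] at hx ⊢
    obtain ⟨y, hy, rfl⟩ := hx
    exact ⟨_, hJ y hy, perR_JR Z hY y⟩
  rcases hs U0 hI with h0 | h0
  · exfalso
    apply hne
    rw [hrat, Submodule.span_eq_bot]
    rintro _ ⟨hw1, u, rfl⟩
    have h2 : u ∈ U0 := hw1
    rw [h0, Submodule.mem_bot] at h2
    subst h2
    funext i
    simp
  · rw [eq_top_iff]
    intro x _
    have h1 : x = ∑ i, x i • (fun j => (((Pi.single i 1 : Fin g ⊕ Fin g → ℚ) j : ℚ) : ℂ)) := by
      funext j
      rw [Finset.sum_apply, Finset.sum_eq_single j]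
      · simp
      · intro b _ hb
        rw [Pi.smul_apply, Pi.single_eq_of_ne (Ne.symm hb)]
        simp
      · intro h
        exact absurd (Finset.mem_univ _) h
    rw [h1]
    refine Submodule.sum_mem _ fun i _ => Submodule.smul_mem _ _ ?_
    have h2 : (Pi.single i 1 : Fin g ⊕ Fin g → ℚ) ∈ U0 := by
      rw [h0]
      trivial
    exact h2

end Pool.Agent.W437.HD
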