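import Mathlib
import Pool.Agent.W437.HD.Pair
import Pool.Agent.W437.HD.Simple
import Pool.Agent.W437.HD.Dec

/-!
# The decomposition of the homology into general linear blocks
-/

set_option linter.unusedSectionVars false

namespace Pool.Agent.W437.HD

open Matrix Module Pool.Agent.H204R3.CM Pool.Agent.H204R3.SP Pool.Agent.H204R3.GP
  Pool.Agent.H194R3.CM Pool.Agent.W437.HC

section Dec

variable {B : Type} [Fintype B] [DecidableEq B] {D Om : Matrix B B ℂ}

/-- The sum of the spaces of pairs. -/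
def UG (D Om : Matrix B B ℂ) : Submodule ℂ (B → ℂ) :=
  ⨆ p : {p : (B → ℂ) × (B → ℂ) // GP D Om p.1 p.2}, VV D Om p.1.2

theorem GP.map {σ : ℂ ≃+* ℂ} (hOm : Om.map (σ : ℂ →+* ℂ) = Om) {v w : B → ℂ} (h : GP D Om v w) :
    GP D Om (fun i => σ (v i)) (fun i => σ (w i)) := by
  obtain ⟨h1, h2, h3, h4⟩ := h
  have key : ∀ x y : B → ℂ, SS Om (fun i => σ (x i)) (fun i => σ (y i)) ∈ lieM D ℂ →
      SS Om x y ∈ lieM D ℂ := by
    intro x y hxy
    have e1 := SS_map (σ := (σ : ℂ →+* ℂ)) hOm x y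
    change (SS Om x y).map σ = SS Om (fun i => σ (x i)) (fun i => σ (y i)) at e1
    rw [← e1] at hxy
    have e2 := map_mem_aut hxy (σ.symm : ℂ →+* ℂ)
    have e3 : ((SS Om x y).map σ).map (σ.symm : ℂ →+* ℂ) = SS Om x y := by
      ext i j
      simp
    rwa [e3] at e2
  refine ⟨?_, ?_, fun h => h3 (key _ _ h), fun h => h4 (key _ _ h)⟩
  · have e1 := SS_map (σ := (σ : ℂ →+* ℂ)) hOm v w
    have e2 := map_mem_aut h1 (σ : ℂ →+* ℂ)
    rw [e1] at e2
    exact e2
  · have e1 := ww_map (σ := (σ : ℂ →+* ℂ)) hOm v w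
    intro h0
    apply h2
    have e2 : (σ : ℂ →+* ℂ) (ww Om v w) = 0 := e1.trans h0
    exact (map_eq_zero _).1 e2

theorem UG_map {σ : ℂ ≃+* ℂ} (hOm : Om.map (σ : ℂ →+* ℂ) = Om) {x : B → ℂ} (hx : x ∈ UG D Om) :
    (fun i => σ (x i)) ∈ UG D Om := by
  unfold UG at hx
  induction hx using Submodule.iSup_induction' with
  | mem p x hx =>
    refine Submodule.mem_iSup_of_mem ⟨(_, _), p.2.map hOm⟩ ?_
    have e1 := SS_map (σ := (σ : ℂ →+* ℂ)) hOm x p.1.2
    have e2 := map_mem_aut hx (σ : ℂ →+* ℂ)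
    rw [e1] at e2
    exact e2
  | zero =>
    have h1 : (fun i => σ ((0 : B → ℂ) i)) = 0 := by
      funext i
      simp
    rw [h1]
    exact Submodule.zero_mem _
  | add x y _ _ h1 h2 =>
    have h3 : (fun i => σ ((x + y) i)) = (fun i => σ (x i)) + fun i => σ (y i) := by
      funext i
      simp
    rw [h3]
    exact Submodule.add_mem _ h1 h2

variable (hOm : Omᵀ = -Om) (hsp : ∀ X ∈ lieM D ℂ, Xᵀ * Om + Om * X = 0)

include hOm hsp in
theorem UG_stable {X : Matrix B B ℂ} (hX : X ∈ lieM D ℂ) {x : B → ℂ} (hx : x ∈ UG D Om) :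
    X *ᵥ x ∈ UG D Om := by
  have h1 : UG D Om ≤ (UG D Om).comap (mulVecLin X) := by
    refine iSup_le fun v y hy => ?_
    rw [Submodule.mem_comap, mulVecLin_apply]
    exact Submodule.mem_iSup_of_mem v (v.2.stable hOm hsp hX hy)
  exact h1 hx

include hOm hsp in
/-- If the spaces of pairs generate the whole space then the forms killed by the Lie algebra are
linear combinations of products of such bilinear forms. -/
theorem mem_MS_of_pairs (htr : ∀ X ∈ lieM D ℂ, (∀ Y ∈ lieM D ℂ, trace (X * Y) = 0) → X = 0)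
    (htop : UG D Om = ⊤)
    {m : ℕ} (c : (Fin m × Fin 2 → B) → ℚ) (hc : IsH D c) : c ∈ MS D m := by
  classical
  -- the family of spaces
  let 𝒩 : Set (Submodule ℂ (B → ℂ)) := {N | ∃ v w, GP D Om v w ∧ N = VV D Om w}
  have hstar : ∀ N : 𝒩, ∃ N' : 𝒩, ∀ v w, GP D Om v w → N.1 = VV D Om w → N'.1 = VV D Om v := by
    rintro ⟨_, ⟨v, w, h, rfl⟩⟩
    refine ⟨⟨VV D Om v, w, v, h.swap hOm, rfl⟩, fun v' w' h' he => ?_⟩
    have h1 := h.eq hOm hsp htr (h'.swap hOm) (x := v') (x' := w') ?_ h'.snd_mem h'.2.1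
    · exact h1.1.symm
    · change VV D Om w = VV D Om w' at he
      rw [he]
      exact h'.fst_mem
  choose st hst using hstar
  have hst' : ∀ v w, ∀ h : GP D Om v w,
      st ⟨VV D Om w, v, w, h, rfl⟩ = ⟨VV D Om v, w, v, h.swap hOm, rfl⟩ := by
    intro v w h
    exact Subtype.ext (hst _ v w h rfl)
  have hst2 : ∀ N, st (st N) = N := by
    rintro ⟨_, ⟨v, w, h, rfl⟩⟩
    rw [hst' v w h, hst' w v (h.swap hOm)]
  have hiso : ∀ N : 𝒩, ∀ x ∈ N.1, ∀ y ∈ N.1, ww Om x y = 0 := by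
    rintro ⟨_, ⟨v, w, h, rfl⟩⟩ x hx y hy
    exact h.iso hOm hsp hx hy
  have hrad : ∀ N : 𝒩, ∀ x ∈ N.1, (∀ y ∈ (st N).1, ww Om x y = 0) → x = 0 := by
    rintro ⟨_, ⟨v, w, h, rfl⟩⟩ x hx hy
    rw [hst' v w h] at hy
    exact h.radical hOm hsp htr hx hy
  have horth : ∀ N N' : 𝒩, ∀ x ∈ N.1, ∀ x' ∈ N'.1, ww Om x x' ≠ 0 → N' = st N := by
    rintro ⟨_, ⟨v, w, h, rfl⟩⟩ ⟨_, ⟨v', w', h', rfl⟩⟩ x hx x' hx' hne
    rw [hst' v w h]
    exact Subtype.ext (h.eq hOm hsp htr h' hx hx' hne).1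
  have hprod : ∀ N : 𝒩, ∀ x ∈ N.1, ∀ y ∈ (st N).1, SS Om x y ∈ lieM D ℂ := by
    rintro ⟨_, ⟨v, w, h, rfl⟩⟩ x hx y hy
    rw [hst' v w h] at hy
    exact h.prod hOm hsp hx hy
  have hstab : ∀ N : 𝒩, ∀ X ∈ lieM D ℂ, ∀ x ∈ N.1, X *ᵥ x ∈ N.1 := by
    rintro ⟨_, ⟨v, w, h, rfl⟩⟩ X hX x hx
    exact h.stable hOm hsp hX hx
  have hne : ∀ N : 𝒩, st N ≠ N := by
    rintro ⟨_, ⟨v, w, h, rfl⟩⟩ he
    rw [hst' v w h] at he
    have h1 : VV D Om v = VV D Om w := congrArg Subtype.val he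
    apply h.2.1
    refine h.iso hOm hsp h.fst_mem ?_
    rw [← h1]
    exact h.snd_mem
  have hbot : ∀ N : 𝒩, N.1 ≠ ⊥ := by
    rintro ⟨_, ⟨v, w, h, rfl⟩⟩ he
    have h1 : v ∈ VV D Om w := h.fst_mem
    have he' : VV D Om w = ⊥ := he
    rw [he', Submodule.mem_bot] at h1
    apply h.2.1
    rw [h1]
    exact zero_dotProduct _
  have hsup : ⨆ N : 𝒩, N.1 = ⊤ := by
    rw [eq_top_iff, ← htop]
    unfold UG
    refine iSup_le fun p => ?_
    exact le_iSup (fun N : 𝒩 => N.1) ⟨VV D Om p.1.2, p.1.1, p.1.2, p.2, rfl⟩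
  have hindep : iSupIndep (fun N : 𝒩 => N.1) := by
    intro N
    rw [Submodule.disjoint_def]
    intro x hx hx2
    apply hrad N x hx
    intro y hy
    have h1 : (⨆ (q : 𝒩) (_ : q ≠ N), q.1) ≤ LinearMap.ker (wwL Om y) := by
      refine iSup_le fun q => iSup_le fun hq => ?_
      intro z hz
      rw [LinearMap.mem_ker, wwL_apply]
      by_contra hcon
      apply hq
      have h2 := horth (st N) q y hy z hz hcon
      rw [h2, hst2]
    have h2 := h1 hx2
    rw [LinearMap.mem_ker, wwL_apply] at h2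
    rw [ww_anti hOm, h2, neg_zero]
  have hfin : Finite 𝒩 := WellFoundedGT.finite_of_iSupIndep hindep hbot
  have : Fintype 𝒩 := Fintype.ofFinite 𝒩
  -- one half of the family
  let f : 𝒩 ≃ Fin (Fintype.card 𝒩) := Fintype.equivFin 𝒩
  let H : Type := {N : 𝒩 // f N < f (st N)}
  -- dual bases
  have hdual : ∀ N : 𝒩, ∃ (b : Basis (Fin (finrank ℂ N.1)) ℂ N.1)
      (b' : Basis (Fin (finrank ℂ N.1)) ℂ (st N).1),
      ∀ i j, ww Om (b i : B → ℂ) (b' j : B → ℂ) = if i = j then 1 else 0 := by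
    intro N
    let ψ : (st N).1 →ₗ[ℂ] Dual ℂ N.1 := ((wwL Om).domRestrict₁₂ N.1 (st N).1).flip
    have hψ : Function.Injective ψ := by
      rw [injective_iff_map_eq_zero]
      intro y hy
      apply Subtype.ext
      refine hrad (st N) y y.2 fun x hx => ?_
      rw [hst2] at hx
      rw [ww_anti hOm, neg_eq_zero]
      exact congrArg (fun φ : Dual ℂ N.1 => φ ⟨x, hx⟩) hy
    let ψ' : N.1 →ₗ[ℂ] Dual ℂ (st N).1 := (wwL Om).domRestrict₁₂ N.1 (st N).1
    have hψ' : Function.Injective ψ' := by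
      rw [injective_iff_map_eq_zero]
      intro x hx
      apply Subtype.ext
      refine hrad N x x.2 fun y hy => ?_
      exact congrArg (fun φ : Dual ℂ (st N).1 => φ ⟨y, hy⟩) hx
    have h1 := LinearMap.finrank_le_finrank_of_injective hψ
    have h2 := LinearMap.finrank_le_finrank_of_injective hψ'
    rw [Subspace.dual_finrank_eq] at h1 h2
    have h3 : finrank ℂ (st N).1 = finrank ℂ (Dual ℂ N.1) := by
      rw [Subspace.dual_finrank_eq]
      exact le_antisymm h1 h2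
    let e : (st N).1 ≃ₗ[ℂ] Dual ℂ N.1 := ψ.linearEquivOfInjective hψ h3
    have he : ∀ y, e y = ψ y := fun y => LinearMap.linearEquivOfInjective_apply hψ h3 y
    let b := finBasis ℂ N.1
    refine ⟨b, b.dualBasis.map e.symm, fun i j => ?_⟩
    have h4 : ψ (b.dualBasis.map e.symm j) = b.dualBasis j := by
      rw [← he, Basis.map_apply, LinearEquiv.apply_symm_apply]
    have h5 : ww Om (b i : B → ℂ) ((b.dualBasis.map e.symm j : (st N).1) : B → ℂ) =
        (ψ (b.dualBasis.map e.symm j)) (b i) := rfl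
    rw [h5, h4, Basis.dualBasis_apply_self]
  choose b b' hbb using hdual
  let R : Type := (Σ N : H, Fin (finrank ℂ N.1.1)) ⊕ (Σ N : H, Fin (finrank ℂ N.1.1))
  let ev : R → B → ℂ := Sum.elim (fun x => (b x.1.1 x.2 : B → ℂ)) (fun x => (b' x.1.1 x.2 : B → ℂ))
  let cls : R → 𝒩 := Sum.elim (fun x => x.1.1) (fun x => st x.1.1)
  let inv : R → R := Sum.swap
  let jj : R → ℂ := Sum.elim (fun _ => 1) (fun _ => -1)
  have hev : ∀ x, ev x ∈ (cls x).1 := by
    rintro (x | x)
    · exact (b x.1.1 x.2).2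
    · exact (b' x.1.1 x.2).2
  have hcinv : ∀ x, cls (inv x) = st (cls x) := by
    rintro (x | x)
    · rfl
    · exact (hst2 _).symm
  have hspanN : ∀ N : H, (N.1.1 ≤ Submodule.span ℂ (ev '' {z | cls z = N.1})) ∧
      (st N.1).1 ≤ Submodule.span ℂ (ev '' {z | cls z = st N.1}) := by
    intro N
    constructor
    · intro x hx
      have h1 : x = ∑ i, (b N.1).repr ⟨x, hx⟩ i • (b N.1 i : B → ℂ) := by
        have h2 := congrArg Subtype.val ((b N.1).sum_repr ⟨x, hx⟩)
        rw [Submodule.coe_sum] at h2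
        exact h2.symm
      rw [h1]
      refine Submodule.sum_mem _ fun i _ => Submodule.smul_mem _ _ (Submodule.subset_span ?_)
      exact ⟨Sum.inl ⟨N, i⟩, rfl, rfl⟩
    · intro x hx
      have h1 : x = ∑ i, (b' N.1).repr ⟨x, hx⟩ i • (b' N.1 i : B → ℂ) := by
        have h2 := congrArg Subtype.val ((b' N.1).sum_repr ⟨x, hx⟩)
        rw [Submodule.coe_sum] at h2
        exact h2.symm
      rw [h1]
      refine Submodule.sum_mem _ fun i _ => Submodule.smul_mem _ _ (Submodule.subset_span ?_)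
      exact ⟨Sum.inr ⟨N, i⟩, rfl, rfl⟩
  have hcls : ∀ N : 𝒩, N.1 ≤ Submodule.span ℂ (ev '' {z | cls z = N}) := by
    intro N
    rcases lt_or_gt_of_ne (fun h => hne N (f.injective h).symm : f N ≠ f (st N)) with h | h
    · exact (hspanN ⟨N, h⟩).1
    · have h1 : f (st N) < f (st (st N)) := by
        rw [hst2]
        exact h
      have h2 := (hspanN ⟨st N, h1⟩).2
      simp only [hst2] at h2
      exact h2
  refine mem_MS_of_family (D := D) (Om := Om) (R := R) (Q := 𝒩) hsp cls inv jj ev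
    (fun x => Sum.swap_swap x) ?_ ?_ ?_ ?_ ?_ ?_ ?_ c hc
  · rintro (x | x)
    · rfl
    · exact (neg_neg (1 : ℂ)).symm
  · rintro (x | x)
    · exact one_ne_zero
    · exact neg_ne_zero.2 one_ne_zero
  · intro x y h
    rw [hcinv, hcinv, h]
  · have hlr : ∀ x y, ww Om (ev (Sum.inl x)) (ev (Sum.inr y)) = if x = y then 1 else 0 := by
      rintro ⟨N, i⟩ ⟨N', j⟩
      by_cases hN : N = N'
      · subst hN
        change ww Om (b N.1 i : B → ℂ) (b' N.1 j : B → ℂ) = _
        rw [hbb]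
        by_cases hij : i = j
        · rw [if_pos hij, if_pos (by rw [hij])]
        · rw [if_neg hij, if_neg]
          intro h
          apply hij
          simpa using h
      · rw [if_neg (fun h => hN (congrArg Sigma.fst h))]
        by_contra hcon
        have h1 := horth N.1 (st N'.1) _ (b N.1 i).2 _ (b' N'.1 j).2 hcon
        apply hN
        apply Subtype.ext
        rw [← hst2 N.1, ← h1, hst2]
    rintro (x | x) (y | y)
    · unfold JJ
      rw [if_neg (by rintro ⟨⟩)]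
      by_contra hcon
      have h1 := horth x.1.1 y.1.1 _ (b x.1.1 x.2).2 _ (b y.1.1 y.2).2 hcon
      have h2 := x.1.2
      have h3 := y.1.2
      rw [h1, hst2] at h3
      exact lt_asymm h2 h3
    · rw [hlr]
      unfold JJ
      by_cases h : x = y
      · subst h
        rw [if_pos rfl]
        exact (if_pos rfl).symm
      · rw [if_neg h, if_neg]
        intro h'
        exact h (Sum.inr_injective h').symm
    · rw [ww_anti hOm, hlr]
      unfold JJ
      by_cases h : y = x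
      · subst h
        rw [if_pos rfl]
        exact (if_pos rfl).symm
      · rw [if_neg h, if_neg, neg_zero]
        intro h'
        exact h (Sum.inl_injective h')
    · unfold JJ
      rw [if_neg (by rintro ⟨⟩)]
      by_contra hcon
      have h1 := horth (st x.1.1) (st y.1.1) _ (b' x.1.1 x.2).2 _ (b' y.1.1 y.2).2 hcon
      have h2 := x.1.2
      have h3 := y.1.2
      rw [hst2] at h1
      rw [h1] at h3
      have h4 : st x.1.1 = y.1.1 := by rw [← h1, hst2]
      rw [h4] at h2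
      exact lt_asymm h2 h3
  · rw [eq_top_iff, ← hsup]
    refine iSup_le fun N => (hcls N).trans (Submodule.span_mono ?_)
    rintro _ ⟨z, _, rfl⟩
    exact ⟨z, rfl⟩
  · intro X hX y
    exact hcls (cls y) (hstab (cls y) X hX _ (hev y))
  · intro x y hxy
    rw [hcinv] at hxy
    have h1 := hev y
    rw [← hxy] at h1
    exact hprod _ _ (hev x) _ h1

end Dec

variable {g : ℕ} {Z : Matrix (Fin g) (Fin g) ℂ}

/-- The trace form is nondegenerate on the complex Lie algebra. -/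
theorem trace_nondeg_C (hZ : Zᵀ = Z) (hpos : (imM Z).PosDef) :
    ∀ X ∈ lieM (DZ Z) ℂ, (∀ Y ∈ lieM (DZ Z) ℂ, trace (X * Y) = 0) → X = 0 := by
  intro X hX h
  ext i j
  rw [Matrix.zero_apply]
  apply eq_zero_of_lam
  intro lam
  have h1 : X.map lam = 0 := by
    refine trace_nondeg hZ hpos _ (map_mem _ hX lam) fun Y hY => ?_
    have h2 := h _ (cast_mem _ hY)
    have h3 : lam (trace (X * Y.map (fun x : ℚ => (x : ℂ)))) = trace (X.map lam * Y) := by
      simp only [trace, diag_apply, Matrix.mul_apply, map_sum, Matrix.map_apply]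
      refine Finset.sum_congr rfl fun i _ => Finset.sum_congr rfl fun j _ => ?_
      rw [mul_comm, ← Rat.smul_def, map_smul, smul_eq_mul, mul_comm]
    rw [← h3, h2, map_zero]
  exact congrFun (congrFun h1 i) j

/-- If the abelian variety is simple and there is a pair, then all Hodge classes on all its
powers are generated by those of degree two. -/
theorem divisorial_of_pair (hZ : Zᵀ = Z) (hpos : (imM Z).PosDef) (hs : IsSimpleAV Z)
    (hg : ∃ v w, GP (DZ Z) (Om g ℂ) v w) {n m : ℕ}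
    (f : (Fin n → Fin g ⊕ Fin g → ℚ) [⋀^Fin m × Fin 2]→ₗ[ℚ] ℚ)
    (hf : IsHodge (perPow Z n) f) : f ∈ divisorial (perPow Z n) m := by
  have hY : IsUnit (imM Z).det := hpos.isUnit.map Matrix.detMonoidHom
  have hOm : (Om g ℂ)ᵀ = -Om g ℂ := Om_transpose ℂ
  have hsp := sp_C hZ
  have htop : UG (DZ Z) (Om g ℂ) = ⊤ := by
    refine stable_eq_top hY hs _ (fun σ v hv => UG_map (Om_aut _) hv)
      (fun v hv => UG_stable hOm hsp (D_mem _) hv) ?_
    obtain ⟨v, w, h⟩ := hg
    intro h0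
    have h1 : v ∈ UG (DZ Z) (Om g ℂ) :=
      Submodule.mem_iSup_of_mem (⟨(v, w), h⟩ :
        {p : (Fin g ⊕ Fin g → ℂ) × (Fin g ⊕ Fin g → ℂ) // GP (DZ Z) (Om g ℂ) p.1 p.2}) h.fst_mem
    rw [h0, Submodule.mem_bot] at h1
    apply h.2.1
    rw [h1]
    exact zero_dotProduct _
  exact mem_divisorial_of_MS hY (fun c hc => mem_MS_of_pairs hOm hsp (trace_nondeg_C hZ hpos) htop
    c hc) f hf

end Pool.Agent.W437.HD
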