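import Mathlib
import Pool.Agent.W437.HD.Eig
import Pool.Agent.W437.HD.PairDec
import Pool.Agent.W437.HD.Var
import Pool.Agent.W437.HD.Peirce

/-!
# Elements of small rank in the Hodge Lie algebra
-/

set_option linter.unusedSectionVars false

namespace Pool.Agent.W437.HD

open Matrix Module Pool.Agent.H204R3.CM Pool.Agent.H194R3.CM Pool.Agent.W437.HC

/-- A symmetric matrix of rank two is a product of two vectors. -/
theorem exists_prod {n : Type*} [Fintype n] [DecidableEq n] {G : Matrix n n ℂ} (hG : Gᵀ = G)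
    (h : G.rank = 2) : ∃ v w : n → ℂ, G = vecMulVec v w + vecMulVec w v := by
  -- a vector of nonzero square
  have hsymm : ∀ x y : n → ℂ, x ⬝ᵥ (G *ᵥ y) = y ⬝ᵥ (G *ᵥ x) := by
    intro x y
    rw [dotProduct_comm, dotProduct_mulVec y, ← mulVec_transpose, hG]
  obtain ⟨u, hu⟩ : ∃ u : n → ℂ, u ⬝ᵥ (G *ᵥ u) ≠ 0 := by
    by_contra hcon
    push Not at hcon
    have h1 : G = 0 := by
      ext i j
      have h2 := hcon (Pi.single i 1 + Pi.single j 1)
      rw [mulVec_add, dotProduct_add, add_dotProduct, add_dotProduct, hcon, hcon, zero_add,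
        add_zero, hsymm (Pi.single j 1), ← two_mul] at h2
      have h3 := (mul_eq_zero.1 h2).resolve_left two_ne_zero
      rw [mulVec_single_one, single_one_dotProduct] at h3
      exact h3
    rw [h1, rank_zero] at h
    omega
  set q := u ⬝ᵥ (G *ᵥ u) with hq
  set a := G *ᵥ u with ha
  have ha0 : a ≠ 0 := by
    intro h0
    apply hu
    rw [hq, h0, dotProduct_zero]
  obtain ⟨s, hs⟩ : ∃ s : ℂ, s * s = q := by
    obtain ⟨s, hs⟩ := IsAlgClosed.exists_pow_nat_eq q (n := 2) (by norm_num)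
    exact ⟨s, by rw [← hs, sq]⟩
  have hs0 : s ≠ 0 := by
    rintro rfl
    apply hu
    rw [← hs, mul_zero]
  obtain ⟨G', hG'⟩ : ∃ G', G' = G - q⁻¹ • vecMulVec a a := ⟨_, rfl⟩
  have hG's : G'ᵀ = G' := by
    rw [hG', transpose_sub, transpose_smul, transpose_vecMulVec, hG]
  have hvm : ∀ y, vecMulVec a a *ᵥ y = (a ⬝ᵥ y) • a := by
    intro y
    funext i
    simp only [mulVec, dotProduct, vecMulVec_apply, Pi.smul_apply, smul_eq_mul, Finset.sum_mul]
    exact Finset.sum_congr rfl fun j _ => by ring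
  have hlt : G'.rank < G.rank := by
    refine rank_lt (fun y hy => ?_) (w0 := u) ?_ ha0
    · have h1 : a ⬝ᵥ y = 0 := by
        rw [dotProduct_comm, ha, hsymm, hy, dotProduct_zero]
      rw [hG', sub_mulVec, smul_mulVec, hvm, h1, zero_smul, smul_zero, hy, sub_zero]
    · rw [hG', sub_mulVec, smul_mulVec, hvm, dotProduct_comm, ← hq, smul_smul,
        inv_mul_cancel₀ hu, one_smul, ← ha, sub_self]
  have hne : G'.rank ≠ 0 := by
    intro h0
    have h1 : G' = 0 := by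
      have h2 : LinearMap.range (mulVecLin G') = ⊥ := Submodule.finrank_eq_zero.1 h0
      ext i j
      have h4 : G' *ᵥ (Pi.single j 1) ∈ LinearMap.range (mulVecLin G') := ⟨Pi.single j 1, rfl⟩
      rw [h2, Submodule.mem_bot, mulVec_single_one] at h4
      exact congrFun h4 i
    have h2 : G = vecMulVec (q⁻¹ • a) a := by
      rw [smul_vecMulVec]
      exact sub_eq_zero.1 (by rw [← hG', h1])
    have h3 := rank_vecMulVec_le (q⁻¹ • a) a
    rw [← h2, h] at h3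
    omega
  obtain ⟨b, c, hb0, hc0, hGb⟩ := exists_sq hG's (by omega)
  obtain ⟨r, hr⟩ : ∃ r : ℂ, r * r = -c := by
    obtain ⟨r, hr⟩ := IsAlgClosed.exists_pow_nat_eq (-c) (n := 2) (by norm_num)
    exact ⟨r, by rw [← hr, sq]⟩
  refine ⟨(2 : ℂ)⁻¹ • (s⁻¹ • a + r • b), s⁻¹ • a - r • b, ?_⟩
  have h1 : G = q⁻¹ • vecMulVec a a + c • vecMulVec b b := by
    rw [← hGb, hG']
    abel
  have h2 : q⁻¹ = s⁻¹ * s⁻¹ := by
    rw [← hs, mul_inv]
  rw [h1, h2]
  ext i j
  simp only [Matrix.add_apply, Matrix.smul_apply, vecMulVec_apply, Pi.smul_apply, Pi.add_apply,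
    Pi.sub_apply, smul_eq_mul]
  linear_combination (b i * b j) * hr

variable {g : ℕ} {Z : Matrix (Fin g) (Fin g) ℂ}

theorem cmJ_mem (Z : Matrix (Fin g) (Fin g) ℂ) : cm (JR Z) ∈ lieM (DZ Z) ℂ := by
  have h1 : cm (JR Z) = Complex.I • DZ Z := by
    change _ = Complex.I • ((-Complex.I) • cm (JR Z))
    rw [smul_smul, show Complex.I * -Complex.I = 1 by simp, one_smul]
  rw [h1]
  exact Submodule.smul_mem _ _ (D_mem _)

theorem cm_Om : cm (Om g ℝ) = Om g ℂ := by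
  ext i j
  rcases i with i | i <;> rcases j with j | j <;>
    simp [cm, Om, Matrix.one_apply, apply_ite]

/-- A vector whose square is in the Lie algebra is good. -/
theorem good_of_sq_gen (hZ : Zᵀ = Z) (hpos : (imM Z).PosDef) {v : Fin g ⊕ Fin g → ℂ}
    (hv : v ≠ 0) (h2 : SS (Om g ℂ) v v ∈ lieM (DZ Z) ℂ) : Good (DZ Z) (Om g ℂ) v := by
  have hY : IsUnit (imM Z).det := hpos.isUnit.map Matrix.detMonoidHom
  set vb : Fin g ⊕ Fin g → ℂ := fun i => starRingEnd ℂ (v i) with hvb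
  have h3 : SS (Om g ℂ) vb vb ∈ lieM (DZ Z) ℂ := by
    rw [hvb, ← SS_map (Om_aut (starRingEnd ℂ))]
    exact map_mem_aut h2 _
  have hJ2 : cm (JR Z) * cm (JR Z) = -1 := by
    rw [← cm_mul, JR_sq hY, cm_neg, cm_one]
  have h4 := lieM_conj (DZ Z) h3 (cmJ_mem Z) hJ2
  have hsp := sp_C hZ _ (cmJ_mem Z)
  have h5 : cm (JR Z) * SS (Om g ℂ) vb vb * cm (JR Z) =
      -SS (Om g ℂ) (cm (JR Z) *ᵥ vb) (cm (JR Z) *ᵥ vb) := by
    have e1 : Om g ℂ * cm (JR Z) = -((cm (JR Z))ᵀ * Om g ℂ) := eq_neg_of_add_eq_zero_right hsp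
    have e2 : SS (Om g ℂ) vb vb * cm (JR Z) =
        -((vecMulVec vb vb + vecMulVec vb vb) * (cm (JR Z))ᵀ * Om g ℂ) := by
      unfold SS
      rw [mul_assoc (vecMulVec vb vb + vecMulVec vb vb) (Om g ℂ), e1, mul_neg, ← mul_assoc]
    rw [mul_assoc, e2, mul_neg]
    unfold SS
    rw [← mul_assoc, ← mul_assoc]
    congr 2
    rw [mul_add, add_mul, mul_vecMulVec, vecMulVec_mul, vecMul_transpose]
  rw [h5] at h4
  have h6 : SS (Om g ℂ) (cm (JR Z) *ᵥ vb) (cm (JR Z) *ᵥ vb) ∈ lieM (DZ Z) ℂ := by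
    have := Submodule.neg_mem _ h4
    rwa [neg_neg] at this
  refine ⟨h2, _, h6, ?_⟩
  -- positivity
  set H := Om g ℝ * JR Z with hH
  have hHpos := OmJ_posDef hZ hpos
  have h7 : ww (Om g ℂ) v (cm (JR Z) *ᵥ vb) = v ⬝ᵥ (cm H *ᵥ vb) := by
    unfold ww
    rw [hH, cm_mul, cm_Om, mulVec_mulVec]
  rw [h7]
  set x : Fin g ⊕ Fin g → ℝ := fun i => (v i).re with hx
  set y : Fin g ⊕ Fin g → ℝ := fun i => (v i).im with hy
  have h8 : (v ⬝ᵥ (cm H *ᵥ vb)).re = x ⬝ᵥ (H *ᵥ x) + y ⬝ᵥ (H *ᵥ y) := by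
    simp only [dotProduct, mulVec, Complex.re_sum, Complex.mul_re, Complex.im_sum, Complex.mul_im,
      cm, Matrix.map_apply, Complex.ofReal_re, Complex.ofReal_im, zero_mul, sub_zero, add_zero,
      hvb, Complex.conj_re, Complex.conj_im, hx, hy]
    rw [← Finset.sum_add_distrib]
    refine Finset.sum_congr rfl fun i _ => ?_
    have e1 : ∑ k, H i k * -(v k).im = -∑ k, H i k * (v k).im := by
      rw [← Finset.sum_neg_distrib]
      exact Finset.sum_congr rfl fun k _ => by ring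
    rw [e1]
    ring
  intro h9
  rw [h9, Complex.zero_re] at h8
  have hnn : ∀ z : Fin g ⊕ Fin g → ℝ, 0 ≤ z ⬝ᵥ (H *ᵥ z) := by
    intro z
    by_cases hz : z = 0
    · rw [hz]
      simp
    · have := hHpos.dotProduct_mulVec_pos hz
      rw [star_trivial] at this
      exact this.le
  apply hv
  have hx0 : x = 0 := by
    by_contra hne
    have := hHpos.dotProduct_mulVec_pos hne
    rw [star_trivial] at this
    have h7 := hnn y
    linarith
  have hy0 : y = 0 := by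
    by_contra hne
    have := hHpos.dotProduct_mulVec_pos hne
    rw [star_trivial] at this
    have h7 := hnn x
    linarith
  funext i
  apply Complex.ext
  · exact congrFun hx0 i
  · exact congrFun hy0 i

/-- A product of two vectors which are not orthogonal. -/
theorem divisorial_of_SS (hZ : Zᵀ = Z) (hpos : (imM Z).PosDef) (hs : IsSimpleAV Z)
    {v w : Fin g ⊕ Fin g → ℂ} (h : SS (Om g ℂ) v w ∈ lieM (DZ Z) ℂ)
    (hvw : ww (Om g ℂ) v w ≠ 0) {n m : ℕ}
    (f : (Fin n → Fin g ⊕ Fin g → ℚ) [⋀^Fin m × Fin 2]→ₗ[ℚ] ℚ)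
    (hf : IsHodge (perPow Z n) f) : f ∈ divisorial (perPow Z n) m := by
  have hY : IsUnit (imM Z).det := hpos.isUnit.map Matrix.detMonoidHom
  have hv0 : v ≠ 0 := by
    rintro rfl
    exact hvw (zero_dotProduct _)
  have hw0 : w ≠ 0 := by
    rintro rfl
    apply hvw
    unfold ww
    rw [mulVec_zero, dotProduct_zero]
  by_cases h1 : SS (Om g ℂ) v v ∈ lieM (DZ Z) ℂ
  · exact divisorial_of_good hZ hY hs ⟨v, good_of_sq_gen hZ hpos hv0 h1⟩ f hf
  by_cases h2 : SS (Om g ℂ) w w ∈ lieM (DZ Z) ℂ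
  · exact divisorial_of_good hZ hY hs ⟨w, good_of_sq_gen hZ hpos hw0 h2⟩ f hf
  exact divisorial_of_pair hZ hpos hs ⟨v, w, h, hvw, h1, h2⟩ f hf

/-- The symmetric matrix of an element of the symplectic Lie algebra. -/
theorem symm_of_sp {X : Matrix (Fin g ⊕ Fin g) (Fin g ⊕ Fin g) ℂ}
    (hX : Xᵀ * Om g ℂ + Om g ℂ * X = 0) : ∃ G, Gᵀ = G ∧ X = G * Om g ℂ ∧ G.rank = X.rank := by
  have hO2 := Om_sq (g := g) ℂ
  refine ⟨-(X * Om g ℂ), ?_, ?_, ?_⟩
  · have h1 : Xᵀ * Om g ℂ = -(Om g ℂ * X) := eq_neg_of_add_eq_zero_left hX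
    have h2 : Om g ℂ * Xᵀ = -(X * Om g ℂ) := by
      have h3 : Om g ℂ * (Xᵀ * Om g ℂ) * Om g ℂ = -(Om g ℂ * Xᵀ) := by
        rw [mul_assoc, mul_assoc Xᵀ, hO2, mul_neg_one, mul_neg]
      rw [h1, mul_neg, ← mul_assoc, hO2, neg_one_mul, neg_neg] at h3
      rw [h3, neg_neg]
    rw [transpose_neg, transpose_mul, Om_transpose, neg_mul, neg_neg, h2]
  · rw [neg_mul, mul_assoc, hO2, mul_neg_one, neg_neg]
  · have h1 : IsUnit (Om g ℂ).det := (Om_unit ℂ).map Matrix.detMonoidHom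
    have h2 : -(X * Om g ℂ) = X * -(Om g ℂ) := by rw [mul_neg]
    rw [h2, rank_mul_eq_left_of_isUnit_det]
    rw [det_neg]
    exact (isUnit_neg_one.pow _).mul h1

/-- The criterion: an element of rank one, or an element of rank two with nonzero square. -/
theorem divisorial_of_rank (hZ : Zᵀ = Z) (hpos : (imM Z).PosDef) (hs : IsSimpleAV Z)
    {X : Matrix (Fin g ⊕ Fin g) (Fin g ⊕ Fin g) ℂ} (hX : X ∈ lieM (DZ Z) ℂ)
    (hr : X.rank = 1 ∨ (X.rank = 2 ∧ X * X ≠ 0)) {n m : ℕ}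
    (f : (Fin n → Fin g ⊕ Fin g → ℚ) [⋀^Fin m × Fin 2]→ₗ[ℚ] ℚ)
    (hf : IsHodge (perPow Z n) f) : f ∈ divisorial (perPow Z n) m := by
  have hY : IsUnit (imM Z).det := hpos.isUnit.map Matrix.detMonoidHom
  obtain ⟨G, hG, hXG, hrk⟩ := symm_of_sp (sp_C hZ _ hX)
  rcases hr with hr | ⟨hr, hXX⟩
  · obtain ⟨a, c, ha, hc, hGa⟩ := exists_sq hG (hrk.trans hr)
    refine divisorial_of_good hZ hY hs ⟨a, good_of_sq_gen hZ hpos ha ?_⟩ f hf
    have h1 : SS (Om g ℂ) a a = (2 * c⁻¹) • X := by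
      unfold SS
      rw [hXG, hGa, smul_mul_assoc, smul_smul, mul_assoc, inv_mul_cancel₀ hc, mul_one, two_smul,
        add_mul]
    rw [h1]
    exact Submodule.smul_mem _ _ hX
  · obtain ⟨v, w, hGv⟩ := exists_prod hG (hrk.trans hr)
    have h1 : X = SS (Om g ℂ) v w := by
      rw [hXG, hGv]
      rfl
    refine divisorial_of_SS hZ hpos hs (v := v) (w := w) (by rw [← h1]; exact hX) ?_ f hf
    intro h0
    apply hXX
    have h2 : ww (Om g ℂ) w v = 0 := by rw [ww_anti (Om_transpose ℂ), h0, neg_zero]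
    apply mulVec_ext
    intro y
    have inner := SS_mulVec (Om g ℂ) v w y
    change SS (Om g ℂ) v w *ᵥ y = ww (Om g ℂ) w y • v + ww (Om g ℂ) v y • w at inner
    rw [← mulVec_mulVec, h1, inner, mulVec_add, mulVec_smul, mulVec_smul, SS_vec, SS_vec, h0, h2,
      ww_self (Om_transpose ℂ), ww_self (Om_transpose ℂ), zero_mulVec]
    simp

end Pool.Agent.W437.HD
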